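import Pool.Agent.Lib.MP_1a91b9_ntT3.S9.Defs

/-!
# The elements of all the valuation rings of `ℂ` above a prime number
-/

set_option autoImplicit false

namespace Pool.Agent.Lib.MP_1a91b9_ntT3.S9

open Polynomial Algebra

/-- An element of `ℂ` which lies in all the valuation rings of `ℂ` in which `p` is not invertible
is algebraic, and a multiple of it by an integer prime to `p` is an algebraic integer. -/
theorem exists_isIntegral_at {p : ℕ} (hp : p.Prime) {x : ℂ}
    (h : ∀ A : ValuationSubring ℂ, (p : ℂ)⁻¹ ∉ A → x ∈ A) :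
    ∃ n : ℤ, IsCoprime n (p : ℤ) ∧ IsIntegral ℤ ((n : ℂ) * x) := by
  rcases eq_or_ne x 0 with rfl | hx
  · exact ⟨1, isCoprime_one_left, by rw [mul_zero]; exact isIntegral_zero⟩
  have hx' : x⁻¹ ≠ 0 := inv_ne_zero hx
  let _ := invertibleOfNonzero hx'
  set B := Algebra.adjoin ℤ {x⁻¹} with hB
  set xinv : B := ⟨x⁻¹, Algebra.subset_adjoin rfl⟩ with hxinv
  by_cases hI : (Ideal.span {(p : ℤ)}).map (algebraMap ℤ B) ⊔ Ideal.span {xinv} = ⊤
  · obtain ⟨q, hp1, hp2⟩ := exists_aeval_invOf_eq_zero_of_idealMap_adjoin_sup_span_eq_top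
      x⁻¹ (Ideal.span {(p : ℤ)}) (by
        rw [Ne, Ideal.span_singleton_eq_top, Int.isUnit_iff]
        have := hp.one_lt
        omega) hI
    rw [invOf_eq_inv, inv_inv] at hp2
    refine ⟨q.leadingCoeff, ?_, ?_⟩
    · rw [Ideal.mem_span_singleton] at hp1
      obtain ⟨k, hk⟩ := hp1
      exact ⟨1, -k, by linear_combination hk⟩
    · have := isIntegral_leadingCoeff_smul q x hp2
      rwa [zsmul_eq_mul] at this
  · exfalso
    obtain ⟨V, hV1, hV2⟩ := Ideal.image_subset_nonunits_valuationSubring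
      (A := B.toSubring) ((Ideal.span {(p : ℤ)}).map (algebraMap ℤ B) ⊔ Ideal.span {xinv}) hI
    have h2 : (p : ℂ)⁻¹ ∉ V := by
      have h3 : (p : ℂ) ∈ V.nonunits := by
        refine hV2 ⟨algebraMap ℤ B p, le_sup_left (α := Ideal B)
          (Ideal.mem_map_of_mem _ (Ideal.mem_span_singleton_self _)), ?_⟩
        show ((algebraMap ℤ B p : B) : ℂ) = p
        rw [map_natCast]
        rfl
      rcases V.mem_nonunits_iff_or.1 h3 with h4 | h4
      · exact absurd h4 (Nat.cast_ne_zero.2 hp.ne_zero)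
      · exact h4
    have h3 : x⁻¹ ∈ V.nonunits := hV2 ⟨xinv, le_sup_right (α := Ideal B)
      (Ideal.mem_span_singleton_self _), rfl⟩
    rcases V.mem_nonunits_iff_or.1 h3 with h4 | h4
    · exact hx' h4
    · rw [inv_inv] at h4
      exact h4 (h V h2)

/-- A real number which is a unit of all the valuation rings above `p`, if there are any. -/
theorem unitAt_of_val {p : ℕ} (hp : p.Prime) {x : ℝ} (hx : x ≠ 0)
    (h : ∀ A : ValuationSubring ℂ, (p : ℂ)⁻¹ ∉ A → A.valuation (x : ℂ) = 1) : UnitAt p x := by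
  have hinj : Function.Injective (algebraMap ℝ ℂ) := (algebraMap ℝ ℂ).injective
  obtain ⟨m, hm, hm1⟩ := exists_isIntegral_at hp (x := (x : ℂ)) fun A hA => by
    rw [← A.valuation_le_one_iff, h A hA]
  obtain ⟨n, hn, hn1⟩ := exists_isIntegral_at hp (x := (x : ℂ)⁻¹) fun A hA => by
    rw [← A.valuation_le_one_iff, map_inv₀, h A hA, inv_one]
  refine ⟨hx, ⟨m, hm, ?_⟩, n, hn, ?_⟩
  · rw [← isIntegral_algebraMap_iff hinj]
    convert! hm1 using 1
    simp
  · rw [← isIntegral_algebraMap_iff hinj]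
    convert! hn1 using 1
    simp

end Pool.Agent.Lib.MP_1a91b9_ntT3.S9
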