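import Pool.Agent.Lib.MP_1a91b9_ntT.S9.Defs

/-!
# The `p`-part of the conjecture of Birch and Swinnerton-Dyer: definitions

All definitions are for general Weierstrass curves `W` over a number field `N`; `Sha`, `tam`,
`period` are those of `MP_1a91b9_ntT.S9.Defs`.
-/

set_option autoImplicit false

namespace Pool.Agent.Lib.MP_1a91b9_ntT3.S9

open NumberField IsDedekindDomain WeierstrassCurve Pool.Agent.Lib.MP_1a91b9_ntT.S9

open scoped Classical

noncomputable section

variable {N : Type*} [Field N] [NumberField N]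

/-- The `p`-primary part of the Tate-Shafarevich group. -/
abbrev ShaP (p : ℕ) [Fact p.Prime] (W : WeierstrassCurve N) : Type _ :=
  AddCommGroup.primaryComponent (Sha W) p

/-- `x` is a non-zero algebraic number which is a unit at all places above `p`: both `x` and its
inverse become algebraic integers after multiplication by an integer prime to `p`. -/
def UnitAt (p : ℕ) (x : ℝ) : Prop :=
  x ≠ 0 ∧ (∃ m : ℤ, IsCoprime m (p : ℤ) ∧ IsIntegral ℤ (m * x)) ∧
    ∃ m : ℤ, IsCoprime m (p : ℤ) ∧ IsIntegral ℤ (m * x⁻¹)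

/-- The `p`-part of the conjecture of Birch and Swinnerton-Dyer for `W` over `N` when the
L-function does not vanish at `1`: the L-series of `W` has an entire continuation `g` with
`g 1 ≠ 0`, the groups `W(N)` and `Sha[p^∞]` are finite, and
`L(W, 1) √|D| / Ω = x * #Sha[p^∞] * ∏ c_v / #W(N)²` with an algebraic number `x` which is a unit
at all places above `p` (the regulator is `1`). -/
def PPart (p : ℕ) [Fact p.Prime] (W : WeierstrassCurve N) : Prop :=
  ∃ (g : ℂ → ℂ) (x : ℝ), Differentiable ℂ g ∧ (∀ s : ℂ, 3 / 2 < s.re → g s = W.LSeries s) ∧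
    g 1 ≠ 0 ∧ Finite W.toAffine.Point ∧ Finite (ShaP p W) ∧ UnitAt p x ∧
    g 1 * (√|(discr N : ℝ)| : ℝ) / (period W : ℝ) =
      (x * ((Nat.card (ShaP p W) : ℝ) * ((∏ᶠ v : HeightOneSpectrum (𝓞 N), tam W v : ℕ) : ℝ) /
        (Nat.card W.toAffine.Point : ℝ) ^ 2) : ℝ)

/-- The `p`-part of the formula of Birch and Swinnerton-Dyer for `W` over `N` when the regulator
is `1`, where `g` is the continuation of the L-series of `W`:
`g(1) √|D| / Ω = x * #Sha[p^∞] * ∏ c_v / #W(N)²` with an algebraic number `x` which is a unit at all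
places above `p`. -/
def Formula (p : ℕ) [Fact p.Prime] (W : WeierstrassCurve N) (g : ℂ → ℂ) : Prop :=
  ∃ x : ℝ, UnitAt p x ∧ g 1 * (√|(discr N : ℝ)| : ℝ) / (period W : ℝ) =
    (x * ((Nat.card (ShaP p W) : ℝ) * ((∏ᶠ v : HeightOneSpectrum (𝓞 N), tam W v : ℕ) : ℝ) /
      (Nat.card W.toAffine.Point : ℝ) ^ 2) : ℝ)

end

end Pool.Agent.Lib.MP_1a91b9_ntT3.S9
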