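import Pool.Agent.Lib.MP_1a91b9_ntT3.S5.BaseN

/-!
# JOB DS: the 3-part of the discriminant

`N` contains `om`; at every place `v` above `3` the valuation of `l = 1 + 2 om` (`l² = -3`) is `exp (-1)`.
Then `|discr N| = 3^n m` with `m` prime to `3`, `2 n = [N : ℚ]`. Let `k = ℚ(om) ⊆ N`
(`IntermediateField.adjoin ℚ {om}` or `K` of `MP_1a91b9_ntT/Base.lean` with the algebra structure given by
`om`), `discr k = -3` (integral basis `1, om`; Mathlib: discriminant of cyclotomic fields). Tower formula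
`differentIdeal ℤ (𝓞 N) = differentIdeal (𝓞 k) (𝓞 N) * (differentIdeal ℤ (𝓞 k)).map`
(`differentIdeal_eq_differentIdeal_mul_differentIdeal`), `absNorm (differentIdeal ℤ (𝓞 N)) =
|discr N|` (`NumberField.absNorm_differentIdeal`), so `|discr N| = absNorm (differentIdeal (𝓞 k) (𝓞 N)) *
3^n`. No prime `P` above `3` divides `differentIdeal (𝓞 k) (𝓞 N)`: `P` is unramified over `k`
(`not_dvd_differentIdeal_iff`, `Algebra.isUnramifiedAt_iff...`; `e = 1` because `v(l) = exp (-1)` and `l`
generates the prime of `k` above `3`; the residue fields are finite). So the absolute norm of this ideal is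
prime to `3` (if `3` divides the norm of an ideal, some prime above `3` divides the ideal:
`Ideal.absNorm` is multiplicative, factor into primes). A relative discriminant version, or
`NumberField.discr_dvd_discr`-type lemmas, can also be used.
-/

set_option autoImplicit false

namespace Pool.Agent.Lib.MP_1a91b9_ntT3.S9

open NumberField IsDedekindDomain WithZero

private theorem ds_norm {k N : Type*} [Field k] [NumberField k] [Field N] [NumberField N]
    [Algebra k N] (l : 𝓞 k)
    (hu : ∀ v : HeightOneSpectrum (𝓞 N), v.valuation N 3 < 1 →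
      v.valuation N (algebraMap k N (l : k)) = exp (-1 : ℤ)) :
    ¬ 3 ∣ (differentIdeal (𝓞 k) (𝓞 N)).absNorm := by
  intro h
  obtain ⟨P, hPmax, hPu, hPD⟩ := Ideal.exists_isMaximal_dvd_of_dvd_absNorm' Nat.prime_three _ h
  have h3 : (3 : 𝓞 N) ∈ P := by
    have h1 : (3 : ℤ) ∈ P.under ℤ := by
      rw [hPu]
      exact Ideal.subset_span rfl
    rw [Ideal.under_def, Ideal.mem_comap] at h1
    simpa using h1
  have hPbot : P ≠ ⊥ := by
    intro h1
    rw [h1, Ideal.mem_bot] at h3
    have h2 : ((3 : ℕ) : 𝓞 N) ≠ 0 := Nat.cast_ne_zero.2 (by norm_num)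
    exact h2 (by exact_mod_cast h3)
  let v : HeightOneSpectrum (𝓞 N) := ⟨P, hPmax.isPrime, hPbot⟩
  have hv3 : v.valuation N 3 < 1 := by
    have h1 := (HeightOneSpectrum.valuation_lt_one_iff_mem (K := N) v (3 : 𝓞 N)).2 h3
    have h2 : algebraMap (𝓞 N) N 3 = 3 := map_ofNat _ 3
    have h4 : v.valuation N (algebraMap (𝓞 N) N 3) < 1 := h1
    rwa [h2] at h4
  have hvl := hu v hv3
  have hcomp : algebraMap k N (l : k) = algebraMap (𝓞 N) N (algebraMap (𝓞 k) (𝓞 N) l) := rfl
  rw [hcomp] at hvl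
  have hlP : algebraMap (𝓞 k) (𝓞 N) l ∈ P := by
    refine (HeightOneSpectrum.valuation_lt_one_iff_mem (K := N) v _).1 ?_
    rw [hvl, ← exp_zero]
    exact exp_lt_exp.2 (by norm_num)
  have hlP2 : algebraMap (𝓞 k) (𝓞 N) l ∉ P ^ 2 := by
    intro h1
    have h2 := (HeightOneSpectrum.intValuation_le_pow_iff_mem v
      (algebraMap (𝓞 k) (𝓞 N) l) 2).2 h1
    rw [HeightOneSpectrum.valuation_of_algebraMap] at hvl
    rw [hvl, exp_le_exp] at h2
    norm_num at h2
  have hlp : l ∈ P.under (𝓞 k) := by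
    rw [Ideal.under_def, Ideal.mem_comap]
    exact hlP
  have hpmax : (P.under (𝓞 k)).IsMaximal := Ideal.IsMaximal.under (𝓞 k) P
  have hpbot : P.under (𝓞 k) ≠ ⊥ := mt Ideal.eq_bot_of_comap_eq_bot hPbot
  have hfin : Finite (𝓞 k ⧸ P.under (𝓞 k)) := Ideal.finiteQuotientOfFreeOfNeBot _ hpbot
  obtain ⟨Q, hQ⟩ : P ∣ (P.under (𝓞 k)).map (algebraMap (𝓞 k) (𝓞 N)) :=
    Ideal.dvd_iff_le.2 Ideal.map_comap_le
  have hcop : IsCoprime P Q := by
    rw [Ideal.isCoprime_iff_sup_eq]
    by_contra hne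
    have h1 : P ⊔ Q = P := (hPmax.eq_of_le hne le_sup_left).symm
    have h2 : Q ≤ P := by
      rw [← h1]
      exact le_sup_right
    apply hlP2
    have h3 : algebraMap (𝓞 k) (𝓞 N) l ∈ P * Q := by
      rw [← hQ]
      exact Ideal.mem_map_of_mem _ hlp
    rw [pow_two]
    exact Ideal.mul_mono_right h2 h3
  exact not_dvd_differentIdeal_of_isCoprime (𝓞 k) P Q hcop hQ.symm hPD

theorem discr3 {N : Type*} [Field N] [NumberField N] {om : N} (hom : om ^ 2 + om + 1 = 0)
    (hu : ∀ v : HeightOneSpectrum (𝓞 N), v.valuation N 3 < 1 →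
      v.valuation N (1 + 2 * om) = exp (-1 : ℤ)) (n : ℕ) (hn : Module.finrank ℚ N = 2 * n) :
    ∃ m : ℕ, m.Coprime 3 ∧ (discr N).natAbs = 3 ^ n * m := by
  have hprim : IsPrimitiveRoot om 3 := by
    rw [IsPrimitiveRoot.iff (by norm_num)]
    refine ⟨by linear_combination (om - 1) * hom, fun j hj0 hj => ?_⟩
    have hne1 : om ≠ 1 := by
      intro h
      rw [h] at hom
      norm_num at hom
    have hj' : j = 1 ∨ j = 2 := by omega
    rcases hj' with rfl | rfl
    · rwa [pow_one]
    · intro h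
      have h1 : om ^ 3 = 1 := by linear_combination (om - 1) * hom
      apply hne1
      calc om = om * om ^ 2 := by rw [h, mul_one]
        _ = om ^ 3 := by ring
        _ = 1 := h1
  have : IsCyclotomicExtension {3} ℚ (IntermediateField.adjoin ℚ {om}) :=
    hprim.intermediateField_adjoin_isCyclotomicExtension ℚ
  set k := IntermediateField.adjoin ℚ {om} with hk
  have hdisc : (discr k).natAbs = 3 := by
    have : Fact (Nat.Prime 3) := ⟨Nat.prime_three⟩
    rw [IsCyclotomicExtension.Rat.discr_prime 3 k]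
    norm_num
  have hfin : Module.finrank ℚ k = 2 := by
    rw [IsCyclotomicExtension.finrank k (Polynomial.cyclotomic.irreducible_rat (n := 3) (by norm_num))]
    decide
  have hkn : Module.finrank k N = n := by
    have h1 := Module.finrank_mul_finrank ℚ k N
    rw [hfin, hn] at h1
    omega
  have homk : om ∈ k := IntermediateField.mem_adjoin_simple_self ℚ om
  have hint : IsIntegral ℤ (⟨om, homk⟩ : k) := by
    refine ⟨Polynomial.X ^ 2 + Polynomial.X + 1, ?_, ?_⟩
    · monicity!
    · apply Subtype.ext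
      simpa using hom
  have h3 := ds_norm (N := N) (1 + 2 * (⟨⟨om, homk⟩, hint⟩ : 𝓞 k)) (by
    intro v hv
    have h4 := hu v hv
    convert h4 using 2
    rfl)
  refine ⟨(differentIdeal (𝓞 k) (𝓞 N)).absNorm, ?_, ?_⟩
  · rw [Nat.coprime_comm, Nat.Prime.coprime_iff_not_dvd Nat.prime_three]
    exact h3
  · have h6 := natAbs_discr_eq_absNorm_differentIdeal_mul_natAbs_discr_pow k (𝓞 k) N (𝓞 N)
    rw [h6, hdisc, hkn, mul_comm]

end Pool.Agent.Lib.MP_1a91b9_ntT3.S9
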