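import Pool.Agent.Lib.MP_1a91b9_ntT.S9.QA
import Pool.Agent.Lib.MP_1a91b9_ntT3.S5.Defs

/-!
# JOB TG: good reduction outside `om - 2`

`Δ(EC om) = om² (om - 2)²` (mod `om² + om + 1 = 0`; `Δ = - (- 5 - om)² / 3`). At a place `v` with
`v(om - 2) = 1` the discriminant is a unit. See `minModel_disc`, `minChange_unit` (`S9/QA.lean`) and `tam_good`
(`S9/QB.lean`) of `Pool/Agent/Lib/MP_1a91b9_ntT/S9`: the same proofs, for `EC om` with `om` in the
integers (`om` is a root of a monic polynomial, so its valuation is 1; the lift of the image of `om`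
to `O_v` gives the integral model). The private lemmas of QA, QB may be copied.
-/

set_option autoImplicit false

namespace Pool.Agent.Lib.MP_1a91b9_ntT3.S9

open NumberField IsDedekindDomain WeierstrassCurve S5
open Pool.Agent.Lib.MP_1a91b9_ntT.S9
open scoped Classical

variable {N : Type*} [Field N] [NumberField N] {om : N}

private theorem tg1_val (v : HeightOneSpectrum (𝓞 N)) (r : v.adicCompletionIntegers N) :
    (IsDiscreteValuationRing.maximalIdeal (v.adicCompletionIntegers N)).valuation
      (v.adicCompletion N) (algebraMap (v.adicCompletionIntegers N) (v.adicCompletion N) r) = 1 ↔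
      Valued.v (r : v.adicCompletion N) = 1 := by
  have h1 := HeightOneSpectrum.valuation_lt_one_iff_mem (K := v.adicCompletion N)
    (IsDiscreteValuationRing.maximalIdeal (v.adicCompletionIntegers N)) r
  have h2 := HeightOneSpectrum.valuation_le_one (K := v.adicCompletion N)
    (IsDiscreteValuationRing.maximalIdeal (v.adicCompletionIntegers N)) r
  have h3 : r ∈ (IsDiscreteValuationRing.maximalIdeal (v.adicCompletionIntegers N)).asIdeal ↔
      ¬ IsUnit r := IsLocalRing.mem_maximalIdeal r
  rw [HeightOneSpectrum.adicCompletionIntegers.isUnit_iff_valued_eq_one] at h3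
  constructor
  · intro h
    by_contra h4
    exact absurd h (ne_of_lt (h1.2 (h3.2 h4)))
  · intro h
    refine le_antisymm h2 (not_lt.1 fun h4 => ?_)
    exact h3.1 (h1.1 h4) h

private theorem tg1_om (hom : om ^ 2 + om + 1 = 0) (v : HeightOneSpectrum (𝓞 N)) :
    Valued.v (algebraMap N (v.adicCompletion N) om) = 1 := by
  have h1 : om ^ 3 = 1 := by linear_combination (om - 1) * hom
  have h2 := congrArg (fun z => Valued.v (algebraMap N (v.adicCompletion N) z)) h1
  simp only [map_pow, map_one] at h2
  exact (pow_eq_one_iff.mp h2).resolve_right (by norm_num)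

/-- the integral model -/
private theorem tg1_base (hom : om ^ 2 + om + 1 = 0) (v : HeightOneSpectrum (𝓞 N)) :
    ∃ W : WeierstrassCurve (v.adicCompletionIntegers N),
      (EC om).baseChange (v.adicCompletion N) =
        WeierstrassCurve.baseChange W (v.adicCompletion N) := by
  have hv := tg1_om hom v
  set r : v.adicCompletionIntegers N := ⟨algebraMap N (v.adicCompletion N) om, hv.le⟩ with hr
  have hr' : algebraMap (v.adicCompletionIntegers N) (v.adicCompletion N) r =
      algebraMap N (v.adicCompletion N) om := rfl
  refine ⟨⟨0, 1 + 2 * r, r, -1, 0⟩, ?_⟩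
  have e2 : algebraMap N (v.adicCompletion N) (1 + 2 * om) =
      algebraMap (v.adicCompletionIntegers N) (v.adicCompletion N) (1 + 2 * r) := by
    rw [map_add, map_add, map_mul, map_mul, hr', map_one, map_one, map_ofNat, map_ofNat]
  rw [WeierstrassCurve.baseChange, WeierstrassCurve.baseChange]
  refine WeierstrassCurve.ext ?_ ?_ ?_ ?_ ?_
  · show algebraMap N (v.adicCompletion N) 0 =
      algebraMap (v.adicCompletionIntegers N) (v.adicCompletion N) 0
    rw [map_zero, map_zero]
  · exact e2
  · exact hr'.symm
  · show algebraMap N (v.adicCompletion N) (-1) =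
      algebraMap (v.adicCompletionIntegers N) (v.adicCompletion N) (-1)
    rw [map_neg, map_neg, map_one, map_one]
  · show algebraMap N (v.adicCompletion N) 0 =
      algebraMap (v.adicCompletionIntegers N) (v.adicCompletion N) 0
    rw [map_zero, map_zero]

private theorem tg1_disc (hom : om ^ 2 + om + 1 = 0) (v : HeightOneSpectrum (𝓞 N))
    (h : v.valuation N (om - 2) = 1) :
    Valued.v ((EC om).baseChange (v.adicCompletion N)).Δ = 1 := by
  have h1 : (EC om).Δ = om ^ 2 * (om - 2) ^ 2 := by
    simp only [WeierstrassCurve.Δ, WeierstrassCurve.b₂, WeierstrassCurve.b₄,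
      WeierstrassCurve.b₆, WeierstrassCurve.b₈]
    linear_combination (-128 * om ^ 3 - 92 * om ^ 2 - 16 * om + 80) * hom
  rw [WeierstrassCurve.baseChange, WeierstrassCurve.map_Δ, h1, map_mul, map_pow, map_pow, map_mul,
    map_pow, map_pow, tg1_om hom v, MP_1a91b9_nt.valued_algebraMap, h, one_pow, one_mul]

/-- JOB TG1. -/
theorem minModel_disc3 (hom : om ^ 2 + om + 1 = 0) (v : HeightOneSpectrum (𝓞 N))
    (h : v.valuation N (om - 2) = 1) : Valued.v (minModel (EC om) v).Δ = 1 := by
  obtain ⟨r, hr⟩ := Δ_integral_of_isIntegral (v.adicCompletionIntegers N) (minModel (EC om) v)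
  have hr' : (r : v.adicCompletion N) = (minModel (EC om) v).Δ := hr
  rw [← hr', ← tg1_val, hr]
  have hmax := (minModel_isMinimal (EC om) v).val_Δ_maximal
  have hinv : (minChange (EC om) v)⁻¹ • minModel (EC om) v =
      (EC om).baseChange (v.adicCompletion N) := by
    rw [minModel, inv_smul_smul]
  obtain ⟨W, hW⟩ := tg1_base hom v
  have hint : WeierstrassCurve.IsIntegral (v.adicCompletionIntegers N)
      ((EC om).baseChange (v.adicCompletion N)) := ⟨W, hW⟩
  have hv0 : (IsDiscreteValuationRing.maximalIdeal (v.adicCompletionIntegers N)).valuation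
      (v.adicCompletion N) ((EC om).baseChange (v.adicCompletion N)).Δ = 1 := by
    have h5 := tg1_disc hom v h
    rw [hW, WeierstrassCurve.baseChange, WeierstrassCurve.map_Δ] at h5 ⊢
    rw [tg1_val]
    exact h5
  have hle := hmax.2 (j := (minChange (EC om) v)⁻¹) (by simpa only [hinv] using hint)
  have htop : WeierstrassCurve.valuation_Δ_aux (v.adicCompletionIntegers N)
      ((minChange (EC om) v)⁻¹ • minModel (EC om) v) = ⟨1, le_refl _⟩ := by
    rw [hinv]
    apply Subtype.ext
    rw [WeierstrassCurve.valuation_Δ_aux_eq_of_isIntegral]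
    exact hv0
  have h1 : WeierstrassCurve.valuation_Δ_aux (v.adicCompletionIntegers N)
      ((1 : WeierstrassCurve.VariableChange (v.adicCompletion N)) • minModel (EC om) v) ≤
      WeierstrassCurve.valuation_Δ_aux (v.adicCompletionIntegers N)
        ((minChange (EC om) v)⁻¹ • minModel (EC om) v) := by
    rw [htop]
    exact (WeierstrassCurve.valuation_Δ_aux (v.adicCompletionIntegers N) _).2
  have h2 := hle h1
  simp only [htop, one_smul] at h2
  have h4 : (1 : WithZero (Multiplicative ℤ)) ≤
      (WeierstrassCurve.valuation_Δ_aux (v.adicCompletionIntegers N) (minModel (EC om) v) : _) := h2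
  rw [WeierstrassCurve.valuation_Δ_aux_eq_of_isIntegral] at h4
  refine le_antisymm ?_ h4
  rw [← hr]
  exact HeightOneSpectrum.valuation_le_one _ _

/-- JOB TG1. -/
theorem minChange_unit3 (hom : om ^ 2 + om + 1 = 0) (v : HeightOneSpectrum (𝓞 N))
    (h : v.valuation N (om - 2) = 1) :
    Valued.v ((minChange (EC om) v).u : v.adicCompletion N) = 1 := by
  have h1 : (minModel (EC om) v).Δ =
      (((minChange (EC om) v).u⁻¹ : (v.adicCompletion N)ˣ) : v.adicCompletion N) ^ 12 *
        ((EC om).baseChange (v.adicCompletion N)).Δ := by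
    rw [minModel, WeierstrassCurve.variableChange_Δ]
  have h2 := congrArg Valued.v h1
  rw [map_mul, map_pow, tg1_disc hom v h, minModel_disc3 hom v h, mul_one] at h2
  have h4 : Valued.v (((minChange (EC om) v).u⁻¹ : (v.adicCompletion N)ˣ) : v.adicCompletion N) = 1 :=
    (pow_eq_one_iff.mp h2.symm).resolve_right (by norm_num)
  have h5 := congrArg Valued.v (minChange (EC om) v).u.mul_inv
  rwa [map_mul, h4, mul_one, map_one] at h5

/-- A monic quadratic relation makes an element of the fraction field integral. -/
private theorem tg2_lift {R K : Type*} [CommRing R] [IsDomain R] [IsIntegrallyClosed R]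
    [Field K] [Algebra R K] [IsFractionRing R K] (x : K) (b c : R)
    (h : x ^ 2 + (algebraMap R K b * x + algebraMap R K c) = 0) :
    ∃ y : R, algebraMap R K y = x := by
  refine IsIntegrallyClosed.isIntegral_iff.mp
    ⟨Polynomial.X ^ 2 + (Polynomial.C b * Polynomial.X + Polynomial.C c), ?_, ?_⟩
  · refine Polynomial.monic_X_pow_add ?_
    compute_degree!
  · simpa using h

private theorem tg2_unit (v : HeightOneSpectrum (𝓞 N)) (r : v.adicCompletionIntegers N)
    (h : IsLocalRing.residue (v.adicCompletionIntegers N) r ≠ 0) :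
    Valued.v (r : v.adicCompletion N) = 1 := by
  rw [Ne, MP_1a91b9_nt.residue_eq_zero_iff_valued] at h
  exact le_antisymm r.2 (not_lt.1 h)

private theorem tg2_res (v : HeightOneSpectrum (𝓞 N)) (r : v.adicCompletionIntegers N)
    (h : Valued.v (r : v.adicCompletion N) ≠ 1) :
    IsLocalRing.residue (v.adicCompletionIntegers N) r = 0 := by
  by_contra h1
  exact h (tg2_unit v r h1)

/-- An integral point of an integral model with unit discriminant is non-singular mod `v`. -/
private theorem tg2_point (v : HeightOneSpectrum (𝓞 N))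
    (I : WeierstrassCurve (v.adicCompletionIntegers N))
    (hΔ : Valued.v (I.Δ : v.adicCompletion N) = 1) (X Y : v.adicCompletionIntegers N)
    (h : I.toAffine.Equation X Y) :
    Valued.v ((2 * Y + I.a₁ * X + I.a₃ : v.adicCompletionIntegers N) : v.adicCompletion N) = 1 ∨
      Valued.v ((3 * X ^ 2 + 2 * I.a₂ * X + I.a₄ - I.a₁ * Y : v.adicCompletionIntegers N) :
        v.adicCompletion N) = 1 := by
  by_contra hcon
  rw [not_or] at hcon
  have h1 := tg2_res v _ hcon.1
  have h2 := tg2_res v _ hcon.2
  have h3 := h.map (IsLocalRing.residue (v.adicCompletionIntegers N))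
  have h4 : (I.map (IsLocalRing.residue (v.adicCompletionIntegers N))).Δ ≠ 0 := by
    rw [WeierstrassCurve.map_Δ, Ne, MP_1a91b9_nt.residue_eq_zero_iff_valued, hΔ]
    exact lt_irrefl 1
  rw [WeierstrassCurve.Affine.equation_iff_nonsingular_of_Δ_ne_zero h4,
    WeierstrassCurve.Affine.nonsingular_iff'] at h3
  rcases h3.2 with h5 | h5
  · apply h5
    simp only [WeierstrassCurve.map_a₁, WeierstrassCurve.map_a₂, WeierstrassCurve.map_a₄]
    simp only [map_add, map_sub, map_mul, map_pow, map_ofNat] at h2
    linear_combination -h2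
  · apply h5
    simp only [WeierstrassCurve.map_a₁, WeierstrassCurve.map_a₃]
    simp only [map_add, map_mul, map_ofNat] at h1
    linear_combination h1

/-- JOB TG2. -/
theorem tam_good3 (hom : om ^ 2 + om + 1 = 0) (v : HeightOneSpectrum (𝓞 N))
    (h : v.valuation N (om - 2) = 1) : tam (EC om) v = 1 := by
  have htop : nonsing (EC om) v = ⊤ := by
    rw [eq_top_iff]
    rintro P -
    apply AddSubgroup.subset_closure
    rcases P with _ | ⟨x, y, hp⟩
    · exact Or.inl rfl
    · refine Or.inr ⟨x, y, hp, rfl, ?_⟩
      by_cases hx : 1 < Valued.v x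
      · exact Or.inl hx
      refine Or.inr ?_
      obtain ⟨I, hI⟩ : ∃ I : WeierstrassCurve (v.adicCompletionIntegers N),
          minModel (EC om) v = I.baseChange (v.adicCompletion N) :=
        (inferInstance : WeierstrassCurve.IsIntegral (v.adicCompletionIntegers N)
          (minModel (EC om) v)).integral
      have hinj : Function.Injective
          (algebraMap (v.adicCompletionIntegers N) (v.adicCompletion N)) :=
        IsFractionRing.injective _ _
      have hΔ : Valued.v (I.Δ : v.adicCompletion N) = 1 := by
        have h1 := minModel_disc3 hom v h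
        rw [hI, WeierstrassCurve.baseChange, WeierstrassCurve.map_Δ] at h1
        exact h1
      obtain ⟨X, hX⟩ : ∃ X : v.adicCompletionIntegers N,
          algebraMap (v.adicCompletionIntegers N) (v.adicCompletion N) X = x :=
        ⟨⟨x, not_lt.1 hx⟩, rfl⟩
      have he := hp.1
      rw [WeierstrassCurve.Affine.equation_iff'] at he
      have ha1 : (minModel (EC om) v).a₁ =
        algebraMap (v.adicCompletionIntegers N) (v.adicCompletion N) I.a₁ := by rw [hI]; rfl
      have ha2 : (minModel (EC om) v).a₂ =
        algebraMap (v.adicCompletionIntegers N) (v.adicCompletion N) I.a₂ := by rw [hI]; rfl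
      have ha3 : (minModel (EC om) v).a₃ =
        algebraMap (v.adicCompletionIntegers N) (v.adicCompletion N) I.a₃ := by rw [hI]; rfl
      have ha4 : (minModel (EC om) v).a₄ =
        algebraMap (v.adicCompletionIntegers N) (v.adicCompletion N) I.a₄ := by rw [hI]; rfl
      have ha6 : (minModel (EC om) v).a₆ =
        algebraMap (v.adicCompletionIntegers N) (v.adicCompletion N) I.a₆ := by rw [hI]; rfl
      rw [ha1, ha2, ha3, ha4, ha6, ← hX] at he
      obtain ⟨Y, hY⟩ := tg2_lift (R := v.adicCompletionIntegers N) y (I.a₁ * X + I.a₃)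
        (-(X ^ 3 + I.a₂ * X ^ 2 + I.a₄ * X + I.a₆)) (by
          simp only [map_neg, map_add, map_mul, map_pow]
          linear_combination he)
      have hE : I.toAffine.Equation X Y := by
        rw [← WeierstrassCurve.Affine.map_equation _ hinj,
          WeierstrassCurve.Affine.equation_iff', hY]
        exact he
      have hres := tg2_point v I hΔ X Y hE
      have e1 : 2 * y + (minModel (EC om) v).a₁ * x + (minModel (EC om) v).a₃ =
          algebraMap (v.adicCompletionIntegers N) (v.adicCompletion N)
            (2 * Y + I.a₁ * X + I.a₃) := by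
        rw [ha1, ha3, ← hX, ← hY]
        simp only [map_add, map_mul, map_ofNat]
      have e2 : 3 * x ^ 2 + 2 * (minModel (EC om) v).a₂ * x + (minModel (EC om) v).a₄ -
          (minModel (EC om) v).a₁ * y =
          algebraMap (v.adicCompletionIntegers N) (v.adicCompletion N)
            (3 * X ^ 2 + 2 * I.a₂ * X + I.a₄ - I.a₁ * Y) := by
        rw [ha1, ha2, ha4, ← hX, ← hY]
        simp only [map_add, map_sub, map_mul, map_pow, map_ofNat]
      rw [e1, e2]
      exact hres
  rw [tam, htop, AddSubgroup.index_top]

end Pool.Agent.Lib.MP_1a91b9_ntT3.S9
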