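import Pool.Agent.Lib.MP_1a91b9_ntT.P.Unit
import Pool.Agent.Lib.MP_1a91b9_ntT3.S9.Tg

/-!
# JOB NF: the finite part of the period is a unit above 3

See `Pool/Agent/Lib/MP_1a91b9_ntT/S9/Nf.lean` (`absNorm_odd`, `val_normFactor`, `val_finprod`).
`A` is a valuation ring of `ℂ` with `1/3 ∉ A`; an integer prime to `3` has valuation `1`
(`val_coprime` of `Pool/Agent/Lib/MP_1a91b9_ntG/Vals.lean` or prove it: Bezout). If `v(om - 2) = 1`:
`minChange_unit3`, `normFactor = 1`. If `v(om - 2) < 1`: `7 = (om - 2) (om² - 2)` is in `v`, the norm of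
`v` divides a power of `7`.
-/

set_option autoImplicit false

namespace Pool.Agent.Lib.MP_1a91b9_ntT3.S9

open NumberField IsDedekindDomain WeierstrassCurve S5
open Pool.Agent.Lib.MP_1a91b9_ntT.S9
open scoped Classical

variable {N : Type*} [Field N] [NumberField N] {om : N} {A : ValuationSubring ℂ}

theorem val_nat3 (hA : ((3 : ℕ) : ℂ)⁻¹ ∉ A) {n : ℕ} (hn : n.Coprime 3) :
    A.valuation (n : ℂ) = 1 := by
  have h3 : A.valuation (3 : ℂ) < 1 := by
    have h1 : A.valuation (3 : ℂ) ≤ 1 := by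
      have h2 : ((3 : ℕ) : ℂ) ∈ A := natCast_mem A 3
      have h4 := (A.valuation_le_one_iff _).2 h2
      simpa using h4
    refine lt_of_le_of_ne h1 fun h2 => hA ?_
    rw [← A.valuation_le_one_iff, map_inv₀]
    have h4 : A.valuation ((3 : ℕ) : ℂ) = 1 := by simpa using h2
    rw [h4, inv_one]
  have hn1 : A.valuation (n : ℂ) ≤ 1 := (A.valuation_le_one_iff _).2 (natCast_mem A n)
  have hb : ((n : ℤ)) * Nat.gcdA n 3 + 3 * Nat.gcdB n 3 = 1 := by
    have h5 := Nat.gcd_eq_gcd_ab n 3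
    rw [hn] at h5
    push_cast at h5
    exact h5.symm
  have hc : (n : ℂ) * (Nat.gcdA n 3 : ℂ) + 3 * (Nat.gcdB n 3 : ℂ) = 1 := by
    have h6 := congrArg (fun z : ℤ => (z : ℂ)) hb
    push_cast at h6
    exact h6
  have hga : A.valuation (Nat.gcdA n 3 : ℂ) ≤ 1 :=
    (A.valuation_le_one_iff _).2 (intCast_mem A _)
  have hgb : A.valuation (Nat.gcdB n 3 : ℂ) ≤ 1 :=
    (A.valuation_le_one_iff _).2 (intCast_mem A _)
  by_contra hne
  have hlt : A.valuation (n : ℂ) < 1 := lt_of_le_of_ne hn1 hne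
  have h7 : A.valuation ((n : ℂ) * (Nat.gcdA n 3 : ℂ) + 3 * (Nat.gcdB n 3 : ℂ)) < 1 := by
    refine A.valuation.map_add_lt ?_ ?_
    · rw [map_mul]
      exact (mul_le_of_le_one_right' hga).trans_lt hlt
    · rw [map_mul]
      exact (mul_le_of_le_one_right' hgb).trans_lt h3
  rw [hc, map_one] at h7
  exact lt_irrefl _ h7

private theorem nf_om_int (hom : om ^ 2 + om + 1 = 0) : IsIntegral ℤ om := by
  refine ⟨Polynomial.X ^ 2 + Polynomial.X + 1, ?_, ?_⟩
  · monicity!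
  · simp only [Polynomial.eval₂_add, Polynomial.eval₂_pow, Polynomial.eval₂_X,
      Polynomial.eval₂_one]
    exact hom

private theorem nf_absNorm (v : HeightOneSpectrum (𝓞 N)) (h7 : v.valuation N 7 < 1) :
    (Ideal.absNorm v.asIdeal).Coprime 3 := by
  have h1 : (7 : 𝓞 N) ∈ v.asIdeal := by
    have e : v.valuation N (algebraMap (𝓞 N) N 7) < 1 := by
      rwa [map_ofNat]
    exact (v.valuation_lt_one_iff_mem (K := N) 7).1 e
  have h2 : Ideal.absNorm v.asIdeal ∣ Ideal.absNorm (Ideal.span {(7 : 𝓞 N)}) :=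
    Ideal.absNorm_dvd_absNorm_of_le ((Ideal.span_singleton_le_iff_mem _).2 h1)
  rw [Ideal.absNorm_span_singleton] at h2
  have h4 : (Algebra.norm ℤ (7 : 𝓞 N)).natAbs = 7 ^ Module.finrank ℤ (𝓞 N) := by
    have e : (7 : 𝓞 N) = algebraMap ℤ (𝓞 N) 7 := by simp
    rw [e, Algebra.norm_algebraMap, Int.natAbs_pow]
    rfl
  rw [h4] at h2
  exact Nat.Coprime.coprime_dvd_left h2 (Nat.Coprime.pow_left _ (by norm_num))

theorem val_normFactor3 (hom : om ^ 2 + om + 1 = 0) (hA : ((3 : ℕ) : ℂ)⁻¹ ∉ A)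
    (v : HeightOneSpectrum (𝓞 N)) : A.valuation ((normFactor (EC om) v : ℝ) : ℂ) = 1 := by
  obtain ⟨o, ho⟩ : ∃ o : 𝓞 N, (o : N) = om := ⟨⟨om, nf_om_int hom⟩, rfl⟩
  have hle : v.valuation N (om - 2) ≤ 1 := by
    have h1 := v.valuation_le_one (K := N) (o - 2)
    have e : (((o - 2 : 𝓞 N)) : N) = om - 2 := by rw [← ho]; rfl
    rw [← e]
    exact h1
  have hle2 : v.valuation N (om ^ 2 - 2) ≤ 1 := by
    have h1 := v.valuation_le_one (K := N) (o ^ 2 - 2)
    have e : (((o ^ 2 - 2 : 𝓞 N)) : N) = om ^ 2 - 2 := by rw [← ho]; rfl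
    rw [← e]
    exact h1
  rcases hle.lt_or_eq with h | h
  · have h7 : v.valuation N 7 < 1 := by
      have e : (7 : N) = (om - 2) * (om ^ 2 - 2) := by
        linear_combination (-(om - 3)) * hom
      rw [e, map_mul]
      exact (mul_le_of_le_one_right' hle2).trans_lt h
    rw [normFactor, Complex.ofReal_zpow, map_zpow₀]
    have e : (((Ideal.absNorm v.asIdeal : ℕ) : ℝ) : ℂ) = ((Ideal.absNorm v.asIdeal : ℕ) : ℂ) := by
      push_cast; rfl
    rw [e, val_nat3 hA (nf_absNorm v h7), one_zpow]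
  · rw [normFactor, minChange_unit3 hom v h, WithZero.log_one, neg_zero, zpow_zero,
      Complex.ofReal_one, map_one]

theorem val_finprod3 (hom : om ^ 2 + om + 1 = 0) (hA : ((3 : ℕ) : ℂ)⁻¹ ∉ A) :
    A.valuation ((∏ᶠ v : HeightOneSpectrum (𝓞 N), normFactor (EC om) v : ℝ) : ℂ) = 1 := by
  refine finprod_induction (p := fun x : ℝ => A.valuation (x : ℂ) = 1) ?_ ?_ ?_
  · rw [Complex.ofReal_one, map_one]
  · intro x y hx hy
    rw [Complex.ofReal_mul, map_mul, hx, hy, one_mul]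
  · exact fun v => val_normFactor3 hom hA v

end Pool.Agent.Lib.MP_1a91b9_ntT3.S9
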