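import Pool.Agent.Lib.MP_1a91b9_ntT3.S9.Pa

/-!
# JOB PB: the infinite part of the period

`N` contains a primitive cube root of unity `om`, so it has no real place (`om` would be a real root
of `x² + x + 1`), the number of infinite places is half the degree
(`NumberField.InfinitePlace.card_add_two_mul_card_eq_rank`, `card_eq_nrRealPlaces_add_nrComplexPlaces`),
and at each place `perAt (EC om) v = 2 perC (EC (σ om))` (`EC` is compatible with `map`), see `perAt_E`,
`prod_perAt` of `Pool/Agent/Lib/MP_1a91b9_ntT/P/Unit.lean`.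
-/

set_option autoImplicit false

namespace Pool.Agent.Lib.MP_1a91b9_ntT3.S9

open NumberField Pool.Agent.Lib.MP_1a91b9_ntT Pool.Agent.Lib.MP_1a91b9_ntT.Per

variable {N : Type*} [Field N] [NumberField N] {om : N}

theorem pb_not_real (hom : om ^ 2 + om + 1 = 0) (v : InfinitePlace N) : ¬ v.IsReal := by
  intro h
  have h1 := congrArg (InfinitePlace.embedding_of_isReal h) hom
  rw [map_add, map_add, map_pow, map_one, map_zero] at h1
  nlinarith [sq_nonneg (2 * (InfinitePlace.embedding_of_isReal h) om + 1)]

theorem card_places (hom : om ^ 2 + om + 1 = 0) :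
    Module.finrank ℚ N = 2 * Fintype.card (InfinitePlace N) := by
  rw [← InfinitePlace.sum_mult_eq (K := N)]
  have h : ∀ v ∈ (Finset.univ : Finset (InfinitePlace N)), v.mult = 2 := by
    intro v _
    rw [InfinitePlace.mult, if_neg (pb_not_real hom v)]
  rw [Finset.sum_congr rfl h, Finset.sum_const, Finset.card_univ, smul_eq_mul, mul_comm]

theorem pb_map (f : N →+* ℂ) : (S5.EC om).map f = S5.EC (f om) := by
  simp [S5.EC, WeierstrassCurve.map, map_ofNat f 2]

theorem perAt_E49 (hom : om ^ 2 + om + 1 = 0) (v : InfinitePlace N) :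
    perAt (S5.EC om) v = Real.sqrt 3 * ‖Om‖ ^ 2 / t7 := by
  rw [perAt, dif_neg (pb_not_real hom v), pb_map, perC_E49]
  · ring
  · have h1 := congrArg v.embedding hom
    rw [map_add, map_add, map_pow, map_one, map_zero] at h1
    exact h1

theorem prod_perAt3 (hom : om ^ 2 + om + 1 = 0) :
    ∏ v : InfinitePlace N, perAt (S5.EC om) v =
      (Real.sqrt 3 * ‖Om‖ ^ 2 / t7) ^ Fintype.card (InfinitePlace N) := by
  simp only [perAt_E49 hom]
  rw [Finset.prod_const, Finset.card_univ]

end Pool.Agent.Lib.MP_1a91b9_ntT3.S9
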