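import Pool.Agent.Lib.MP_1a91b9_ntT3.S9.Mu

/-!
# JOB TQ: the kernel of `1 - ω`

`tq h e he` is the point `X = 0`, `Y = e` (`X = x + (1 + 2 z) / 3`, `Y = y + z / 2`). A point `(x, y)`
with `3 x + (1 + 2 z) = 0` has `(y + z / 2)² = (-5 - z) / 36` (equation), so `e = y + z / 2` works;
given one `e₀` with `36 e₀² = - 5 - z`, `e = ± e₀`. `omP` fixes `tq` (`omP_fixed`), so `mu` kills it,
and `om_sum` gives `3 tq = 0`. `e ≠ 0` (`z ≠ -5`: `25 - 5 + 1 = 21 ≠ 0`). `1`, `z`, `z²` are distinct
(`z = 1` would give `3 = 0`), `z³ = 1`. `ch` is the character of the group `{0, T, -T}` with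
`ch T = z²`: `ch_add` by the nine cases (`T + T = - T`, `- T - T = T`, `T ≠ 0`, `T ≠ - T`).
-/

set_option autoImplicit false

namespace Pool.Agent.Lib.MP_1a91b9_ntT3.S9

open WeierstrassCurve Pool.Agent.Lib.MP_1a91b9_ntT.S9
open scoped Classical

variable {F : Type*} [Field F] [CharZero F] {W : Affine F} {z : F}

theorem IsE.e_ne (h : IsE W z) {e : F} (he : 36 * e ^ 2 = -5 - z) : e ≠ 0 := by
  rintro rfl
  have hz := h.hz
  have h21 : (21 : F) = 0 := by linear_combination hz - (z - 4) * he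
  norm_num at h21

private theorem tq_z1 (h : IsE W z) : z ≠ 1 := by
  rintro rfl
  have hz := h.hz
  norm_num at hz

private theorem tq_z3 (h : IsE W z) : z ^ 3 = 1 := by
  linear_combination (z - 1) * h.hz

private theorem tq_z0 (h : IsE W z) : z ≠ 0 := by
  rintro rfl
  have hz := h.hz
  norm_num at hz

private theorem tq_z21 (h : IsE W z) : z ^ 2 ≠ 1 := by
  intro h2
  apply tq_z1 h
  have := tq_z3 h
  linear_combination this - z * h2

private theorem tq_z22 (h : IsE W z) : z ^ 2 ≠ z := by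
  intro h2
  apply tq_z1 h
  exact mul_left_cancel₀ (tq_z0 h) (by linear_combination h2)

theorem tq_ne (h : IsE W z) (e : F) (he : 36 * e ^ 2 = -5 - z) : tq h e he ≠ 0 := by
  unfold tq
  exact Affine.Point.some_ne_zero _

theorem tq_inj (h : IsE W z) (e e' : F) (he : 36 * e ^ 2 = -5 - z) (he' : 36 * e' ^ 2 = -5 - z) :
    tq h e he = tq h e' he' ↔ e = e' := by
  unfold tq
  rw [Affine.Point.some.injEq]
  constructor
  · rintro ⟨-, h2⟩
    linear_combination h2
  · rintro rfl
    exact ⟨rfl, rfl⟩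

theorem tq_neg (h : IsE W z) (e e' : F) (he : 36 * e ^ 2 = -5 - z) (he' : 36 * e' ^ 2 = -5 - z)
    (hee : e' = -e) : -tq h e he = tq h e' he' := by
  unfold tq
  rw [Affine.Point.neg_some, Affine.Point.some.injEq]
  refine ⟨rfl, ?_⟩
  subst hee
  have h1 : W.a₁ = 0 := by rw [h.eq]
  have h3 : W.a₃ = z := by rw [h.eq]
  rw [Affine.negY, h1, h3]
  ring

theorem mu_tq (h : IsE W z) (e : F) (he : 36 * e ^ 2 = -5 - z) : mu h (tq h e he) = 0 := by
  rw [mu_apply, sub_eq_zero]
  symm
  unfold tq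
  rw [omP_fixed]
  ring

theorem tq_add_self (h : IsE W z) (e : F) (he : 36 * e ^ 2 = -5 - z) :
    tq h e he + tq h e he = -tq h e he := by
  have h1 := mu_tq h e he
  rw [mu_apply, sub_eq_zero] at h1
  have h2 := om_sum h (tq h e he)
  rw [← h1, ← h1] at h2
  exact eq_neg_of_add_eq_zero_left h2

theorem mu_ker (h : IsE W z) (P : W.Point) (hP : mu h P = 0) (h0 : P ≠ 0) :
    ∃ (e : F) (he : 36 * e ^ 2 = -5 - z), P = tq h e he := by
  rcases mu_zero h P hP with h1 | ⟨x, y, hn, rfl, hx⟩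
  · exact absurd h1 h0
  · have hx' : x = -(1 + 2 * z) / 3 := by linear_combination (1 / 3 : F) * hx
    have heq := (h.nons x y).1 hn
    refine ⟨y + z / 2, ?_, ?_⟩
    · rw [hx'] at heq
      linear_combination (36 : F) * heq + (-36 * (-1 / 4 - 8 / 27 * (1 + 2 * z))) * h.hz
    · unfold tq
      rw [Affine.Point.some.injEq]
      exact ⟨hx', by ring⟩

theorem mu_ker_all (h : IsE W z) (e : F) (he : 36 * e ^ 2 = -5 - z) (P : W.Point)
    (hP : mu h P = 0) : P = 0 ∨ P = tq h e he ∨ P = -tq h e he := by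
  by_cases h0 : P = 0
  · exact Or.inl h0
  · right
    obtain ⟨e', he', rfl⟩ := mu_ker h P hP h0
    have hm : (e' - e) * (e' + e) = 0 := by
      linear_combination (1 / 36 : F) * he' - (1 / 36 : F) * he
    rcases mul_eq_zero.1 hm with h1 | h1
    · left
      rw [tq_inj]
      exact sub_eq_zero.1 h1
    · right
      have h2 : e' = -e := eq_neg_of_add_eq_zero_left h1
      exact (tq_neg h e e' he he' h2).symm

/-- The character of the kernel of `1 - ω` with `ch T = z²`, `T = tq h e he`. -/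
noncomputable def ch (h : IsE W z) (e : F) (he : 36 * e ^ 2 = -5 - z) (P : W.Point) : F :=
  if P = 0 then 1 else if P = tq h e he then z ^ 2 else z

theorem ch_zero (h : IsE W z) (e : F) (he : 36 * e ^ 2 = -5 - z) : ch h e he 0 = 1 := by
  unfold ch
  rw [if_pos rfl]

private theorem tq_ch_tq (h : IsE W z) (e : F) (he : 36 * e ^ 2 = -5 - z) :
    ch h e he (tq h e he) = z ^ 2 := by
  unfold ch
  rw [if_neg (tq_ne h e he), if_pos rfl]

private theorem tq_ne_neg (h : IsE W z) (e : F) (he : 36 * e ^ 2 = -5 - z) :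
    -tq h e he ≠ tq h e he := by
  have he' : 36 * (-e) ^ 2 = -5 - z := by rw [neg_sq]; exact he
  rw [tq_neg h e (-e) he he' rfl]
  intro h1
  rw [tq_inj] at h1
  have h2 : (2 : F) * e = 0 := by linear_combination -h1
  rcases mul_eq_zero.1 h2 with h3 | h3
  · norm_num at h3
  · exact h.e_ne he h3

private theorem tq_ch_neg (h : IsE W z) (e : F) (he : 36 * e ^ 2 = -5 - z) :
    ch h e he (-tq h e he) = z := by
  unfold ch
  rw [if_neg (neg_ne_zero.2 (tq_ne h e he)), if_neg (tq_ne_neg h e he)]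

theorem ch_add (h : IsE W z) (e : F) (he : 36 * e ^ 2 = -5 - z) (P Q : W.Point)
    (hP : mu h P = 0) (hQ : mu h Q = 0) : ch h e he (P + Q) = ch h e he P * ch h e he Q := by
  have h3 := tq_z3 h
  have hself := tq_add_self h e he
  have hneg : -tq h e he + -tq h e he = tq h e he := by
    rw [← neg_add, hself, neg_neg]
  rcases mu_ker_all h e he P hP with rfl | rfl | rfl
  · rw [zero_add, ch_zero, one_mul]
  · rcases mu_ker_all h e he Q hQ with rfl | rfl | rfl
    · rw [add_zero, ch_zero, mul_one]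
    · rw [hself, tq_ch_neg, tq_ch_tq]
      linear_combination -z * h3
    · rw [add_neg_cancel, ch_zero, tq_ch_neg, tq_ch_tq]
      linear_combination -h3
  · rcases mu_ker_all h e he Q hQ with rfl | rfl | rfl
    · rw [add_zero, ch_zero, mul_one]
    · rw [neg_add_cancel, ch_zero, tq_ch_neg, tq_ch_tq]
      linear_combination -h3
    · rw [hneg, tq_ch_neg, tq_ch_tq]
      ring

theorem ch_cube (h : IsE W z) (e : F) (he : 36 * e ^ 2 = -5 - z) (P : W.Point) :
    ch h e he P ^ 3 = 1 := by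
  have h3 := tq_z3 h
  unfold ch
  split_ifs
  · exact one_pow 3
  · linear_combination (z ^ 3 + 1) * h3
  · exact h3

theorem ch_eq_one (h : IsE W z) (e : F) (he : 36 * e ^ 2 = -5 - z) (P : W.Point)
    (hP : ch h e he P = 1) : P = 0 := by
  unfold ch at hP
  split_ifs at hP with h1 h2
  · exact h1
  · exact absurd hP (tq_z21 h)
  · exact absurd hP (tq_z1 h)

/-- The value of `ch` is `1`, `z` or `z²`. -/
theorem ch_cases (h : IsE W z) (e : F) (he : 36 * e ^ 2 = -5 - z) (P : W.Point) :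
    ch h e he P = 1 ∨ ch h e he P = z ∨ ch h e he P = z ^ 2 := by
  unfold ch
  split_ifs
  · exact Or.inl rfl
  · exact Or.inr (Or.inr rfl)
  · exact Or.inr (Or.inl rfl)

end Pool.Agent.Lib.MP_1a91b9_ntT3.S9
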