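import Pool.Agent.Lib.MP_1a91b9_ntT3.S5.MainA
import Pool.Agent.Lib.MP_1a91b9_ntT3.S9.Tq

/-!
# JOB PT: the number of points is prime to three

The group is finite (`Good.finite`). If `3` divides the order there is an element `P` of order 3
(`exists_prime_addOrderOf_dvd_card`). `mu (mu P) = - 3 ω P = 0`. A point `Q` with `mu Q = 0` is `0`:
otherwise (`mu_ker`) there is `e ∈ N` with `36 e² = - 5 - om`, i.e. `(6 e)² = - 5 - om`,
impossible by `not_sq` (`S5/ExistA.lean`). So `mu P = 0` and `P = 0`, contradiction.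
-/

set_option autoImplicit false

namespace Pool.Agent.Lib.MP_1a91b9_ntT3.S9

open WeierstrassCurve NumberField IsDedekindDomain S5
open scoped Classical

universe u

theorem pt_mu_inj {N : Type u} [Field N] [NumberField N] {om : N} (hG : Good N om)
    (h : IsE (EC om).toAffine om) (Q : (EC om).toAffine.Point) (hQ : mu h Q = 0) : Q = 0 := by
  by_contra h0
  obtain ⟨e, he, _⟩ := mu_ker h Q hQ h0
  refine not_sq N hG.hom hG.unr (6 * e) ?_
  linear_combination he

theorem card_points3 {N : Type u} [Field N] [NumberField N] {om : N} (hG : Good N om) :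
    Finite (EC om).toAffine.Point ∧ (Nat.card (EC om).toAffine.Point).Coprime 3 := by
  have hfin : Finite (EC om).toAffine.Point := hG.finite
  refine ⟨hfin, ?_⟩
  have h : IsE (EC om).toAffine om := ⟨rfl, hG.hom⟩
  refine Nat.Coprime.symm ((Nat.Prime.coprime_iff_not_dvd Nat.prime_three).2 fun hdvd => ?_)
  have : Fact (Nat.Prime 3) := ⟨Nat.prime_three⟩
  obtain ⟨P, hP⟩ := exists_prime_addOrderOf_dvd_card' 3 hdvd
  have h3 : 3 • P = 0 := by
    rw [← hP]
    exact addOrderOf_nsmul_eq_zero P
  have h1 : mu h (mu h P) = 0 := by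
    rw [mu_mu, ← map_nsmul, h3, map_zero, neg_zero]
  have h4 : P = 0 := pt_mu_inj hG h P (pt_mu_inj hG h _ h1)
  rw [h4, addOrderOf_zero] at hP
  omega

end Pool.Agent.Lib.MP_1a91b9_ntT3.S9
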