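import Pool.Agent.Lib.MP_1a91b9_ntT3.S9.Cfa

/-!
# JOB EM: divisibility by `1 - ω`

`Q = (x, y)`, `X' = x + (1 + 2 z) / 3`, `Y' = y + z / 2`, `Y'² = X'³ + e²`, `l = 1 + 2 z`, `l² = -3`.
Let `r³ = Y' - e`, `r ≠ 0`, and `r' = z X' / r`: `r'³ = X'³ / (Y' - e) = Y' + e`,
`r³ - r'³ = - 2 e ≠ 0`, so `r ≠ r'`. Put `X = 2 e / (r - r')`, `Y = l e (r + r') / (r - r')`. Then
`Y² = X³ + e²` (as `- 3 (r + r')² - (r - r')² = - 4 (r² + r r' + r'²)` and
`(r - r') (r² + r r' + r'²) = - 2 e`), `P = (X, Y)` (i.e. `x = X - l / 3`, `y = Y - z / 2`), `X ≠ 0`, and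
by `mu_some`: `X(mu P) = X'`, `Y(mu P) = Y'`. (For `Y(mu P)`: `cfn_cube` gives
`Y(mu P) - e = ((Y + l e) / (l X))³ = r³ = Y' - e`, so `Y(mu P) = Y'`. For `X(mu P)`:
`- (X³ + 4 e²) / (3 X²) = (Y² + 3 e²) / (- 3 X²) = r r' = z X'`, so
`X(mu P) = z² (z X') = X'`.)
Closed field: `Q = 0`: `P = 0`. `Q = (x, y)`: if `Y' ≠ e` take a cube root `r ≠ 0`; if `Y' = e` then
`- Q` has `Y = - e ≠ e`, use `- Q` and `mu (- P) = - mu P`. (`e`: a square root of
`(-5 - z) / 36`.)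
-/

set_option autoImplicit false

namespace Pool.Agent.Lib.MP_1a91b9_ntT3.S9

open WeierstrassCurve Pool.Agent.Lib.MP_1a91b9_ntT.S9
open scoped Classical

variable {F : Type*} [Field F] [CharZero F] {W : Affine F} {z : F}

private theorem EM_l_ne (h : IsE W z) : (1 + 2 * z : F) ≠ 0 := by
  intro hl
  have h3 : (3 : F) = 0 := by linear_combination 4 * h.hz - (1 + 2 * z) * hl
  norm_num at h3

private theorem EM_z_ne (h : IsE W z) : z ≠ 0 := by
  intro hz
  have h1 := h.hz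
  rw [hz] at h1
  norm_num at h1

private theorem EM_curve (h : IsE W z) (e : F) (he : 36 * e ^ 2 = -5 - z) (x y : F) :
    y ^ 2 + z * y = x ^ 3 + (1 + 2 * z) * x ^ 2 - x ↔
    (y + z / 2) ^ 2 = (x + (1 + 2 * z) / 3) ^ 3 + e ^ 2 := by
  constructor
  · intro h1
    linear_combination h1 - (1 / 36 : F) * he +
      (1 / 4 - 4 / 3 * x - 4 / 27 * (1 + 2 * z)) * h.hz
  · intro h1
    linear_combination h1 + (1 / 36 : F) * he -
      (1 / 4 - 4 / 3 * x - 4 / 27 * (1 + 2 * z)) * h.hz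

theorem exists_mu (h : IsE W z) (e : F) (he : 36 * e ^ 2 = -5 - z) {x y : F}
    (hn : W.Nonsingular x y) (r : F) (hr : r ^ 3 = y + z / 2 - e) (hr0 : r ≠ 0) :
    ∃ P : W.Point, mu h P = .some x y hn := by
  have hz := h.hz
  have hz0 := EM_z_ne h
  have hl := EM_l_ne h
  have he0 := h.e_ne he
  have h2 : (2 : F) ≠ 0 := two_ne_zero
  have hz3 : z ^ 3 = 1 := by linear_combination (z - 1) * hz
  have hc := (EM_curve h e he x y).1 ((h.nons x y).1 hn)
  obtain ⟨X', hX'⟩ : ∃ X', X' = x + (1 + 2 * z) / 3 := ⟨_, rfl⟩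
  obtain ⟨Y', hY'⟩ : ∃ Y', Y' = y + z / 2 := ⟨_, rfl⟩
  rw [← hX', ← hY'] at hc
  rw [← hY'] at hr
  obtain ⟨r', hr'⟩ : ∃ r', r' = z * X' / r := ⟨_, rfl⟩
  have hrr : r' * r = z * X' := by rw [hr', div_mul_cancel₀ _ hr0]
  have hr3 : r' ^ 3 = Y' + e := by
    have h3 : r' ^ 3 * r ^ 3 = (Y' + e) * r ^ 3 := by
      rw [← mul_pow, hrr, hr]
      linear_combination X' ^ 3 * hz3 - hc
    exact mul_right_cancel₀ (pow_ne_zero 3 hr0) h3
  have hd3 : (r - r') * (r ^ 2 + r * r' + r' ^ 2) = -2 * e := by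
    linear_combination hr - hr3
  have hd : r - r' ≠ 0 := by
    intro h0
    rw [h0, zero_mul] at hd3
    exact (mul_ne_zero h2 he0) (by linear_combination hd3)
  obtain ⟨X, hX⟩ : ∃ X, X = 2 * e / (r - r') := ⟨_, rfl⟩
  obtain ⟨Y, hY⟩ : ∃ Y, Y = (1 + 2 * z) * e * (r + r') / (r - r') := ⟨_, rfl⟩
  have hXd : X * (r - r') = 2 * e := by rw [hX, div_mul_cancel₀ _ hd]
  have hYd : Y * (r - r') = (1 + 2 * z) * e * (r + r') := by rw [hY, div_mul_cancel₀ _ hd]
  have hX0 : X ≠ 0 := by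
    rw [hX]
    exact div_ne_zero (mul_ne_zero h2 he0) hd
  have hXY : Y ^ 2 = X ^ 3 + e ^ 2 := by
    have h3 : Y ^ 2 * (r - r') ^ 3 = (X ^ 3 + e ^ 2) * (r - r') ^ 3 := by
      have e1 : Y ^ 2 * (r - r') ^ 3 = ((1 + 2 * z) * e * (r + r')) ^ 2 * (r - r') := by
        rw [← hYd]
        ring
      have e2 : (X ^ 3 + e ^ 2) * (r - r') ^ 3 = (2 * e) ^ 3 + e ^ 2 * (r - r') ^ 3 := by
        rw [← hXd]
        ring
      rw [e1, e2]
      linear_combination (-4 * e ^ 2) * hd3 + 4 * e ^ 2 * (r + r') ^ 2 * (r - r') * hz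
    exact mul_right_cancel₀ (pow_ne_zero 3 hd) h3
  have hns : W.Nonsingular (X - (1 + 2 * z) / 3) (Y - z / 2) := by
    refine (h.nons _ _).2 ((EM_curve h e he _ _).2 ?_)
    rw [sub_add_cancel, sub_add_cancel]
    exact hXY
  refine ⟨.some (X - (1 + 2 * z) / 3) (Y - z / 2) hns, ?_⟩
  obtain ⟨x', y', hn', e1, e2, -⟩ := mu_some h hns (by rw [sub_add_cancel]; exact hX0)
  rw [sub_add_cancel] at e2
  have e3 := cfn_cube h e he _ hn' e1
  have e4 : cfn z e (.some (X - (1 + 2 * z) / 3) (Y - z / 2) hns : W.Point) = r := by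
    change ((Y - z / 2 + z / 2) + (1 + 2 * z) * e) /
      ((1 + 2 * z) * (X - (1 + 2 * z) / 3 + (1 + 2 * z) / 3)) = r
    rw [sub_add_cancel, sub_add_cancel, div_eq_iff (mul_ne_zero hl hX0)]
    refine mul_right_cancel₀ hd ?_
    linear_combination hYd - (1 + 2 * z) * r * hXd
  rw [e4, hr] at e3
  have ey : y' = y := by linear_combination hY' - e3
  have ex : x' = x := by
    have h4 : x' + (1 + 2 * z) / 3 = X' := by
      rw [e2, div_eq_iff (mul_ne_zero (mul_ne_zero three_ne_zero hz0) (pow_ne_zero 2 hX0))]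
      refine mul_right_cancel₀ (pow_ne_zero 2 hd) ?_
      have e5 : -(X ^ 3 + (-5 - z) / 9) * (r - r') ^ 2 =
          -(((1 + 2 * z) * e * (r + r')) ^ 2 + 3 * e ^ 2 * (r - r') ^ 2) := by
        rw [← hYd]
        linear_combination (r - r') ^ 2 * hXY + (1 / 9 : F) * (r - r') ^ 2 * he
      have e6 : X' * (3 * z * X ^ 2) * (r - r') ^ 2 = 3 * (r' * r) * (2 * e) ^ 2 := by
        rw [hrr, ← hXd]
        ring
      rw [e5, e6]
      linear_combination (-4 * e ^ 2 * (r + r') ^ 2) * hz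
    rw [hX'] at h4
    exact add_right_cancel h4
  subst ex
  subst ey
  exact e1

theorem exists_mu_closed [IsAlgClosed F] (h : IsE W z) (Q : W.Point) :
    ∃ P : W.Point, mu h P = Q := by
  obtain ⟨e, he'⟩ := IsAlgClosed.exists_pow_nat_eq ((-5 - z) / 36 : F) (n := 2) (by norm_num)
  have he : 36 * e ^ 2 = -5 - z := by
    rw [he']
    ring
  have hcl : ∀ (x y : F) (hn : W.Nonsingular x y), y + z / 2 - e ≠ 0 →
      ∃ P : W.Point, mu h P = .some x y hn := by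
    intro x y hn hne
    obtain ⟨r, hr⟩ := IsAlgClosed.exists_pow_nat_eq (y + z / 2 - e) (n := 3) (by norm_num)
    refine exists_mu h e he hn r hr ?_
    rintro rfl
    apply hne
    rw [← hr]
    ring
  cases Q with
  | zero => exact ⟨0, map_zero _⟩
  | some x y hn =>
    by_cases hy : y + z / 2 - e = 0
    · have hneg : W.negY x y + z / 2 - e ≠ 0 := by
        have ha1 : W.a₁ = 0 := by rw [h.eq]
        have ha3 : W.a₃ = z := by rw [h.eq]
        rw [Affine.negY, ha1, ha3]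
        intro h0
        have h1 : (2 : F) * e = 0 := by linear_combination -h0 - hy
        exact (mul_ne_zero two_ne_zero (h.e_ne he)) h1
      obtain ⟨P, hP⟩ := hcl x (W.negY x y) ((Affine.nonsingular_neg x y).2 hn) hneg
      refine ⟨-P, ?_⟩
      rw [map_neg, hP, ← Affine.Point.neg_some, neg_neg]
    · exact hcl x y hn hy

end Pool.Agent.Lib.MP_1a91b9_ntT3.S9
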