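import Pool.Agent.Lib.MP_1a91b9_ntT3.S9.Mc
import Pool.Agent.Lib.MP_1a91b9_ntT3.S9.Em

/-!
# JOB SH: the 3-primary part of the Tate-Shafarevich group is zero

See `two_class`, `sha_two`, `shaTwo_trivial` in `Pool/Agent/Lib/MP_1a91b9_ntT/S9/MC.lean`.
`om_coc` ... : composition with `omP` and `mu` preserves `cob`, `shaCoc` (`omP_map`, `mu_map`; for
`trivOver`: apply `omP` over `Lbar` to `P`).
`mu_class`: `mu c = ∂ Q`, `Q = mu R` (`exists_mu_closed`), `c - ∂ R` is killed by `mu`: `mu_cocycle`.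
`sha_three`: `3 c ∈ cob`. `mu (mu c) = - 3 ω c ∈ cob`, `mu c ∈ shaCoc`: `mu_class` for `mu c` gives
`mu c ∈ cob`, and `mu_class` for `c` gives `c ∈ cob`. `shaThree_trivial`: `3^n x = 0` implies
`x = 0` by induction.
-/

set_option autoImplicit false

namespace Pool.Agent.Lib.MP_1a91b9_ntT3.S9

open WeierstrassCurve NumberField IsDedekindDomain S5 Module
open Pool.Agent.Lib.MP_1a91b9_ntT.S9
open scoped Classical

universe u

/-- JOB SH1. -/
theorem om_cob {N : Type u} [Field N] [NumberField N] {om : N} (hom : om ^ 2 + om + 1 = 0)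
    (c : Gal N → Pts (EC om) (AlgebraicClosure N)) (hc : c ∈ cob (EC om)) :
    (fun σ => omP (isE_bc hom (AlgebraicClosure N)) (c σ)) ∈ cob (EC om) := by
  obtain ⟨P, hP⟩ := hc
  refine ⟨omP (isE_bc hom (AlgebraicClosure N)) P, fun σ => ?_⟩
  change omP (isE_bc hom (AlgebraicClosure N)) (c σ) = _
  rw [hP σ, _root_.map_sub, omP_map hom (σ : AlgebraicClosure N →ₐ[N] AlgebraicClosure N) P]

private theorem sh1_triv {k : Type*} [Field k] [CharZero k] {om : k} (hom : om ^ 2 + om + 1 = 0)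
    (L : Type*) [Field L] [Algebra k L] (c : Gal k → Pts (EC om) (AlgebraicClosure k))
    (hc : c ∈ trivOver (EC om) L) :
    (fun σ => mu (isE_bc hom (AlgebraicClosure k)) (c σ)) ∈ trivOver (EC om) L := by
  have : CharZero L := charZero_of_injective_algebraMap (algebraMap k L).injective
  intro i
  obtain ⟨P, hP⟩ := hc i
  refine ⟨mu (isE_bc hom (AlgebraicClosure L)) P, fun σ τ h => ?_⟩
  change Affine.Point.map i (mu (isE_bc hom (AlgebraicClosure k)) (c τ)) = _
  rw [mu_map hom i, hP σ τ h, _root_.map_sub, mu_map hom]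

private theorem sh1_coc {k : Type*} [Field k] [CharZero k] {om : k} (hom : om ^ 2 + om + 1 = 0)
    (c : Gal k → Pts (EC om) (AlgebraicClosure k)) (hc : c ∈ coc (EC om)) :
    (fun σ => mu (isE_bc hom (AlgebraicClosure k)) (c σ)) ∈ coc (EC om) := by
  refine ⟨hc.1.comp _, fun σ τ => ?_⟩
  change mu (isE_bc hom (AlgebraicClosure k)) (c (σ * τ)) = _
  rw [hc.2 σ τ, _root_.map_add, mu_map hom (σ : AlgebraicClosure k →ₐ[k] AlgebraicClosure k)]

/-- JOB SH1. -/
theorem mu_shaCoc {N : Type u} [Field N] [NumberField N] {om : N} (hom : om ^ 2 + om + 1 = 0)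
    (c : Gal N → Pts (EC om) (AlgebraicClosure N)) (hc : c ∈ shaCoc (EC om)) :
    (fun σ => mu (isE_bc hom (AlgebraicClosure N)) (c σ)) ∈ shaCoc (EC om) := by
  refine ⟨⟨sh1_coc hom c hc.1.1, ?_⟩, ?_⟩
  · have h : c ∈ ⨅ v : HeightOneSpectrum (𝓞 N), trivOver (EC om) (v.adicCompletion N) := hc.1.2
    exact AddSubgroup.mem_iInf.2 fun v => sh1_triv hom _ c (AddSubgroup.mem_iInf.1 h v)
  · have h : c ∈ ⨅ v : InfinitePlace N, trivOver (EC om) v.Completion := hc.2
    exact AddSubgroup.mem_iInf.2 fun v => sh1_triv hom _ c (AddSubgroup.mem_iInf.1 h v)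

/-- JOB SH2. -/
theorem mu_class {N : Type u} [Field N] [NumberField N] {om : N} (hG : Good N om)
    (c : Gal N → Pts (EC om) (AlgebraicClosure N)) (hc : c ∈ shaCoc (EC om))
    (h : (fun σ => mu (isE_bc hG.hom (AlgebraicClosure N)) (c σ)) ∈ cob (EC om)) :
    c ∈ cob (EC om) := by
  obtain ⟨Q, hQ⟩ := h
  obtain ⟨R, hR⟩ := exists_mu_closed (isE_bc hG.hom (AlgebraicClosure N)) Q
  have hd : (fun σ : Gal N => Affine.Point.map (W' := EC om)
      (σ : AlgebraicClosure N →ₐ[N] AlgebraicClosure N) R - R) ∈ cob (EC om) := ⟨R, fun σ => rfl⟩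
  have hc' : c - (fun σ : Gal N => Affine.Point.map (W' := EC om)
      (σ : AlgebraicClosure N →ₐ[N] AlgebraicClosure N) R - R) ∈ cob (EC om) := by
    refine mu_cocycle hG _ (sub_mem hc (cob_le_shaCoc (EC om) hd)) fun σ => ?_
    have h1 : mu (isE_bc hG.hom (AlgebraicClosure N)) (c σ) = Affine.Point.map (W' := EC om)
      (σ : AlgebraicClosure N →ₐ[N] AlgebraicClosure N) Q - Q := hQ σ
    have h2 := mu_map hG.hom (σ : AlgebraicClosure N →ₐ[N] AlgebraicClosure N) R
    rw [Pi.sub_apply, _root_.map_sub, _root_.map_sub, h1, ← h2, hR, sub_self]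
  have h5 := add_mem hc' hd
  rwa [sub_add_cancel] at h5

theorem sh2_three_class {N : Type u} [Field N] [NumberField N] {om : N} (hG : Good N om)
    (c : Gal N → Pts (EC om) (AlgebraicClosure N)) (hc : c ∈ shaCoc (EC om))
    (h : 3 • c ∈ cob (EC om)) : c ∈ cob (EC om) := by
  refine mu_class hG c hc (mu_class hG _ (mu_shaCoc hG.hom c hc) ?_)
  have h1 := neg_mem (om_cob hG.hom _ h)
  have h2 : (fun σ => mu (isE_bc hG.hom (AlgebraicClosure N))
      ((fun σ => mu (isE_bc hG.hom (AlgebraicClosure N)) (c σ)) σ)) =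
      -(fun σ => omP (isE_bc hG.hom (AlgebraicClosure N)) ((3 • c) σ)) := by
    funext σ
    rw [Pi.neg_apply, Pi.smul_apply, _root_.map_nsmul]
    exact mu_mu _ (c σ)
  rw [h2]
  exact h1

theorem sh2_sha_three {N : Type u} [Field N] [NumberField N] {om : N} (hG : Good N om)
    (x : Sha (EC om)) (h : 3 • x = 0) : x = 0 := by
  have key : ∀ y : shaCoc (EC om) ⧸ (cob (EC om)).addSubgroupOf (shaCoc (EC om)),
      3 • y = 0 → y = 0 := by
    intro y hy
    obtain ⟨⟨c, hc⟩, rfl⟩ := QuotientAddGroup.mk_surjective y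
    have hy' : (QuotientAddGroup.mk (3 • (⟨c, hc⟩ : shaCoc (EC om))) :
        shaCoc (EC om) ⧸ (cob (EC om)).addSubgroupOf (shaCoc (EC om))) = 0 := hy
    rw [QuotientAddGroup.eq_zero_iff, AddSubgroup.mem_addSubgroupOf] at hy'
    rw [QuotientAddGroup.eq_zero_iff, AddSubgroup.mem_addSubgroupOf]
    exact sh2_three_class hG c hc hy'
  exact key x h

/-- JOB SH2. -/
theorem shaThree_trivial {N : Type u} [Field N] [NumberField N] {om : N} (hG : Good N om) :
    Subsingleton (ShaP 3 (EC om)) := by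
  have key : ∀ n : ℕ, ∀ y : Sha (EC om), 3 ^ n • y = 0 → y = 0 := by
    intro n
    induction n with
    | zero =>
      intro y hy
      simpa using hy
    | succ n ih =>
      intro y hy
      refine sh2_sha_three hG y (ih _ ?_)
      rw [← mul_nsmul', ← pow_succ]
      exact hy
  have h1 : ∀ x : AddCommGroup.primaryComponent (Sha (EC om)) 3, x = 0 := by
    rintro ⟨x, n, hn⟩
    exact Subtype.ext (key n x hn)
  exact ⟨fun x y => (h1 x).trans (h1 y).symm⟩

theorem card_shaThree {N : Type u} [Field N] [NumberField N] {om : N} (hG : Good N om) :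
    Nat.card (ShaP 3 (EC om)) = 1 :=
  Nat.card_eq_one_iff_unique.2
    ⟨shaThree_trivial hG, ⟨(0 : AddCommGroup.primaryComponent (Sha (EC om)) 3)⟩⟩

end Pool.Agent.Lib.MP_1a91b9_ntT3.S9
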