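import Pool.Agent.Lib.MP_1a91b9_ntT.S9.QG
import Pool.Agent.Lib.MP_1a91b9_ntT.S9.GD

/-!
# JOB TB: the component group of `Y² = X³ + c`, `v(c) = exp (-1)`, `exp (-3)` or `exp (-5)`

`v(2) = v(3) = 1`. Let `P = (X, Y)` not be in `H`: so `v(X) < 1`, `v(Y) < 1`, `Y² = X³ + c`.
If `v(c) = exp (-1)`: `v(c) = v(Y² - X³) ≤ exp (-2)`, contradiction. If `v(c) = exp (-5)`:
`v(X) = exp (-1)` gives `v(X³ + c) = exp (-3)`, not a square; `v(X) ≤ exp (-2)` gives
`v(X³ + c) = exp (-5)`, not a square; contradiction. So `v(c) = exp (-3)`: `v(Y)² ≤ exp (-3)`,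
`v(Y) ≤ exp (-2)`, `v(X³ + c) ≤ exp (-4)`, `v(X) = exp (-1)` (this is `sing_val`).
Claim (`sing_sub`): if `P₁`, `P₂` are not in `H` and `v(X₁ - X₂) ≤ exp (-2)` then `P₁ - P₂ ∈ H`.
If `X₁ = X₂`: `P₁ = P₂`, or `P₁ = - P₂` and `P₁ - P₂ = 2 P₁`; if `Y₁ = 0` it is `0`; otherwise the tangent
slope `m = 3 X² / (2 Y)` has `v(m) ≥ 1` and `X(2 P₁) = m² - 2 X` has `v ≥ 1`: in `H` by hypothesis.
If `X₁ ≠ X₂`: `- P₂ = (X₂, - Y₂)`, `m = (Y₁ + Y₂) / (X₁ - X₂)`; `(Y₁ + Y₂) (Y₁ - Y₂) = (X₁ - X₂) q`,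
`q = X₁² + X₁ X₂ + X₂² = 3 X₁² + ..` has `v(q) = exp (-2)`, so `Y₁ ≠ Y₂`, `m = q / (Y₁ - Y₂)`,
`v(m) ≥ 1`, and `X(P₁ - P₂) = m² - X₁ - X₂` has value `v(m)² ≥ 1`: in `H`.
Finite index: `finite_ball v 1 (exp (-2))` (`S9/QG.lean`) gives a finite set of centres; the points not in
`H` fall in finitely many classes; so the quotient `S.Point ⧸ H` is finite (a map from it to
`Option (finite set)` which is injective). For `P ∉ H`: `2 P = P - (- P) ∈ H` (same `X`), so
`2 x = 0` in the quotient; if `3` divided its order there would be an element of order 3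
(`exists_prime_addOrderOf_dvd_card`), a contradiction.
-/

set_option autoImplicit false

namespace Pool.Agent.Lib.MP_1a91b9_ntT3.S9

open NumberField IsDedekindDomain WithZero WeierstrassCurve
open Pool.Agent.Lib.MP_1a91b9_ntT.S9
open scoped Classical

variable {N : Type*} [Field N] [NumberField N]

private theorem tb1_cases (a : ℤᵐ⁰) : a = 0 ∨ ∃ n : ℤ, a = exp n := by
  rcases eq_or_ne a 0 with h | h
  · exact Or.inl h
  · exact Or.inr ⟨WithZero.log a, (WithZero.exp_log h).symm⟩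

private theorem tb1_pow (n : ℤ) (e : ℕ) : (exp n : ℤᵐ⁰) ^ e = exp ((e : ℤ) * n) := by
  rw [← exp_nsmul, nsmul_eq_mul]

private theorem tb1_le {a : ℤᵐ⁰} (h : a < 1) : a ≤ exp (-1 : ℤ) := by
  rcases tb1_cases a with h0 | ⟨n, hn⟩
  · rw [h0]
    exact zero_le
  · rw [hn] at h ⊢
    rw [← exp_zero, exp_lt_exp] at h
    rw [exp_le_exp]
    omega

/-- The values of the coordinates of a singular point. -/
private theorem sing_val {K : Type*} [Field K] (V : Valuation K ℤᵐ⁰) (c x y : K)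
    (hc : V c = exp (-1 : ℤ) ∨ V c = exp (-3 : ℤ) ∨ V c = exp (-5 : ℤ))
    (h : y ^ 2 = x ^ 3 + c) (hx : V x < 1) (hy : V y < 1) :
    V x = exp (-1 : ℤ) ∧ V y ≤ exp (-2 : ℤ) := by
  have hx' := tb1_le hx
  have hy' := tb1_le hy
  have hcc : c = y ^ 2 - x ^ 3 := by rw [h]; ring
  have hxx : x ^ 3 = y ^ 2 - c := by rw [h]; ring
  have hx3 : V x ^ 3 ≤ exp (-3 : ℤ) := by
    calc V x ^ 3 ≤ exp (-1 : ℤ) ^ 3 := pow_le_pow_left' hx' 3
      _ = exp (-3 : ℤ) := by rw [tb1_pow]; norm_num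
  have hy2 : V y ^ 2 ≤ exp (-2 : ℤ) := by
    calc V y ^ 2 ≤ exp (-1 : ℤ) ^ 2 := pow_le_pow_left' hy' 2
      _ = exp (-2 : ℤ) := by rw [tb1_pow]; norm_num
  have hodd : ∀ n : ℤ, V y ^ 2 ≠ exp (2 * n + 1) := by
    intro n hn
    rcases tb1_cases (V y) with h0 | ⟨m, hm⟩
    · rw [h0, zero_pow two_ne_zero] at hn
      exact exp_ne_zero hn.symm
    · rw [hm, tb1_pow, exp_inj] at hn
      push_cast at hn
      omega
  rcases hc with hc | hc | hc
  · exfalso
    have h1 : V c ≤ exp (-2 : ℤ) := by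
      rw [hcc]
      refine Valuation.map_sub_le (v := V) ?_ ?_
      · rw [map_pow]
        exact hy2
      · rw [map_pow]
        refine hx3.trans ?_
        rw [exp_le_exp]
        norm_num
    rw [hc, exp_le_exp] at h1
    omega
  · have hy3 : V y ^ 2 ≤ exp (-3 : ℤ) := by
      rw [← map_pow, h]
      refine Valuation.map_add_le (v := V) ?_ hc.le
      rw [map_pow]
      exact hx3
    have hy4 : V y ≤ exp (-2 : ℤ) := by
      rcases tb1_cases (V y) with h0 | ⟨m, hm⟩
      · rw [h0]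
        exact zero_le
      · rw [hm, tb1_pow, exp_le_exp] at hy3
        rw [hm, exp_le_exp]
        push_cast at hy3
        omega
    refine ⟨?_, hy4⟩
    have h1 : V (x ^ 3) = exp (-3 : ℤ) := by
      rw [hxx, Valuation.map_sub_eq_of_lt_right, hc]
      rw [hc, map_pow]
      calc V y ^ 2 ≤ exp (-2 : ℤ) ^ 2 := pow_le_pow_left' hy4 2
        _ = exp (-4 : ℤ) := by rw [tb1_pow]; norm_num
        _ < exp (-3 : ℤ) := by rw [exp_lt_exp]; norm_num
    rw [map_pow] at h1
    rcases tb1_cases (V x) with h0 | ⟨m, hm⟩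
    · rw [h0, zero_pow three_ne_zero] at h1
      exact absurd h1.symm exp_ne_zero
    · rw [hm, tb1_pow, exp_inj] at h1
      push_cast at h1
      rw [hm]
      congr 1
      omega
  · exfalso
    rcases tb1_cases (V x) with h0 | ⟨m, hm⟩
    · have h1 : V (y ^ 2) = exp (-5 : ℤ) := by
        rw [h, Valuation.map_add_eq_of_lt_right, hc]
        rw [map_pow, h0, zero_pow three_ne_zero, hc]
        exact exp_pos
      rw [map_pow] at h1
      exact hodd (-3) (by rw [h1]; norm_num)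
    · rw [hm, exp_le_exp] at hx'
      rcases eq_or_lt_of_le hx' with h2 | h2
      · have h1 : V (y ^ 2) = exp (-3 : ℤ) := by
          have h3 : V (x ^ 3) = exp (-3 : ℤ) := by
            rw [map_pow, hm, h2, tb1_pow]
            norm_num
          rw [h, Valuation.map_add_eq_of_lt_left, h3]
          rw [h3, hc, exp_lt_exp]
          norm_num
        rw [map_pow] at h1
        exact hodd (-2) (by rw [h1]; norm_num)
      · have h1 : V (y ^ 2) = exp (-5 : ℤ) := by
          rw [h, Valuation.map_add_eq_of_lt_right, hc]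
          rw [map_pow, hm, tb1_pow, hc, exp_lt_exp]
          push_cast
          omega
        rw [map_pow] at h1
        exact hodd (-3) (by rw [h1]; norm_num)

/-- JOB TB1. -/
theorem sing_sub (v : HeightOneSpectrum (𝓞 N)) (h2 : Valued.v (2 : v.adicCompletion N) = 1)
    (h3 : Valued.v (3 : v.adicCompletion N) = 1) (c : v.adicCompletion N)
    (hc : Valued.v c = exp (-1 : ℤ) ∨ Valued.v c = exp (-3 : ℤ) ∨ Valued.v c = exp (-5 : ℤ))
    {S : Affine (v.adicCompletion N)} (hS : S = ⟨0, 0, 0, 0, c⟩) (H : AddSubgroup S.Point)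
    (hH : ∀ (x y : v.adicCompletion N) (h : S.Nonsingular x y),
      ¬ (Valued.v x < 1 ∧ Valued.v y < 1) → Affine.Point.some x y h ∈ H)
    {x₁ y₁ x₂ y₂ : v.adicCompletion N} (h₁ : S.Nonsingular x₁ y₁) (h₂ : S.Nonsingular x₂ y₂)
    (hn₁ : Affine.Point.some x₁ y₁ h₁ ∉ H) (hn₂ : Affine.Point.some x₂ y₂ h₂ ∉ H)
    (hx : Valued.v (x₁ - x₂) ≤ exp (-2 : ℤ)) :
    Affine.Point.some x₁ y₁ h₁ - Affine.Point.some x₂ y₂ h₂ ∈ H := by
  subst hS
  have e₁ : y₁ ^ 2 = x₁ ^ 3 + c := by
    have h := h₁.1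
    rw [Affine.equation_iff] at h
    simpa using h
  have e₂ : y₂ ^ 2 = x₂ ^ 3 + c := by
    have h := h₂.1
    rw [Affine.equation_iff] at h
    simpa using h
  have s₁ : Valued.v x₁ < 1 ∧ Valued.v y₁ < 1 := by
    by_contra hcon
    exact hn₁ (hH x₁ y₁ h₁ hcon)
  have s₂ : Valued.v x₂ < 1 ∧ Valued.v y₂ < 1 := by
    by_contra hcon
    exact hn₂ (hH x₂ y₂ h₂ hcon)
  obtain ⟨a₁, b₁⟩ := sing_val Valued.v c x₁ y₁ hc e₁ s₁.1 s₁.2
  obtain ⟨a₂, b₂⟩ := sing_val Valued.v c x₂ y₂ hc e₂ s₂.1 s₂.2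
  by_cases heq : x₁ = x₂ ∧ y₁ = y₂
  · obtain ⟨hx1, hy1⟩ := heq
    subst hx1
    subst hy1
    rw [sub_self]
    exact H.zero_mem
  have hng : ∀ x y : v.adicCompletion N,
      Affine.negY (⟨0, 0, 0, 0, c⟩ : Affine (v.adicCompletion N)) x y = -y := by
    intro x y
    simp [Affine.negY]
  have hxy : ¬ (x₁ = x₂ ∧ y₁ = Affine.negY (⟨0, 0, 0, 0, c⟩ : Affine (v.adicCompletion N)) x₂
      (Affine.negY (⟨0, 0, 0, 0, c⟩ : Affine (v.adicCompletion N)) x₂ y₂)) := by
    rw [hng, hng, neg_neg]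
    exact heq
  obtain ⟨m, hm⟩ : ∃ m, m = Affine.slope (⟨0, 0, 0, 0, c⟩ : Affine (v.adicCompletion N)) x₁ x₂ y₁
    (Affine.negY (⟨0, 0, 0, 0, c⟩ : Affine (v.adicCompletion N)) x₂ y₂) := ⟨_, rfl⟩
  have hm1 : (1 : ℤᵐ⁰) ≤ Valued.v m := by
    by_cases hxe : x₁ = x₂
    · subst hxe
      have hye : y₁ ≠ y₂ := fun h => heq ⟨rfl, h⟩
      have hyn : y₁ = -y₂ := by
        have h1 : (y₁ - y₂) * (y₁ + y₂) = 0 := by linear_combination e₁ - e₂
        rcases mul_eq_zero.1 h1 with h2 | h2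
        · exact absurd (sub_eq_zero.1 h2) hye
        · exact eq_neg_of_add_eq_zero_left h2
      have hy0 : y₁ ≠ 0 := by
        intro h0
        apply hye
        rw [h0] at hyn ⊢
        exact (neg_eq_zero.1 hyn.symm).symm
      have hm2 : m = 3 * x₁ ^ 2 / (2 * y₁) := by
        rw [hm, Affine.slope_of_Y_ne rfl (by rw [hng, hng, neg_neg]; exact hye), hng]
        congr 1
        · simp
        · ring
      have hy2 : Valued.v (2 * y₁) ≤ exp (-2 : ℤ) := by
        rw [map_mul, h2, one_mul]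
        exact b₁
      have hy20 : Valued.v (2 * y₁) ≠ 0 := by
        rw [map_mul, h2, one_mul]
        exact (Valuation.ne_zero_iff _).2 hy0
      rw [hm2, map_div₀, map_mul, map_pow, h3, a₁, one_mul, tb1_pow,
        le_div_iff₀ (zero_lt_iff.2 hy20), one_mul]
      refine hy2.trans (le_of_eq ?_)
      norm_num
    · have hxs : x₁ - x₂ ≠ 0 := sub_ne_zero.2 hxe
      have hq : Valued.v (x₁ ^ 2 + x₁ * x₂ + x₂ ^ 2) = exp (-2 : ℤ) := by
        have e3 : x₁ ^ 2 + x₁ * x₂ + x₂ ^ 2 = 3 * x₁ ^ 2 + -((x₁ - x₂) * (x₂ + 2 * x₁)) := by ring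
        have e4 : Valued.v (3 * x₁ ^ 2) = exp (-2 : ℤ) := by
          rw [map_mul, map_pow, h3, a₁, one_mul, tb1_pow]
          norm_num
        rw [e3, Valuation.map_add_eq_of_lt_left, e4]
        rw [e4, Valuation.map_neg, map_mul]
        have e5 : Valued.v (x₂ + 2 * x₁) ≤ exp (-1 : ℤ) := by
          refine Valuation.map_add_le (v := Valued.v) a₂.le ?_
          rw [map_mul, h2, one_mul]
          exact a₁.le
        calc Valued.v (x₁ - x₂) * Valued.v (x₂ + 2 * x₁) ≤ exp (-2 : ℤ) * exp (-1 : ℤ) :=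
              mul_le_mul' hx e5
          _ = exp (-3 : ℤ) := by rw [← exp_add]; norm_num
          _ < exp (-2 : ℤ) := by rw [exp_lt_exp]; norm_num
      have hprod : (y₁ + y₂) * (y₁ - y₂) = (x₁ - x₂) * (x₁ ^ 2 + x₁ * x₂ + x₂ ^ 2) := by
        linear_combination e₁ - e₂
      have hq0 : x₁ ^ 2 + x₁ * x₂ + x₂ ^ 2 ≠ 0 := by
        intro h0
        rw [h0, map_zero] at hq
        exact exp_ne_zero hq.symm
      have hy0 : y₁ - y₂ ≠ 0 := by
        intro h0
        rw [h0, mul_zero] at hprod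
        rcases mul_eq_zero.1 hprod.symm with h | h
        · exact hxs h
        · exact hq0 h
      have hm2 : m = (x₁ ^ 2 + x₁ * x₂ + x₂ ^ 2) / (y₁ - y₂) := by
        rw [hm, Affine.slope_of_X_ne hxe, hng, sub_neg_eq_add, div_eq_div_iff hxs hy0, hprod]
        ring
      have hyv : Valued.v (y₁ - y₂) ≤ exp (-2 : ℤ) := Valuation.map_sub_le (v := Valued.v) b₁ b₂
      have hyv0 : Valued.v (y₁ - y₂) ≠ 0 := (Valuation.ne_zero_iff _).2 hy0
      rw [hm2, map_div₀, hq, le_div_iff₀ (zero_lt_iff.2 hyv0), one_mul]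
      exact hyv
  rw [sub_eq_add_neg, Affine.Point.neg_some, Affine.Point.add_some hxy]
  apply hH
  rintro ⟨hX, -⟩
  have hX2 : Affine.addX (⟨0, 0, 0, 0, c⟩ : Affine (v.adicCompletion N)) x₁ x₂ m =
      m ^ 2 - (x₁ + x₂) := by
    simp only [Affine.addX]
    ring
  rw [← hm, hX2] at hX
  have hs : Valued.v (x₁ + x₂) < Valued.v (m ^ 2) := by
    calc Valued.v (x₁ + x₂) ≤ exp (-1 : ℤ) := Valuation.map_add_le (v := Valued.v) a₁.le a₂.le
      _ < 1 := by rw [← exp_zero, exp_lt_exp]; norm_num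
      _ ≤ Valued.v (m ^ 2) := by
        rw [map_pow]
        exact one_le_pow₀ hm1
  rw [Valuation.map_sub_eq_of_lt_left _ hs, map_pow] at hX
  exact absurd hX (not_lt.2 (one_le_pow₀ hm1))

/-- JOB TB2. -/
theorem index_coprime (v : HeightOneSpectrum (𝓞 N)) (h2 : Valued.v (2 : v.adicCompletion N) = 1)
    (h3 : Valued.v (3 : v.adicCompletion N) = 1) (c : v.adicCompletion N)
    (hc : Valued.v c = exp (-1 : ℤ) ∨ Valued.v c = exp (-3 : ℤ) ∨ Valued.v c = exp (-5 : ℤ))
    {S : Affine (v.adicCompletion N)} (hS : S = ⟨0, 0, 0, 0, c⟩) (H : AddSubgroup S.Point)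
    (hH : ∀ (x y : v.adicCompletion N) (h : S.Nonsingular x y),
      ¬ (Valued.v x < 1 ∧ Valued.v y < 1) → Affine.Point.some x y h ∈ H) :
    H.index.Coprime 3 := by
  obtain ⟨T, hT⟩ := finite_ball v 1 (exp (-2 : ℤ)) exp_ne_zero
  -- description of the classes
  have cls : ∀ q : S.Point ⧸ H, ∃ o : Option (v.adicCompletion N), (o = none ∧ q = 0) ∨
      ∃ s ∈ T, o = some s ∧ ∃ (x y : v.adicCompletion N) (h : S.Nonsingular x y),
        q = QuotientAddGroup.mk (Affine.Point.some x y h) ∧ Affine.Point.some x y h ∉ H ∧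
          Valued.v (x - s) ≤ exp (-2 : ℤ) := by
    intro q
    obtain ⟨P, rfl⟩ := QuotientAddGroup.mk_surjective q
    by_cases hP : P ∈ H
    · exact ⟨none, Or.inl ⟨rfl, (QuotientAddGroup.eq_zero_iff P).2 hP⟩⟩
    · rcases P with _ | ⟨x, y, h⟩
      · exact absurd H.zero_mem hP
      · have hxy : Valued.v x < 1 ∧ Valued.v y < 1 := by
          by_contra hc
          exact hP (hH x y h hc)
        obtain ⟨s, hs, hs2⟩ := hT x hxy.1.le
        exact ⟨some s, Or.inr ⟨s, hs, rfl, x, y, h, rfl, hP, hs2⟩⟩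
  choose f hf using cls
  have hinj : Function.Injective f := by
    intro q q' hqq
    rcases hf q with ⟨h1, h2'⟩ | ⟨s, -, h1, x, y, h, hq, hn, hv⟩
    · rcases hf q' with ⟨h1', h2''⟩ | ⟨s', -, h1', -⟩
      · rw [h2', h2'']
      · rw [← hqq, h1] at h1'
        exact absurd h1' (by simp)
    · rcases hf q' with ⟨h1', -⟩ | ⟨s', -, h1', x', y', h', hq', hn', hv'⟩
      · rw [← hqq, h1] at h1'
        exact absurd h1' (by simp)
      · rw [← hqq, h1] at h1'
        have hss : s = s' := Option.some.inj h1'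
        subst hss
        have hxx : Valued.v (x - x') ≤ exp (-2 : ℤ) := by
          have e1 : x - x' = (x - s) - (x' - s) := by ring
          rw [e1]
          exact Valuation.map_sub_le (v := (Valued.v : Valuation (v.adicCompletion N) ℤᵐ⁰)) hv hv'
        have hmem := sing_sub v h2 h3 c hc hS H hH h' h hn' hn (by
          rw [Valuation.map_sub_swap]
          exact hxx)
        rw [hq, hq']
        rw [QuotientAddGroup.eq]
        have e2 : -Affine.Point.some x y h + Affine.Point.some x' y' h' =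
            Affine.Point.some x' y' h' - Affine.Point.some x y h := by
          abel
        rw [e2]
        exact hmem
  have hfin : Finite (S.Point ⧸ H) := by
    have hran : (Set.range f).Finite := by
      refine Set.Finite.subset ((T.finite_toSet.image some).insert none) ?_
      rintro _ ⟨q, rfl⟩
      rcases hf q with ⟨h1, -⟩ | ⟨s, hs, h1, -⟩
      · rw [h1]
        exact Set.mem_insert _ _
      · rw [h1]
        exact Set.mem_insert_of_mem _ ⟨s, hs, rfl⟩
    have : Finite (Set.range f) := hran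
    exact Finite.of_injective (fun q => (⟨f q, q, rfl⟩ : Set.range f)) (fun q q' hqq =>
      hinj (congrArg Subtype.val hqq))
  have htwo : ∀ q : S.Point ⧸ H, q + q = 0 := by
    intro q
    obtain ⟨P, rfl⟩ := QuotientAddGroup.mk_surjective q
    rw [← QuotientAddGroup.mk_add, QuotientAddGroup.eq_zero_iff]
    by_cases hP : P ∈ H
    · exact H.add_mem hP hP
    · rcases P with _ | ⟨x, y, h⟩
      · exact absurd H.zero_mem hP
      · have hn : -Affine.Point.some x y h ∉ H := fun hc => hP (by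
          have := H.neg_mem hc
          rwa [neg_neg] at this)
        have e1 : -Affine.Point.some x y h =
            Affine.Point.some x (S.negY x y) ((Affine.nonsingular_neg x y).2 h) :=
          Affine.Point.neg_some h
        rw [e1] at hn
        have hmem := sing_sub v h2 h3 c hc hS H hH h ((Affine.nonsingular_neg x y).2 h) hP hn (by
          rw [sub_self, map_zero]
          exact zero_le)
        rw [← e1, sub_neg_eq_add] at hmem
        exact hmem
  have hidx : H.index = Nat.card (S.Point ⧸ H) := rfl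
  rw [Nat.coprime_comm, Nat.Prime.coprime_iff_not_dvd Nat.prime_three, hidx]
  intro hdvd
  have : Fact (Nat.Prime 3) := ⟨Nat.prime_three⟩
  obtain ⟨q, hq⟩ := exists_prime_addOrderOf_dvd_card' (G := S.Point ⧸ H) 3 hdvd
  have h30 : (3 : ℕ) • q = 0 := by
    rw [← hq]
    exact addOrderOf_nsmul_eq_zero q
  have h20 : (2 : ℕ) • q = 0 := by
    rw [two_nsmul]
    exact htwo q
  have hq0 : q = 0 := by
    have : q = (3 : ℕ) • q - (2 : ℕ) • q := by
      rw [show (3 : ℕ) = 2 + 1 by norm_num, add_nsmul, one_nsmul]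
      abel
    rw [this, h30, h20, sub_zero]
  rw [hq0, addOrderOf_zero] at hq
  exact absurd hq (by norm_num)

end Pool.Agent.Lib.MP_1a91b9_ntT3.S9
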