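import Pool.Agent.Lib.MP_1a91b9_nt.VcPoint
import Pool.Agent.Lib.MP_1a91b9_ntT3.S9.Tg
import Pool.Agent.Lib.MP_1a91b9_ntT3.S9.Tb

/-!
# JOB TC: the Tamagawa numbers of `EC om` are prime to three

`v(om - 2) < 1`: `v` is above `7` (`(om - 2) (- om - 3) = 7`... `(om - 2) (om² - 2) = 7`), so
`v(2) = v(3) = 1`. `W = (EC om)_{N_v}`, `M = minModel = C • W`, `C = minChange`.
TC1 (`short_form`): for an integral model `M` over `N_v` (coefficients of value `≤ 1`), `v(2) = v(3) =
1`, `c₄(M) = 0`: let `c = - c₆(M) / 864`, `C₀ = ⟨1, - b₂ / 12, - a₁ / 2, a₁ b₂ / 24 - a₃ / 2⟩` (check),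
`C₀ • M = ⟨0, 0, 0, 0, c⟩ = S` (use `c₄ = 0`, or Mathlib's `toShortNF`), and by `exists_point_equiv` there is
`e : S.Point ≃+ M.Point`, `e (X, Y) = (X - b₂ / 12, Y - a₁ X / 2 + ..)`, i.e. `x = X - b₂ / 12`,
`2 y + a₁ x + a₃ = 2 Y`. If not (`v(X) < 1` and `v(Y) < 1`) then `e (X, Y)` is in the generating set of
`nonsing`: if `v(x) > 1` clear; otherwise `v(X) ≤ 1`, `v(Y) ≤ 1` (equation); if `v(Y) = 1` the derivative
`2 y + a₁ x + a₃ = 2 Y` is a unit; otherwise `v(X) = 1` and
`3 x² + 2 a₂ x + a₄ - a₁ y = 3 X² - a₁ Y - c₄ / 48 = 3 X² - a₁ Y` is a unit.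
TC2 (`min_c`): `c₄(M) = 0` (`c₄(W) = 0`, `variableChange_c₄`); `c₆(M) = u⁻⁶ c₆(W)`,
`c₆(W) = - 24 D`, `D = - 5 - om`, so `c = u⁻⁶ D / 36`; `Δ(M) = - 432 c²`. `v(D) = v(om - 2)`
(`D² = - 3 om² (om - 2)²`) is not a square, so `v(c) = exp (-n)`, `n` odd; `v(c) ≤ 1` (`c₆(M)` integral),
so `n ≥ 1`. If `n ≥ 6`: choose `ϖ` with `v(ϖ) = exp (-1)`; the change of variables `C₀` followed by
`⟨ϖ, 0, 0, 0⟩` gives `⟨0, 0, 0, 0, c / ϖ⁶⟩`, integral, with discriminant of value
`v(Δ(M)) exp 12 > v(Δ(M))`, which contradicts the minimality (`IsMinimal.val_Δ_maximal`; see the proof of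
`minModel_disc` in `Pool/Agent/Lib/MP_1a91b9_ntT/S9/QA.lean` for its use).
TC3 (`tam_coprime`): `index_coprime` for `H = (nonsing).map e⁻¹` (`comap e`), index preserved.
-/

set_option autoImplicit false

namespace Pool.Agent.Lib.MP_1a91b9_ntT3.S9

open NumberField IsDedekindDomain WithZero WeierstrassCurve S5
open Pool.Agent.Lib.MP_1a91b9_ntT.S9
open scoped Classical

variable {N : Type*} [Field N] [NumberField N]

private theorem tc1_general {K : Type*} [Field K] [DecidableEq K] (V : Valuation K ℤᵐ⁰) (h2 : V 2 = 1)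
    (h3 : V 3 = 1) (M : WeierstrassCurve K) (h1 : V M.a₁ ≤ 1) (ha2 : V M.a₂ ≤ 1) (ha3 : V M.a₃ ≤ 1)
    (ha4 : V M.a₄ ≤ 1) (ha6 : V M.a₆ ≤ 1) (hc4 : M.c₄ = 0) :
    ∃ e : (⟨0, 0, 0, 0, -M.c₆ / 864⟩ : WeierstrassCurve K).toAffine.Point ≃+ M.toAffine.Point,
      ∀ (x y : K) (h : (⟨0, 0, 0, 0, -M.c₆ / 864⟩ : WeierstrassCurve K).toAffine.Nonsingular x y),
        ¬ (V x < 1 ∧ V y < 1) → ∃ (x' y' : K) (h' : M.toAffine.Nonsingular x' y'),
          e (Affine.Point.some x y h) = Affine.Point.some x' y' h' ∧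
          (1 < V x' ∨ V (2 * y' + M.a₁ * x' + M.a₃) = 1 ∨
            V (3 * x' ^ 2 + 2 * M.a₂ * x' + M.a₄ - M.a₁ * y') = 1) := by
  have n2 : (2 : K) ≠ 0 := by
    intro h
    rw [h, map_zero] at h2
    exact zero_ne_one h2
  have n3 : (3 : K) ≠ 0 := by
    intro h
    rw [h, map_zero] at h3
    exact zero_ne_one h3
  have e12 : (12 : K) = 2 ^ 2 * 3 := by norm_num
  have e24 : (24 : K) = 2 ^ 3 * 3 := by norm_num
  have e864 : (864 : K) = 2 ^ 5 * 3 ^ 3 := by norm_num
  have v12 : V 12 = 1 := by rw [e12, map_mul, map_pow, h2, h3, one_pow, one_mul]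
  have v864 : V 864 = 1 := by rw [e864, map_mul, map_pow, map_pow, h2, h3, one_pow, one_pow, one_mul]
  have n12 : (12 : K) ≠ 0 := by rw [e12]; exact mul_ne_zero (pow_ne_zero _ n2) n3
  have n24 : (24 : K) ≠ 0 := by rw [e24]; exact mul_ne_zero (pow_ne_zero _ n2) n3
  have n864 : (864 : K) ≠ 0 := by rw [e864]; exact mul_ne_zero (pow_ne_zero _ n2) (pow_ne_zero _ n3)
  set C : VariableChange K := ⟨1, -M.b₂ / 12, -M.a₁ / 2, M.a₁ * M.b₂ / 24 - M.a₃ / 2⟩ with hC
  have hS : C • M = ⟨0, 0, 0, 0, -M.c₆ / 864⟩ := by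
    have hc4' : M.b₂ ^ 2 - 24 * M.b₄ = 0 := hc4
    rw [WeierstrassCurve.b₂, WeierstrassCurve.b₄] at hc4'
    ext
    · rw [variableChange_a₁, hC]
      simp only [inv_one, Units.val_one]
      field_simp
      ring
    · rw [variableChange_a₂, hC]
      simp only [inv_one, Units.val_one, WeierstrassCurve.b₂]
      field_simp
      ring
    · rw [variableChange_a₃, hC]
      simp only [inv_one, Units.val_one, WeierstrassCurve.b₂]
      field_simp
      ring
    · rw [variableChange_a₄, hC]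
      simp only [inv_one, Units.val_one, WeierstrassCurve.b₂]
      field_simp
      linear_combination (-144) * hc4'
    · rw [variableChange_a₆, hC]
      simp only [inv_one, Units.val_one, WeierstrassCurve.b₂, WeierstrassCurve.c₆, WeierstrassCurve.b₄,
        WeierstrassCurve.b₆]
      field_simp
      ring
  have key := Pool.Agent.Lib.MP_1a91b9_nt.exists_point_equiv M C
  rw [hS] at key
  obtain ⟨e, he⟩ := key
  refine ⟨e, fun x y h hxy => ?_⟩
  obtain ⟨h', hh'⟩ := he x y h
  refine ⟨_, _, h', hh', ?_⟩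
  have hu : ((C.u : Kˣ) : K) = 1 := by rw [hC, Units.val_one]
  have hr : C.r = -M.b₂ / 12 := rfl
  have hs : C.s = -M.a₁ / 2 := rfl
  have ht : C.t = M.a₁ * M.b₂ / 24 - M.a₃ / 2 := rfl
  rw [hu, hr, hs, ht]
  have i2 : V (2 : K) ≤ 1 := h2.le
  have i3 : V (3 : K) ≤ 1 := h3.le
  have i4 : V (4 : K) ≤ 1 := by
    rw [show (4 : K) = 2 * 2 by norm_num, map_mul]
    exact mul_le_one' i2 i2
  have hb2 : V M.b₂ ≤ 1 := by
    rw [WeierstrassCurve.b₂]
    refine Valuation.map_add_le V ?_ ?_
    · rw [map_pow]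
      exact pow_le_one₀ zero_le h1
    · rw [map_mul]
      exact mul_le_one' i4 ha2
  have hb4 : V M.b₄ ≤ 1 := by
    rw [WeierstrassCurve.b₄]
    refine Valuation.map_add_le V ?_ ?_
    · rw [map_mul]
      exact mul_le_one' i2 ha4
    · rw [map_mul]
      exact mul_le_one' h1 ha3
  have hb6 : V M.b₆ ≤ 1 := by
    rw [WeierstrassCurve.b₆]
    refine Valuation.map_add_le V ?_ ?_
    · rw [map_pow]
      exact pow_le_one₀ zero_le ha3
    · rw [map_mul]
      exact mul_le_one' i4 ha6
  have hc6 : V M.c₆ ≤ 1 := by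
    rw [WeierstrassCurve.c₆]
    refine Valuation.map_sub_le (v := V) (Valuation.map_add_le V ?_ ?_) ?_
    · rw [Valuation.map_neg, map_pow]
      exact pow_le_one₀ zero_le hb2
    · rw [map_mul, map_mul, show (36 : K) = 2 ^ 2 * 3 ^ 2 by norm_num, map_mul, map_pow, map_pow,
        h2, h3, one_pow, one_mul, one_mul]
      exact mul_le_one' hb2 hb4
    · rw [map_mul, show (216 : K) = 2 ^ 3 * 3 ^ 3 by norm_num, map_mul, map_pow, map_pow,
        h2, h3, one_pow, one_mul, one_mul]
      exact hb6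
  have heq : y ^ 2 = x ^ 3 + -M.c₆ / 864 := by
    have := (Affine.equation_iff _ _).1 h.1
    simpa using this
  have E1 : 2 * (1 ^ 3 * y + 1 ^ 2 * (-M.a₁ / 2) * x + (M.a₁ * M.b₂ / 24 - M.a₃ / 2)) +
      M.a₁ * (1 ^ 2 * x + -M.b₂ / 12) + M.a₃ = 2 * y := by
    field_simp
    ring
  rw [E1]
  have E2 : 3 * (1 ^ 2 * x + -M.b₂ / 12) ^ 2 + 2 * M.a₂ * (1 ^ 2 * x + -M.b₂ / 12) + M.a₄ -
      M.a₁ * (1 ^ 3 * y + 1 ^ 2 * (-M.a₁ / 2) * x + (M.a₁ * M.b₂ / 24 - M.a₃ / 2)) =
      3 * x ^ 2 - M.a₁ * y := by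
    have hc4' : M.b₂ ^ 2 - 24 * M.b₄ = 0 := hc4
    rw [WeierstrassCurve.b₂, WeierstrassCurve.b₄] at hc4'
    simp only [WeierstrassCurve.b₂]
    field_simp
    linear_combination (-144) * hc4'
  rw [E2]
  by_cases hx1 : 1 < V (1 ^ 2 * x + -M.b₂ / 12)
  · exact Or.inl hx1
  right
  rw [not_lt] at hx1
  have hx : V x ≤ 1 := by
    have e1 : x = (1 ^ 2 * x + -M.b₂ / 12) + M.b₂ / 12 := by ring
    rw [e1]
    refine Valuation.map_add_le V hx1 ?_
    rw [map_div₀, v12, div_one]
    exact hb2
  have hy : V y ≤ 1 := by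
    have e1 : V y ^ 2 ≤ 1 := by
      rw [← map_pow, heq]
      refine Valuation.map_add_le V ?_ ?_
      · rw [map_pow]
        exact pow_le_one₀ zero_le hx
      · rw [map_div₀, v864, div_one, Valuation.map_neg]
        exact hc6
    by_contra hc
    push Not at hc
    exact absurd e1 (not_le.2 (one_lt_pow₀ hc two_ne_zero))
  rcases eq_or_lt_of_le hy with hy1 | hy1
  · left
    rw [map_mul, h2, hy1, one_mul]
  · right
    have hx2 : V x = 1 := by
      refine le_antisymm hx ?_
      by_contra hc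
      push Not at hc
      exact hxy ⟨hc, hy1⟩
    have e3 : V (3 * x ^ 2) = 1 := by rw [map_mul, map_pow, h3, hx2, one_pow, one_mul]
    rw [Valuation.map_sub_eq_of_lt_left, e3]
    rw [e3, map_mul]
    exact (mul_le_of_le_one_left' h1).trans_lt hy1

/-- JOB TC1. -/
theorem short_form (v : HeightOneSpectrum (𝓞 N)) (h2 : Valued.v (2 : v.adicCompletion N) = 1)
    (h3 : Valued.v (3 : v.adicCompletion N) = 1) (W : WeierstrassCurve N)
    (hc4 : (minModel W v).c₄ = 0) :
    ∃ e : (⟨0, 0, 0, 0, -(minModel W v).c₆ / 864⟩ :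
        WeierstrassCurve (v.adicCompletion N)).toAffine.Point ≃+ (minModel W v).toAffine.Point,
      ∀ (x y : v.adicCompletion N) (h : (⟨0, 0, 0, 0, -(minModel W v).c₆ / 864⟩ :
        WeierstrassCurve (v.adicCompletion N)).toAffine.Nonsingular x y),
        ¬ (Valued.v x < 1 ∧ Valued.v y < 1) → e (Affine.Point.some x y h) ∈ nonsing W v := by
  obtain ⟨Wi, hWi⟩ := ((inferInstance :
    WeierstrassCurve.IsIntegral (v.adicCompletionIntegers N) (minModel W v))).integral
  have hle : ∀ r : v.adicCompletionIntegers N,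
      Valued.v (algebraMap (v.adicCompletionIntegers N) (v.adicCompletion N) r) ≤
        (1 : ℤᵐ⁰) := fun r => r.2
  obtain ⟨e, he⟩ := tc1_general (Valued.v : Valuation (v.adicCompletion N) ℤᵐ⁰) h2 h3 (minModel W v)
    (by rw [hWi]; exact hle _) (by rw [hWi]; exact hle _) (by rw [hWi]; exact hle _)
    (by rw [hWi]; exact hle _) (by rw [hWi]; exact hle _) hc4
  refine ⟨e, fun x y h hxy => ?_⟩
  obtain ⟨x', y', h', e1, e2⟩ := he x y h hxy
  exact AddSubgroup.subset_closure (Or.inr ⟨x', y', h', e1, e2⟩)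

private theorem tc2_val (v : HeightOneSpectrum (𝓞 N)) (r : v.adicCompletionIntegers N) :
    (IsDiscreteValuationRing.maximalIdeal (v.adicCompletionIntegers N)).valuation
      (v.adicCompletion N) (algebraMap (v.adicCompletionIntegers N) (v.adicCompletion N) r) = 1 ↔
      Valued.v (r : v.adicCompletion N) = 1 := by
  have h1 := HeightOneSpectrum.valuation_lt_one_iff_mem (K := v.adicCompletion N)
    (IsDiscreteValuationRing.maximalIdeal (v.adicCompletionIntegers N)) r
  have h2 := HeightOneSpectrum.valuation_le_one (K := v.adicCompletion N)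
    (IsDiscreteValuationRing.maximalIdeal (v.adicCompletionIntegers N)) r
  have h3 : r ∈ (IsDiscreteValuationRing.maximalIdeal (v.adicCompletionIntegers N)).asIdeal ↔
      ¬ IsUnit r := IsLocalRing.mem_maximalIdeal r
  rw [HeightOneSpectrum.adicCompletionIntegers.isUnit_iff_valued_eq_one] at h3
  constructor
  · intro h
    by_contra h4
    exact absurd h (ne_of_lt (h1.2 (h3.2 h4)))
  · intro h
    refine le_antisymm h2 (not_lt.1 fun h4 => ?_)
    exact h3.1 (h1.1 h4) h

/-- minimality: no integral model with a smaller discriminant -/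
private theorem tc2_min (W : WeierstrassCurve N) (v : HeightOneSpectrum (𝓞 N))
    (j : VariableChange (v.adicCompletion N))
    (hj : WeierstrassCurve.IsIntegral (v.adicCompletionIntegers N) (j • minModel W v))
    (p : v.adicCompletionIntegers N) (hp : Valued.v (p : v.adicCompletion N) < 1)
    (hΔ : (minModel W v).Δ = algebraMap (v.adicCompletionIntegers N) (v.adicCompletion N) p ^ 12 *
      (j • minModel W v).Δ) (h0 : (minModel W v).Δ ≠ 0) : False := by
  have hmax := (minModel_isMinimal W v).val_Δ_maximal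
  have hp2 := HeightOneSpectrum.valuation_le_one (K := v.adicCompletion N)
    (IsDiscreteValuationRing.maximalIdeal (v.adicCompletionIntegers N)) p
  have hp1 := lt_of_le_of_ne hp2 (fun h => hp.ne ((tc2_val v p).1 h))
  set V := (IsDiscreteValuationRing.maximalIdeal (v.adicCompletionIntegers N)).valuation
    (v.adicCompletion N) with hV
  have h1 := hmax.2 (j := j) hj
  have e2 : (WeierstrassCurve.valuation_Δ_aux (v.adicCompletionIntegers N) (j • minModel W v) :
      WithZero (Multiplicative ℤ)) = V (j • minModel W v).Δ := by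
    rw [WeierstrassCurve.valuation_Δ_aux_eq_of_isIntegral]
  have e1 : (WeierstrassCurve.valuation_Δ_aux (v.adicCompletionIntegers N)
      ((1 : VariableChange (v.adicCompletion N)) • minModel W v) :
      WithZero (Multiplicative ℤ)) = V (minModel W v).Δ := by
    rw [one_smul, WeierstrassCurve.valuation_Δ_aux_eq_of_isIntegral]
  have e3 : V (minModel W v).Δ =
      V (algebraMap (v.adicCompletionIntegers N) (v.adicCompletion N) p) ^ 12 *
        V (j • minModel W v).Δ := by
    rw [hΔ, map_mul, map_pow]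
  have hj0 : V (j • minModel W v).Δ ≠ 0 := by
    intro h
    rw [h, mul_zero, map_eq_zero] at e3
    exact h0 e3
  have hlt : V (algebraMap (v.adicCompletionIntegers N) (v.adicCompletion N) p) ^ 12 < 1 :=
    pow_lt_one₀ zero_le hp1 (by norm_num)
  have hle : WeierstrassCurve.valuation_Δ_aux (v.adicCompletionIntegers N)
      ((1 : VariableChange (v.adicCompletion N)) • minModel W v) ≤
      WeierstrassCurve.valuation_Δ_aux (v.adicCompletionIntegers N) (j • minModel W v) := by
    rw [← Subtype.coe_le_coe, e1, e2, e3]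
    exact mul_le_of_le_one_left' hlt.le
  have h2 := h1 hle
  have h3 : V (j • minModel W v).Δ ≤ V (minModel W v).Δ := by
    rw [← e1, ← e2]
    exact h2
  rw [e3] at h3
  have h4 : V (algebraMap (v.adicCompletionIntegers N) (v.adicCompletion N) p) ^ 12 *
      V (j • minModel W v).Δ < 1 * V (j • minModel W v).Δ :=
    mul_lt_mul_of_pos_right hlt (zero_lt_iff.2 hj0)
  rw [one_mul] at h4
  exact absurd h3 (not_le.2 h4)

private theorem tc2_short {L : Type*} [Field L] [CharZero L] (M : WeierstrassCurve L)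
    (h : M.c₄ = 0) :
    (⟨1, -M.b₂ / 12, -M.a₁ / 2, M.a₁ * M.b₂ / 24 - M.a₃ / 2⟩ : VariableChange L) • M =
      ⟨0, 0, 0, 0, -M.c₆ / 864⟩ := by
  rw [variableChange_def]
  simp only [WeierstrassCurve.c₄, WeierstrassCurve.c₆, WeierstrassCurve.b₂, WeierstrassCurve.b₄,
    WeierstrassCurve.b₆] at h ⊢
  ext
  · simp only [inv_one, Units.val_one]
    ring
  · simp only [inv_one, Units.val_one]
    ring
  · simp only [inv_one, Units.val_one]
    ring
  · simp only [inv_one, Units.val_one]
    linear_combination (-1 / 48) * h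
  · simp only [inv_one, Units.val_one]
    ring

private theorem tc2_scale {L : Type*} [Field L] (u : Lˣ) (c : L) :
    (⟨u, 0, 0, 0⟩ : VariableChange L) • (⟨0, 0, 0, 0, c⟩ : WeierstrassCurve L) =
      ⟨0, 0, 0, 0, (u⁻¹ : Lˣ) ^ 6 * c⟩ := by
  rw [variableChange_def]
  ext <;> simp

private theorem tc2_c4 {om : N} (hom : om ^ 2 + om + 1 = 0) : (EC om).c₄ = 0 := by
  simp only [WeierstrassCurve.c₄, WeierstrassCurve.b₂, WeierstrassCurve.b₄]
  linear_combination 64 * hom

private theorem tc2_c6 {om : N} (hom : om ^ 2 + om + 1 = 0) : (EC om).c₆ = -24 * (-5 - om) := by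
  simp only [WeierstrassCurve.c₆, WeierstrassCurve.b₂, WeierstrassCurve.b₄, WeierstrassCurve.b₆]
  linear_combination (-512 * om - 256 - 216) * hom

private theorem tc2_units {om : N} (hom : om ^ 2 + om + 1 = 0) (v : HeightOneSpectrum (𝓞 N))
    (h : v.valuation N (om - 2) < 1) : v.valuation N 2 = 1 ∧ v.valuation N 3 = 1 := by
  have hint : ∀ n : ℤ, v.valuation N (n : N) ≤ 1 := by
    intro n
    have := HeightOneSpectrum.valuation_le_one (K := N) v (n : 𝓞 N)
    simpa using this
  have ho : v.valuation N om ≤ 1 := by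
    by_contra hc
    push Not at hc
    have h1 : v.valuation N (om + 1) ≤ v.valuation N om := by
      refine ((v.valuation N).map_add _ _).trans (max_le le_rfl ?_)
      rw [map_one]
      exact hc.le
    have h2 : om ^ 2 = -(om + 1) := by linear_combination hom
    have h3 : v.valuation N om ^ 2 ≤ v.valuation N om := by
      rw [← map_pow, h2, Valuation.map_neg]
      exact h1
    have h4 : v.valuation N om * 1 < v.valuation N om * v.valuation N om :=
      mul_lt_mul_of_pos_left hc (zero_lt_one.trans hc)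
    rw [mul_one, ← sq] at h4
    exact absurd h3 (not_le.2 h4)
  have h7 : v.valuation N 7 < 1 := by
    have e : (7 : N) = -((om - 2) * (om + 3)) := by linear_combination hom
    rw [e, Valuation.map_neg, map_mul]
    have h1 : v.valuation N (om + 3) ≤ 1 := by
      refine ((v.valuation N).map_add _ _).trans (max_le ho ?_)
      have := hint 3
      simpa using this
    calc v.valuation N (om - 2) * v.valuation N (om + 3)
        ≤ v.valuation N (om - 2) * 1 := mul_le_mul_right h1 _
      _ < 1 := by rwa [mul_one]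
  have key : ∀ a b : ℤ, 7 - a * b = 1 → v.valuation N (a : N) = 1 := by
    intro a b hab
    refine le_antisymm (hint a) (not_lt.1 fun hlt => ?_)
    have e : (1 : N) = 7 - (a : N) * b := by
      exact_mod_cast hab.symm
    have h1 : v.valuation N (7 - (a : N) * b) < 1 := by
      refine lt_of_le_of_lt ((v.valuation N).map_sub _ _) (max_lt h7 ?_)
      rw [map_mul]
      calc v.valuation N (a : N) * v.valuation N (b : N)
          ≤ v.valuation N (a : N) * 1 := mul_le_mul_right (hint b) _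
        _ < 1 := by rwa [mul_one]
    rw [← e, map_one] at h1
    exact lt_irrefl _ h1
  have k2 := key 2 3 (by norm_num)
  have k3 := key 3 2 (by norm_num)
  exact ⟨by simpa using k2, by simpa using k3⟩

/-- JOB TC2. -/
theorem min_c {om : N} (hom : om ^ 2 + om + 1 = 0) (v : HeightOneSpectrum (𝓞 N))
    (h : v.valuation N (om - 2) < 1) (hs : ¬ IsSquare (v.valuation N (-5 - om))) :
    Valued.v (2 : v.adicCompletion N) = 1 ∧ Valued.v (3 : v.adicCompletion N) = 1 ∧
      (minModel (EC om) v).c₄ = 0 ∧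
      (Valued.v (-(minModel (EC om) v).c₆ / 864) = exp (-1 : ℤ) ∨
        Valued.v (-(minModel (EC om) v).c₆ / 864) = exp (-3 : ℤ) ∨
        Valued.v (-(minModel (EC om) v).c₆ / 864) = exp (-5 : ℤ)) := by
  obtain ⟨k2, k3⟩ := tc2_units hom v h
  have hch : CharZero (v.adicCompletion N) :=
    charZero_of_injective_algebraMap (algebraMap N (v.adicCompletion N)).injective
  have v2 : Valued.v (2 : v.adicCompletion N) = 1 := by
    rw [← map_ofNat (algebraMap N (v.adicCompletion N)) 2, MP_1a91b9_nt.valued_algebraMap, k2]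
  have v3 : Valued.v (3 : v.adicCompletion N) = 1 := by
    rw [← map_ofNat (algebraMap N (v.adicCompletion N)) 3, MP_1a91b9_nt.valued_algebraMap, k3]
  have v864 : Valued.v (864 : v.adicCompletion N) = 1 := by
    have e : (864 : v.adicCompletion N) = 2 ^ 5 * 3 ^ 3 := by norm_num
    rw [e, map_mul, map_pow, map_pow, v2, v3, one_pow, one_pow, mul_one]
  have v36 : Valued.v (36 : v.adicCompletion N) = 1 := by
    have e : (36 : v.adicCompletion N) = 2 ^ 2 * 3 ^ 2 := by norm_num
    rw [e, map_mul, map_pow, map_pow, v2, v3, one_pow, mul_one]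
  have hc4 : (minModel (EC om) v).c₄ = 0 := by
    rw [minModel, variableChange_c₄, WeierstrassCurve.baseChange, map_c₄, tc2_c4 hom, map_zero,
      mul_zero]
  refine ⟨v2, v3, hc4, ?_⟩
  set C := minChange (EC om) v with hC
  set D : N := -5 - om with hD
  have hc6 : -(minModel (EC om) v).c₆ / 864 =
      ((C.u⁻¹ : (v.adicCompletion N)ˣ) : v.adicCompletion N) ^ 6 *
        algebraMap N (v.adicCompletion N) D / 36 := by
    rw [minModel, variableChange_c₆, WeierstrassCurve.baseChange, map_c₆, tc2_c6 hom, ← hC,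
      map_mul, map_neg, map_ofNat]
    ring
  -- values as powers
  have hD0 : v.valuation N D ≠ 0 := by
    intro h0
    exact hs ⟨0, by rw [h0, mul_zero]⟩
  have hu0 : Valued.v ((C.u⁻¹ : (v.adicCompletion N)ˣ) : v.adicCompletion N) ≠ 0 := by
    rw [Ne, map_eq_zero]
    exact Units.ne_zero _
  obtain ⟨A, hA⟩ : ∃ A : ℤ, Valued.v ((C.u⁻¹ : (v.adicCompletion N)ˣ) : v.adicCompletion N) =
      exp A := ⟨_, (exp_log hu0).symm⟩
  obtain ⟨B, hB⟩ : ∃ B : ℤ, v.valuation N D = exp B := ⟨_, (exp_log hD0).symm⟩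
  have hval : Valued.v (-(minModel (EC om) v).c₆ / 864) = exp (6 * A + B) := by
    rw [hc6, map_div₀, map_mul, map_pow, v36, div_one, hA, MP_1a91b9_nt.valued_algebraMap, hB,
      ← exp_nsmul, ← exp_add]
    congr 1
  have hodd : ¬ (2 : ℤ) ∣ B := by
    rintro ⟨b, hb⟩
    apply hs
    refine ⟨exp b, ?_⟩
    rw [hB, ← exp_add, hb]
    congr 1
    ring
  -- integrality
  have hMint : WeierstrassCurve.IsIntegral (v.adicCompletionIntegers N) (minModel (EC om) v) :=
    inferInstance
  have hle : 6 * A + B ≤ 0 := by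
    have h1 := integralModel_c₆_eq (v.adicCompletionIntegers N) (minModel (EC om) v)
    have h2 : Valued.v (minModel (EC om) v).c₆ ≤ 1 := by
      rw [← h1]
      exact (integralModel (v.adicCompletionIntegers N) (minModel (EC om) v)).c₆.2
    have h3 : Valued.v (-(minModel (EC om) v).c₆ / 864) ≤ 1 := by
      rw [map_div₀, v864, div_one, Valuation.map_neg]
      exact h2
    rw [hval, ← exp_zero, exp_le_exp] at h3
    exact h3
  have hge : -6 < 6 * A + B := by
    by_contra hcon
    push Not at hcon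
    obtain ⟨π, hπ⟩ := v.valuation_exists_uniformizer N
    have hπ' : Valued.v (algebraMap N (v.adicCompletion N) π) = exp (-1 : ℤ) := by
      rw [MP_1a91b9_nt.valued_algebraMap, hπ]
    have hπ0 : algebraMap N (v.adicCompletion N) π ≠ 0 := by
      intro h0
      rw [h0, map_zero] at hπ'
      exact exp_ne_zero hπ'.symm
    set c : v.adicCompletion N := -(minModel (EC om) v).c₆ / 864 with hc
    set P : (v.adicCompletion N)ˣ := Units.mk0 _ hπ0 with hP
    have hPinv : ((P⁻¹ : (v.adicCompletion N)ˣ) : v.adicCompletion N) =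
        (algebraMap N (v.adicCompletion N) π)⁻¹ := by
      rw [hP, Units.val_inv_eq_inv_val, Units.val_mk0]
    set C₀ : VariableChange (v.adicCompletion N) :=
      ⟨1, -(minModel (EC om) v).b₂ / 12, -(minModel (EC om) v).a₁ / 2,
        (minModel (EC om) v).a₁ * (minModel (EC om) v).b₂ / 24 - (minModel (EC om) v).a₃ / 2⟩ with hC₀
    have hj : ((⟨P, 0, 0, 0⟩ : VariableChange (v.adicCompletion N)) * C₀) • minModel (EC om) v =
        ⟨0, 0, 0, 0, ((P⁻¹ : (v.adicCompletion N)ˣ) : v.adicCompletion N) ^ 6 * c⟩ := by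
      rw [mul_smul, hC₀, tc2_short _ hc4, tc2_scale]
    have hcv : Valued.v (((P⁻¹ : (v.adicCompletion N)ˣ) : v.adicCompletion N) ^ 6 * c) ≤ 1 := by
      rw [hPinv, map_mul, map_pow, map_inv₀, hπ', hval, ← exp_neg, ← exp_nsmul, ← exp_add,
        ← exp_zero, exp_le_exp]
      simp only [neg_neg, mul_one, nsmul_eq_mul, Nat.cast_ofNat]
      omega
    have hp1 : Valued.v (algebraMap N (v.adicCompletion N) π) < 1 := by
      rw [hπ', ← exp_zero, exp_lt_exp]
      norm_num
    refine tc2_min (EC om) v ((⟨P, 0, 0, 0⟩ : VariableChange (v.adicCompletion N)) * C₀) ?_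
      ⟨algebraMap N (v.adicCompletion N) π, hp1.le⟩ hp1 ?_ ?_
    · rw [hj]
      exact isIntegral_of_exists_lift (v.adicCompletionIntegers N) ⟨0, map_zero _⟩ ⟨0, map_zero _⟩
        ⟨0, map_zero _⟩ ⟨0, map_zero _⟩ ⟨⟨_, hcv⟩, rfl⟩
    · rw [variableChange_Δ, VariableChange.mul_def]
      change (minModel (EC om) v).Δ = (algebraMap N (v.adicCompletion N) π) ^ 12 * _
      have hu : ((((⟨P, 0, 0, 0⟩ : VariableChange (v.adicCompletion N)).u * C₀.u)⁻¹ :
          (v.adicCompletion N)ˣ) : v.adicCompletion N) =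
          (algebraMap N (v.adicCompletion N) π)⁻¹ := by
        rw [hC₀, mul_one]
        exact hPinv
      rw [hu, inv_pow, mul_inv_cancel_left₀ (pow_ne_zero _ hπ0)]
    · intro h0
      have h1 := c_relation (minModel (EC om) v)
      rw [h0, hc4] at h1
      have h2 : (minModel (EC om) v).c₆ = 0 := by
        have h3 : (minModel (EC om) v).c₆ ^ 2 = 0 := by linear_combination h1
        exact pow_eq_zero_iff (two_ne_zero) |>.1 h3
      rw [hc, h2, neg_zero, zero_div, map_zero] at hval
      exact exp_ne_zero hval.symm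
  rw [hval]
  have hn : 6 * A + B = -1 ∨ 6 * A + B = -3 ∨ 6 * A + B = -5 := by
    omega
  rcases hn with h1 | h1 | h1
  · left
    rw [h1]
  · right
    left
    rw [h1]
  · right
    right
    rw [h1]

/-- JOB TC3. -/
theorem tam_coprime {om : N} (hom : om ^ 2 + om + 1 = 0)
    (hodd : ∀ v : HeightOneSpectrum (𝓞 N), v.valuation N (-5 - om) ≠ 1 →
      ¬ IsSquare (v.valuation N (-5 - om))) (v : HeightOneSpectrum (𝓞 N)) :
    (tam (EC om) v).Coprime 3 := by
  -- `om` is a unit
  have hom3 : om ^ 3 = 1 := by linear_combination (om - 1) * hom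
  have hv1 : v.valuation N om = 1 := by
    have h1 : v.valuation N om ^ 3 = 1 := by rw [← map_pow, hom3, map_one]
    exact (pow_eq_one_iff.1 h1).resolve_right (by norm_num)
  have hint : ∀ z : ℕ, v.valuation N (z : N) ≤ 1 := by
    intro z
    have h1 := v.valuation_le_one (K := N) (z : 𝓞 N)
    simpa using h1
  have hle : v.valuation N (om - 2) ≤ 1 := by
    refine (Valuation.map_sub _ _ _).trans (max_le hv1.le ?_)
    have h1 := hint 2
    exact_mod_cast h1
  rcases lt_or_eq_of_le hle with hlt | heq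
  · -- the places above seven
    have h3 : v.valuation N (3 : N) ≤ 1 := by
      have h1 := hint 3
      exact_mod_cast h1
    have hsq : v.valuation N (-5 - om) ^ 2 < 1 := by
      have h4 : (-5 - om) ^ 2 = -(3 * om ^ 2 * (om - 2) ^ 2) := by
        linear_combination (3 * om ^ 2 - 15 * om + 25 - 0) * hom
      rw [← map_pow, h4, Valuation.map_neg, map_mul, map_mul, map_pow, map_pow, hv1, one_pow,
        mul_one]
      calc v.valuation N 3 * v.valuation N (om - 2) ^ 2
          ≤ 1 * v.valuation N (om - 2) ^ 2 := mul_le_mul_left h3 _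
        _ = v.valuation N (om - 2) ^ 2 := one_mul _
        _ < 1 := pow_lt_one₀ zero_le hlt (by norm_num)
    have hne : v.valuation N (-5 - om) ≠ 1 := by
      intro h5
      rw [h5, one_pow] at hsq
      exact lt_irrefl _ hsq
    obtain ⟨h2, h3', hc4, hc⟩ := min_c hom v hlt (hodd v hne)
    obtain ⟨e, he⟩ := short_form v h2 h3' (EC om) hc4
    have h6 := index_coprime v h2 h3' _ hc rfl ((nonsing (EC om) v).comap e.toAddMonoidHom)
      (fun x y h h7 => he x y h h7)
    rw [AddSubgroup.index_comap_of_surjective _ e.surjective] at h6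
    exact h6
  · rw [tam_good3 hom v heq]
    exact Nat.coprime_one_left 3

end Pool.Agent.Lib.MP_1a91b9_ntT3.S9
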