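import Pool.Agent.Lib.MP_1a91b9_ntT.P.Lvalue
import Pool.Agent.Lib.MP_1a91b9_ntT3.Main
import Pool.Agent.Lib.MP_1a91b9_ntT3.S3.Lam2
import Pool.Agent.Lib.MP_1a91b9_ntT3.S9.Un
import Pool.Agent.Lib.MP_1a91b9_ntT3.S9.Sh
import Pool.Agent.Lib.MP_1a91b9_ntT3.S9.Pt
import Pool.Agent.Lib.MP_1a91b9_ntT3.S9.Tc
import Pool.Agent.Lib.MP_1a91b9_ntT3.S9.Nf
import Pool.Agent.Lib.MP_1a91b9_ntT3.S9.Pb
import Pool.Agent.Lib.MP_1a91b9_ntT3.S9.Ds

/-!
# The 3-part of the conjecture of Birch and Swinnerton-Dyer: assembly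
-/

set_option autoImplicit false

namespace Pool.Agent.Lib.MP_1a91b9_ntT3.S9

open NumberField IsDedekindDomain WeierstrassCurve Pool.Agent.Lib.MP_1a91b9_ntT
open Pool.Agent.Lib.MP_1a91b9_ntT.S9 (Sha tam normFactor period)
open scoped Classical

universe u

section val
variable {A : ValuationSubring ℂ}

theorem conj_above (hA : ((3 : ℕ) : ℂ)⁻¹ ∉ A) :
    ((3 : ℕ) : ℂ)⁻¹ ∉ A.comap (starRingEnd ℂ) := by
  rw [ValuationSubring.mem_comap, map_inv₀, Complex.conj_natCast]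
  exact hA

theorem val_normsq {y : ℂ} (h : A.valuation y = 1)
    (h' : (A.comap (starRingEnd ℂ)).valuation y = 1) :
    A.valuation ((‖y‖ ^ 2 : ℝ) : ℂ) = 1 := by
  rw [Complex.ofReal_pow, ← Complex.conj_mul', map_mul, Per.val_conj h', h, one_mul]

theorem val_of_pow {y : ℂ} {n : ℕ} (hn : n ≠ 0) (h : A.valuation (y ^ n) = 1) :
    A.valuation y = 1 := by
  rw [map_pow] at h
  exact (pow_eq_one_iff_of_nonneg zero_le hn).1 h

end val

theorem norm_kappa {κ : ℂ} (h : κ ^ 4 = -3 * Om ^ 4) : ‖κ‖ ^ 2 = √3 * ‖Om‖ ^ 2 := by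
  have h1 : (‖κ‖ ^ 2) ^ 2 = (√3 * ‖Om‖ ^ 2) ^ 2 := by
    rw [mul_pow, Real.sq_sqrt (by norm_num), ← pow_mul, ← pow_mul, ← norm_pow, ← norm_pow, h,
      norm_mul]
    norm_num
  exact (pow_left_inj₀ (by positivity) (by positivity) two_ne_zero).1 h1

theorem finrank_eq (F : Type u) [Field F] [NumberField F] [Algebra K F] {om' : F}
    (hom : om' ^ 2 + om' + 1 = 0) :
    Fintype.card (InfinitePlace F) = Module.finrank K F := by
  have h1 := card_places hom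
  have h2 : Module.finrank ℚ K * Module.finrank K F = Module.finrank ℚ F :=
    Module.finrank_mul_finrank ℚ K F
  rw [S3.finrank_K] at h2
  omega

/-- The 3-part of the conjecture of Birch and Swinnerton-Dyer. -/
theorem ppart3 (F : Type u) [Field F] [NumberField F] [Algebra K F]
    (h : TowerK3 F) : PPart 3 (E49 F) := by
  have hG : S5.Good F (algebraMap K F om) := S5.tower_good h
  have hE : E49 F = S5.EC (algebraMap K F om) := by
    simp only [E49, S5.EC, map_add, map_mul, map_one, map_ofNat]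
  obtain ⟨κ, hκ4, hκ0, hκ⟩ := s3l_main2
  obtain ⟨g, l, hg, hgs, hg1, hl⟩ := value3 cfProp hκ F h
  obtain ⟨hf, hcop⟩ := card_points3 hG
  have hsub : Subsingleton (ShaP 3 (S5.EC (algebraMap K F om))) := shaThree_trivial hG
  have hc : Nat.card (ShaP 3 (S5.EC (algebraMap K F om))) = 1 := card_shaThree hG
  obtain ⟨T, hT⟩ : ∃ T : ℕ, T = ∏ᶠ v : HeightOneSpectrum (𝓞 F),
    tam (S5.EC (algebraMap K F om)) v := ⟨_, rfl⟩
  have hTc : T.Coprime 3 := by
    rw [hT]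
    exact finprod_induction (p := fun n : ℕ => n.Coprime 3) (Nat.coprime_one_left 3)
      (fun _ _ => Nat.Coprime.mul_left) (tam_coprime hG.hom hG.odd)
  obtain ⟨Φ, hΦ⟩ : ∃ Φ : ℝ, Φ = ∏ᶠ v : HeightOneSpectrum (𝓞 F),
    normFactor (S5.EC (algebraMap K F om)) v := ⟨_, rfl⟩
  have hΦv : ∀ A : ValuationSubring ℂ, ((3 : ℕ) : ℂ)⁻¹ ∉ A → A.valuation (Φ : ℂ) = 1 := by
    intro A hA
    rw [hΦ]
    exact val_finprod3 hG.hom hA
  obtain ⟨A₀, hA₀⟩ := Ell.d3_exists Nat.prime_three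
  have hΦ0 : Φ ≠ 0 := by
    rintro rfl
    have := hΦv A₀ hA₀
    rw [Complex.ofReal_zero, map_zero] at this
    exact zero_ne_one this
  obtain ⟨C, hC⟩ : ∃ C : ℕ, C = Nat.card (S5.EC (algebraMap K F om)).toAffine.Point := ⟨_, rfl⟩
  rw [← hC] at hcop
  have h1z : ¬ Nat.Coprime 0 3 := by decide
  have hT0 : (T : ℝ) ≠ 0 := Nat.cast_ne_zero.2 fun h0 => h1z (h0 ▸ hTc)
  have hC0 : (C : ℝ) ≠ 0 := Nat.cast_ne_zero.2 fun h0 => h1z (h0 ▸ hcop)
  obtain ⟨n, hn⟩ : ∃ n : ℕ, n = Fintype.card (InfinitePlace F) := ⟨_, rfl⟩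
  have hnK : Module.finrank K F = n := by rw [hn, finrank_eq F hG.hom]
  have hnQ : Module.finrank ℚ F = 2 * n := by rw [hn, card_places hG.hom]
  obtain ⟨m, hm, hmD⟩ := discr3 hG.hom hG.unr n hnQ
  have hm0 : m ≠ 0 := fun h0 => h1z (h0 ▸ hm)
  rw [hnK] at hl
  have hκn : 0 < ‖κ‖ := norm_pos_iff.2 hκ0
  have hD : √|(discr F : ℝ)| = √3 ^ n * √(m : ℝ) := by
    have h1 : |(discr F : ℝ)| = ((3 ^ n * m : ℕ) : ℝ) := by
      rw [← hmD, Nat.cast_natAbs, Int.cast_abs]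
    rw [h1, Nat.cast_mul, Nat.cast_pow, Real.sqrt_mul (by positivity)]
    congr 1
    rw [Nat.cast_ofNat, Real.sqrt_eq_iff_mul_self_eq (by positivity) (by positivity), ← pow_two,
      ← pow_mul, mul_comm n 2, pow_mul, Real.sq_sqrt (by norm_num)]
  have hP := prod_perAt3 (N := F) hG.hom
  rw [← hn, ← norm_kappa hκ4] at hP
  obtain ⟨P, hPd⟩ : ∃ P : ℝ, P = (‖κ‖ ^ 2 / t7) ^ n := ⟨_, rfl⟩
  have ht7 := t7_pos
  have hP0 : P ≠ 0 := by
    rw [hPd]
    positivity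
  have hl0 : l ≠ 0 := by
    rintro rfl
    have := hl A₀ hA₀
    rw [zero_div, map_zero] at this
    exact zero_ne_one this
  obtain ⟨R, hR⟩ : ∃ R : ℝ, R = ‖l / κ ^ n‖ ^ 2 * (√3 * t7) ^ n * √(m : ℝ) := ⟨_, rfl⟩
  have hR0 : R ≠ 0 := by
    have h1 : 0 < ‖l / κ ^ n‖ := norm_pos_iff.2 (div_ne_zero hl0 (pow_ne_zero _ hκ0))
    have h2 : (0 : ℝ) < (m : ℝ) := by exact_mod_cast Nat.pos_of_ne_zero hm0
    rw [hR]
    positivity
  have hRg : ‖l‖ ^ 2 * √|(discr F : ℝ)| = R * P := by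
    rw [hR, hPd, hD, norm_div, norm_pow, div_pow, div_pow, mul_pow, ← pow_mul, ← pow_mul,
      mul_comm n 2]
    have h1 : ‖κ‖ ^ (2 * n) ≠ 0 := (pow_pos hκn _).ne'
    have h2 : t7 ^ n ≠ 0 := (pow_pos ht7 _).ne'
    field_simp
  have hRv : ∀ A : ValuationSubring ℂ, ((3 : ℕ) : ℂ)⁻¹ ∉ A → A.valuation (R : ℂ) = 1 := by
    intro A hA
    have h1 : A.valuation ((‖l / κ ^ n‖ ^ 2 : ℝ) : ℂ) = 1 :=
      val_normsq (hl A hA) (hl _ (conj_above hA))
    have h2 : A.valuation ((√3 * t7 : ℝ) : ℂ) = 1 := by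
      refine val_of_pow (n := 6) (by norm_num) ?_
      have h3 : (√3 * t7) ^ 6 = 7 := by
        have h4 : √3 ^ 6 = 27 := by
          rw [show (6 : ℕ) = 2 * 3 by norm_num, pow_mul, Real.sq_sqrt (by norm_num)]
          norm_num
        rw [mul_pow, h4, t7_pow]
      rw [← Complex.ofReal_pow, h3]
      have := val_nat3 hA (n := 7) (by norm_num)
      exact_mod_cast this
    have h5 : A.valuation ((√(m : ℝ) : ℝ) : ℂ) = 1 := by
      refine val_of_pow (n := 2) two_ne_zero ?_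
      rw [← Complex.ofReal_pow, Real.sq_sqrt (by positivity)]
      have := val_nat3 hA hm
      exact_mod_cast this
    rw [hR, Complex.ofReal_mul, Complex.ofReal_mul, Complex.ofReal_pow (√3 * t7), map_mul, map_mul,
      map_pow, h1, h2, h5, one_pow, one_mul, one_mul]
  rw [hE] at hgs ⊢
  refine ⟨g, R * (C : ℝ) ^ 2 / (T * Φ), hg, hgs, ?_, hf, Finite.of_subsingleton,
    unitAt_of_val Nat.prime_three (by positivity) fun A hA => ?_, ?_⟩
  · rw [hg1]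
    have h1 : ‖l‖ ^ 2 ≠ 0 := pow_ne_zero _ (norm_ne_zero_iff.2 hl0)
    exact_mod_cast h1
  · rw [Complex.ofReal_div, Complex.ofReal_mul, Complex.ofReal_mul, Complex.ofReal_pow,
      Complex.ofReal_natCast, Complex.ofReal_natCast, map_div₀, map_mul, map_mul, map_pow,
      hRv A hA, val_nat3 hA hcop, val_nat3 hA hTc, hΦv A hA]
    simp
  · have hper : period (S5.EC (algebraMap K F om)) = Φ * P := by
      rw [hΦ, hPd, ← hP]
      rfl
    rw [hg1, hper, hc, ← hT, ← hC, ← Complex.ofReal_mul, ← Complex.ofReal_div, hRg]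
    congr 1
    field_simp
    push_cast
    ring

end Pool.Agent.Lib.MP_1a91b9_ntT3.S9
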