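import Pool.Agent.Lib.MP_1a91b9_ntT3.S8.Trans
import Pool.Agent.Lib.MP_1a91b9_ntT3.Card3
import Pool.Agent.Lib.MP_1a91b9_ntT3.S9.Fin

/-!
# The results in an intrinsic form
-/

set_option autoImplicit false

namespace Pool.Agent.Lib.MP_1a91b9_ntT3.S9

open NumberField IsDedekindDomain WeierstrassCurve
open Pool.Agent.Lib.MP_1a91b9_ntT.S9 (Sha tam normFactor period)
open scoped Classical

universe u

theorem entire_unique {g g' : ℂ → ℂ} (hg : Differentiable ℂ g) (hg' : Differentiable ℂ g')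
    (h : ∀ s : ℂ, 3 / 2 < s.re → g s = g' s) : g = g' := by
  have h1 : AnalyticOnNhd ℂ g Set.univ := fun s _ => hg.analyticAt s
  have h2 : AnalyticOnNhd ℂ g' Set.univ := fun s _ => hg'.analyticAt s
  refine h1.eq_of_eventuallyEq h2 (z₀ := 3) ?_
  have ho : IsOpen {s : ℂ | 3 / 2 < s.re} := isOpen_lt continuous_const Complex.continuous_re
  filter_upwards [ho.mem_nhds (show (3 : ℂ) ∈ {s : ℂ | 3 / 2 < s.re} by norm_num)] with s hs
  exact h s hs

/-- The condition on the ramified primes in terms of the number of points. -/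
theorem noroot_of_card {K₀ : Type*} [Field K₀] [NumberField K₀] (w : 𝓞 K₀)
    (hw : w ^ 2 + w + 1 = 0) (q : HeightOneSpectrum (𝓞 K₀)) (h3 : (3 : 𝓞 K₀) ∉ q.asIdeal)
    (hpi : w - 2 ∉ q.asIdeal)
    (hc : ¬ 3 ∣ Nat.card (⟨0, 1 + 2 * Ideal.Quotient.mk q.asIdeal w, Ideal.Quotient.mk q.asIdeal w,
      -1, 0⟩ : WeierstrassCurve (𝓞 K₀ ⧸ q.asIdeal)).toAffine.Point)
    (t : 𝓞 K₀) : t ^ 2 - w * t + 1 ∉ q.asIdeal := by
  intro ht
  apply hc
  have hmax : q.asIdeal.IsMaximal := q.isMaximal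
  let _ : Field (𝓞 K₀ ⧸ q.asIdeal) := Ideal.Quotient.field q.asIdeal
  have hfin : Finite (𝓞 K₀ ⧸ q.asIdeal) := Ideal.finiteQuotientOfFreeOfNeBot _ q.ne_bot
  refine three_dvd_of_root (Ideal.Quotient.mk q.asIdeal w) (Ideal.Quotient.mk q.asIdeal t)
    ?_ ?_ ?_ ?_
  · rw [← map_pow, ← map_add, ← map_one (Ideal.Quotient.mk q.asIdeal), ← map_add, hw, map_zero]
  · intro h
    apply h3
    rw [← Ideal.Quotient.eq_zero_iff_mem, map_ofNat]
    exact h
  · intro h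
    apply hpi
    rw [← Ideal.Quotient.eq_zero_iff_mem, map_sub, map_ofNat]
    exact h
  · rw [← Ideal.Quotient.eq_zero_iff_mem] at ht
    rw [map_add, map_sub, map_pow, map_mul, map_one] at ht
    exact ht

/-- All the results of the tower, for any model of the base field. -/
theorem all_results (K F M : Type u) [Field K] [NumberField K] [Field F] [NumberField F]
    [Field M] [NumberField M] [Algebra K F] [Algebra K M] [Algebra F M] [IsScalarTower K F M]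
    [IsGalois K M] (hK : Module.finrank ℚ K = 2) (w : 𝓞 K) (hw : w ^ 2 + w + 1 = 0) (n : ℕ)
    (hM : Module.finrank K M = 3 ^ n)
    (hF : ∀ q : HeightOneSpectrum (𝓞 K), (∃ v : HeightOneSpectrum (𝓞 F),
      q.asIdeal.map (algebraMap (𝓞 K) (𝓞 F)) ≤ v.asIdeal ^ 2) → (3 : 𝓞 K) ∉ q.asIdeal ∧
        (w - 2 ∉ q.asIdeal → ¬ 3 ∣ Nat.card (⟨0, 1 + 2 * Ideal.Quotient.mk q.asIdeal w,
          Ideal.Quotient.mk q.asIdeal w, -1, 0⟩ :
            WeierstrassCurve (𝓞 K ⧸ q.asIdeal)).toAffine.Point))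
    (z : F) (hz : z = algebraMap K F w) :
    PPart 3 (⟨0, 1 + 2 * z, z, -1, 0⟩ : WeierstrassCurve F) ∧
      Nat.card (ShaP 3 (⟨0, 1 + 2 * z, z, -1, 0⟩ : WeierstrassCurve F)) = 1 ∧
      (∀ v : HeightOneSpectrum (𝓞 F),
        (tam (⟨0, 1 + 2 * z, z, -1, 0⟩ : WeierstrassCurve F) v).Coprime 3) ∧
      (Nat.card (⟨0, 1 + 2 * z, z, -1, 0⟩ : WeierstrassCurve F).toAffine.Point).Coprime 3 := by
  obtain ⟨a, ha, h⟩ := S8.tower_trans K F M hK w hw n hM fun q hq =>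
    ⟨(hF q hq).1, fun hpi => noroot_of_card w hw q (hF q hq).1 hpi ((hF q hq).2 hpi)⟩
  rw [← ha] at hz
  subst hz
  have hG : S5.Good F (algebraMap MP_1a91b9_ntT.K F MP_1a91b9_ntT.om) := S5.tower_good h
  have h1 := S9.ppart3 F h
  have hE : E49 F = S5.EC (algebraMap MP_1a91b9_ntT.K F MP_1a91b9_ntT.om) := by
    simp only [E49, S5.EC, map_add, map_mul, map_one, map_ofNat]
  rw [hE] at h1
  exact ⟨h1, S9.card_shaThree hG, S9.tam_coprime hG.hom hG.odd, (S9.card_points3 hG).2⟩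

end Pool.Agent.Lib.MP_1a91b9_ntT3.S9
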