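import Pool.Agent.Lib.MP_1a91b9_ntT.P.Unit
import Pool.Agent.Lib.MP_1a91b9_ntT3.S5.Defs

/-!
# JOB PA: the complex period of `y² + z y = x³ + (1 + 2 z) x² - x`, `z² + z + 1 = 0`

`X = x + (1 + 2 z) / 3`, `2 Y = 2 y + z`, `(2 Y)² = 4 X³ + d`, `d = (-5 - z) / 9`. For `4 X³ + d ≠ 0`
there are two `y`, `2 y + z = ± δ`, `δ² = 4 X³ + d`, so the sum over the `y` of `‖2 y + z‖^(-2)` is
`2 ‖4 X³ + d‖⁻¹`; if `4 X³ + d = 0` both sides are `0`. (See `fib_sum`, `fib_sum_zero`, `fib_C`,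
`perC_E` in `Pool/Agent/Lib/MP_1a91b9_ntT/P/Fib.lean`.) So `perC = ∫ 2 ‖4 (x + l/3)³ + d‖⁻¹ dx =
2 ∫ ‖4 x³ + d‖⁻¹ dx` (translation invariance). Let `a³ = d` (a complex cube root): `x = a u`:
`∫ ‖4 x³ + d‖⁻¹ dx = ‖a‖² ∫ ‖d‖⁻¹ ‖4 u³ + 1‖⁻¹ du = ‖a‖⁻¹ ∫ ‖4 u³ + 1‖⁻¹` (scaling of the Lebesgue
measure of `ℂ` by multiplication by `a`: e.g. `MeasureTheory.integral_comp_smul` for the real scaling by
`‖a‖` and the invariance under the rotation, or `integral_image_eq_integral_abs_det_fderiv_smul`, or the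
determinant of the linear map), and `integral_g` of `P/Area.lean`. `‖a‖³ = ‖d‖ = √21 / 9`
(`‖-5 - z‖² = 21` as `z` is one of the two primitive cube roots of unity), so `‖a‖⁶ = 7 / 27` and
`‖a‖ = t7`.
-/

set_option autoImplicit false

namespace Pool.Agent.Lib.MP_1a91b9_ntT3.S9

open NumberField MeasureTheory Pool.Agent.Lib.MP_1a91b9_ntT Pool.Agent.Lib.MP_1a91b9_ntT.Per

/-- The positive real number with `27 t⁶ = 7`. -/
noncomputable def t7 : ℝ := (7 / 27 : ℝ) ^ (1 / 6 : ℝ)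

theorem t7_pos : 0 < t7 := by
  unfold t7
  positivity

theorem t7_pow : 27 * t7 ^ 6 = 7 := by
  have h : t7 ^ 6 = 7 / 27 := by
    unfold t7
    rw [← Real.rpow_natCast, ← Real.rpow_mul (by norm_num)]
    norm_num
  rw [h]
  norm_num

theorem pa1_eq {z x y : ℂ} : (S5.EC z).toAffine.Equation x y ↔
    y ^ 2 + z * y = x ^ 3 + (1 + 2 * z) * x ^ 2 - x := by
  rw [WeierstrassCurve.Affine.equation_iff]
  show y ^ 2 + 0 * x * y + z * y = x ^ 3 + (1 + 2 * z) * x ^ 2 + -1 * x + 0 ↔ _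
  constructor <;> intro h <;> linear_combination h

theorem pa1_iff {z x y d : ℂ} (hz : z ^ 2 + z + 1 = 0)
    (hd : d ^ 2 = 4 * (x + (1 + 2 * z) / 3) ^ 3 + (-5 - z) / 9) :
    (S5.EC z).toAffine.Equation x y ↔ y = (-z + d) / 2 ∨ y = (-z - d) / 2 := by
  have hd2 : d ^ 2 = 4 * (x ^ 3 + (1 + 2 * z) * x ^ 2 - x) + z ^ 2 := by
    rw [hd]
    linear_combination (16 * x / 3 + (32 * z + 16) / 27 + 16 * 0 - 1) * hz
  rw [pa1_eq]
  constructor
  · intro h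
    have h1 : (2 * y + z - d) * (2 * y + z + d) = 0 := by linear_combination 4 * h - hd2
    rcases mul_eq_zero.1 h1 with h2 | h2
    · left
      linear_combination h2 / 2
    · right
      linear_combination h2 / 2
  · rintro (rfl | rfl)
    · linear_combination hd2 / 4
    · linear_combination hd2 / 4

/-- JOB PA1. -/
theorem fib_C3 {z : ℂ} (hz : z ^ 2 + z + 1 = 0) (x : ℂ) :
    ∑' y : {y : ℂ // (S5.EC z).toAffine.Equation x y},
      (‖2 * (y : ℂ) + (S5.EC z).a₁ * x + (S5.EC z).a₃‖ ^ 2)⁻¹ =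
        2 * ‖4 * (x + (1 + 2 * z) / 3) ^ 3 + (-5 - z) / 9‖⁻¹ := by
  classical
  show ∑' y : {y : ℂ // (S5.EC z).toAffine.Equation x y}, (‖2 * (y : ℂ) + 0 * x + z‖ ^ 2)⁻¹ = _
  obtain ⟨d, hd⟩ := IsAlgClosed.exists_pow_nat_eq
    (4 * (x + (1 + 2 * z) / 3) ^ 3 + (-5 - z) / 9) (n := 2) (by norm_num)
  rw [← hd]
  rcases eq_or_ne d 0 with h0 | h0
  · have h : ∀ y : {y : ℂ // (S5.EC z).toAffine.Equation x y},
        (‖2 * (y : ℂ) + 0 * x + z‖ ^ 2)⁻¹ = 0 := by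
      rintro ⟨y, hy⟩
      rw [pa1_iff hz hd, h0, add_zero, sub_zero, or_self] at hy
      show (‖2 * y + 0 * x + z‖ ^ 2)⁻¹ = 0
      have e : 2 * y + 0 * x + z = 0 := by rw [hy]; ring
      rw [e]
      norm_num
    rw [tsum_congr h, tsum_zero, h0]
    norm_num
  · have hne : (-z + d) / 2 ≠ (-z - d) / 2 := by
      intro h
      apply h0
      have h1 : (2 : ℂ) ≠ 0 := two_ne_zero
      have h2 := (div_left_inj' h1).1 h
      have h3 : 2 * d = 0 := by linear_combination h2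
      simpa using h3
    have e : {y : ℂ | (S5.EC z).toAffine.Equation x y} =
        (({(-z + d) / 2, (-z - d) / 2} : Finset ℂ) : Set ℂ) := by
      ext y
      rw [Finset.coe_pair, Set.mem_ofPred_eq, pa1_iff hz hd]
      rfl
    have key : ∑' y : ({y : ℂ | (S5.EC z).toAffine.Equation x y} : Set ℂ),
        (‖2 * (y : ℂ) + 0 * x + z‖ ^ 2)⁻¹ =
        (‖2 * ((-z + d) / 2) + 0 * x + z‖ ^ 2)⁻¹ + (‖2 * ((-z - d) / 2) + 0 * x + z‖ ^ 2)⁻¹ := by
      rw [e, Finset.tsum_subtype' _ (fun y : ℂ => (‖2 * y + 0 * x + z‖ ^ 2)⁻¹), Finset.sum_pair hne]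
    refine Eq.trans key ?_
    have e1 : 2 * ((-z + d) / 2) + 0 * x + z = d := by ring
    have e2 : 2 * ((-z - d) / 2) + 0 * x + z = -d := by ring
    rw [e1, e2, norm_neg, ← norm_pow, two_mul]

/-- JOB PA2. -/
theorem integral_scale (d : ℂ) (hd : d ≠ 0) (r : ℝ) (hr : 0 < r) (hrd : r ^ 3 = ‖d‖) :
    ∫ x : ℂ, ‖4 * x ^ 3 + d‖⁻¹ = r⁻¹ * ∫ x : ℂ, ‖4 * x ^ 3 + 1‖⁻¹ := by
  obtain ⟨a, ha⟩ := IsAlgClosed.exists_pow_nat_eq d (n := 3) (by norm_num)
  have har : ‖a‖ = r := by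
    have h1 : ‖a‖ ^ 3 = r ^ 3 := by rw [hrd, ← ha, norm_pow]
    exact (pow_left_inj₀ (norm_nonneg a) hr.le (by norm_num)).1 h1
  have ha0 : a ≠ 0 := by
    rintro rfl
    rw [norm_zero] at har
    exact hr.ne har
  have hnz : (‖a‖ : ℂ) ≠ 0 := by
    rw [har]
    exact_mod_cast hr.ne'
  have hw : ‖a / (‖a‖ : ℂ)‖ = 1 := by
    rw [norm_div, Complex.norm_real, norm_norm, div_self (norm_ne_zero_iff.2 ha0)]
  set w : Circle := ⟨a / (‖a‖ : ℂ), mem_sphere_zero_iff_norm.2 hw⟩ with hwdef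
  have hmp : MeasurePreserving (rotation w) (volume : Measure ℂ) volume :=
    (rotation w).measurePreserving
  have hme : MeasurableEmbedding (rotation w) := (rotation w).toHomeomorph.measurableEmbedding
  have h1 : ∫ u : ℂ, ‖4 * (r • (rotation w u)) ^ 3 + d‖⁻¹ = ∫ u : ℂ, ‖4 * (r • u) ^ 3 + d‖⁻¹ :=
    hmp.integral_comp hme (fun u : ℂ => ‖4 * (r • u) ^ 3 + d‖⁻¹)
  have h2 : ∫ u : ℂ, ‖4 * (r • u) ^ 3 + d‖⁻¹ = (r ^ 2)⁻¹ * ∫ x : ℂ, ‖4 * x ^ 3 + d‖⁻¹ := by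
    have := Measure.integral_comp_smul (volume : Measure ℂ) (fun x : ℂ => ‖4 * x ^ 3 + d‖⁻¹) r
    rw [this, Complex.finrank_real_complex, smul_eq_mul, abs_of_pos (by positivity)]
  have h3 : ∀ u : ℂ, ‖4 * (r • (rotation w u)) ^ 3 + d‖⁻¹ = (r ^ 3)⁻¹ * ‖4 * u ^ 3 + 1‖⁻¹ := by
    intro u
    have e : r • (rotation w u) = a * u := by
      rw [rotation_apply, Complex.real_smul]
      show (r : ℂ) * (a / (‖a‖ : ℂ) * u) = a * u
      rw [har]
      have : (r : ℂ) ≠ 0 := by exact_mod_cast hr.ne'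
      field_simp
    have e2 : 4 * (a * u) ^ 3 + d = d * (4 * u ^ 3 + 1) := by
      rw [← ha]; ring
    rw [e, e2, norm_mul, mul_inv, hrd]
  simp only [h3] at h1
  rw [integral_const_mul, h2] at h1
  have h4 : r ^ 2 ≠ 0 := by positivity
  have h5 : r ^ 3 ≠ 0 := by positivity
  have h6 : r ≠ 0 := hr.ne'
  field_simp at h1 ⊢
  linarith [h1]

theorem norm_D {z : ℂ} (hz : z ^ 2 + z + 1 = 0) : t7 ^ 3 = ‖(-5 - z) / 9‖ := by
  have hre := congrArg Complex.re hz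
  have him := congrArg Complex.im hz
  simp only [pow_two, Complex.add_re, Complex.mul_re, Complex.add_im, Complex.mul_im, Complex.one_re,
    Complex.one_im, Complex.zero_re, Complex.zero_im] at hre him
  have him2 : z.im * (2 * z.re + 1) = 0 := by linear_combination him
  have ha : z.re = -1 / 2 := by
    rcases mul_eq_zero.1 him2 with h | h
    · rw [h] at hre
      nlinarith [sq_nonneg (2 * z.re + 1)]
    · linarith
  have hb : z.im * z.im = 3 / 4 := by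
    rw [ha] at hre
    linarith
  have hn : ‖(-5 - z) / 9‖ ^ 2 = 7 / 27 := by
    rw [← Complex.normSq_eq_norm_sq, Complex.normSq_div, Complex.normSq_apply]
    have e1 : (-5 - z).re = -5 - z.re := by simp
    have e2 : (-5 - z).im = - z.im := by simp
    have e3 : Complex.normSq 9 = 81 := by
      rw [Complex.normSq_apply]; norm_num
    rw [e1, e2, e3, ha]
    have : -z.im * -z.im = 3 / 4 := by linarith
    rw [this]
    norm_num
  have ht : (t7 ^ 3) ^ 2 = 7 / 27 := by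
    have := t7_pow
    have e : (t7 ^ 3) ^ 2 = t7 ^ 6 := by ring
    rw [e]
    linarith
  have ht0 : 0 ≤ t7 ^ 3 := by
    have := t7_pos
    positivity
  exact (pow_left_inj₀ ht0 (norm_nonneg _) (by norm_num : (2:ℕ) ≠ 0)).1 (ht.trans hn.symm)

/-- JOB PA1. -/
theorem perC_E49 {z : ℂ} (hz : z ^ 2 + z + 1 = 0) :
    perC (S5.EC z) = Real.sqrt 3 / 2 * ‖Om‖ ^ 2 / t7 := by
  have hd : (-5 - z) / 9 ≠ 0 := by
    rw [← norm_ne_zero_iff, ← norm_D hz]
    have := t7_pos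
    positivity
  rw [perC]
  simp only [fib_C3 hz]
  rw [integral_const_mul]
  have h1 : ∫ x : ℂ, ‖4 * (x + (1 + 2 * z) / 3) ^ 3 + (-5 - z) / 9‖⁻¹ =
      ∫ x : ℂ, ‖4 * x ^ 3 + (-5 - z) / 9‖⁻¹ :=
    integral_add_right_eq_self (fun x : ℂ => ‖4 * x ^ 3 + (-5 - z) / 9‖⁻¹) _
  rw [h1, integral_scale _ hd t7 t7_pos (norm_D hz), integral_g]
  have := t7_pos.ne'
  field_simp
  try ring

end Pool.Agent.Lib.MP_1a91b9_ntT3.S9
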