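import Pool.Agent.Lib.MP_1a91b9_ntT3.S9.Tq

/-!
# JOB CFA: the function whose cube is `Y ∘ (1 - ω) - e`

`X = x + (1 + 2 z) / 3`, `Y = y + z / 2`, `c = (-5 - z) / 36 = e²`, `l = 1 + 2 z`, `l² = -3`,
`l³ = -3 l`. For `P = (X, Y)`, `X ≠ 0`: `mu P = P + (z X, - Y)`, slope `m = 2 Y / ((1 - z) X)` in the
coordinates `X`, `Y` (in the coordinates `x`, `y`, `a₁ = 0`, the slope is the same, `negY x y =
- y - z` i.e. `Y ↦ - Y`), `X(mu P) = m² - (1 + z) X = - (X³ + 4 c) / (3 z X²)`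
(`(1 - z)² = - 3 z`, `Y² = X³ + c`),
`Y(mu P) = - (m (X(mu P) - X) + Y) = - Y (X³ - 8 c) / (3 l X³)` (`z - z² = l`).
Then `Y(mu P) - e = ((Y + l e) / (l X))³` because
`- Y (X³ - 8 e²) - 3 l e X³ = - (Y³ + 3 l e Y² - 9 e² Y - 3 l e³) = - (Y + l e)³` with `X³ = Y² - e²`, and
`l³ = - 3 l`. (`P = 0` or `X = 0`: `mu P = 0`.)
-/

set_option autoImplicit false

namespace Pool.Agent.Lib.MP_1a91b9_ntT3.S9

open WeierstrassCurve Pool.Agent.Lib.MP_1a91b9_ntT.S9
open scoped Classical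

/-- The function `(Y + l e) / (l X)`, `l = 1 + 2 z`, `X = x + l / 3`, `Y = y + z / 2`. -/
noncomputable def cfn {F : Type*} [Field F] {W : Affine F} (z e : F) : W.Point → F
  | .zero => 0
  | .some x y _ => ((y + z / 2) + (1 + 2 * z) * e) / ((1 + 2 * z) * (x + (1 + 2 * z) / 3))

variable {F : Type*} [Field F] [CharZero F] {W : Affine F} {z : F}

private theorem cfa_eqn (h : IsE W z) {x y : F} (hn : W.Nonsingular x y) :
    (y + z / 2) ^ 2 = (x + (1 + 2 * z) / 3) ^ 3 + (-5 - z) / 36 := by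
  have hz := h.hz
  have h1 := (h.nons x y).1 hn
  linear_combination h1 + (1 / 4 - 4 / 3 * x - 8 / 27 * (z + 1 / 2)) * hz

omit [CharZero F] in
private theorem cfa_l (h : IsE W z) : (1 + 2 * z) ^ 2 = -3 := by
  have hz := h.hz
  linear_combination 4 * hz

private theorem cfa_l_ne (h : IsE W z) : 1 + 2 * z ≠ 0 := by
  intro h0
  have h1 := cfa_l h
  rw [h0] at h1
  norm_num at h1

private theorem cfa_z_ne (h : IsE W z) : z ≠ 0 := by
  intro h0
  have h1 := h.hz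
  rw [h0] at h1
  norm_num at h1

private theorem cfa_calc (hz : z ^ 2 + z + 1 = 0) (hz1 : 1 - z ≠ 0) (hz0 : z ≠ 0)
    (hl0 : 1 + 2 * z ≠ 0) {x y : F} (hX : x + (1 + 2 * z) / 3 ≠ 0)
    (hE : (y + z / 2) ^ 2 = (x + (1 + 2 * z) / 3) ^ 3 + (-5 - z) / 36) :
    ((y - (-y - 0 * (z * x + z ^ 2) - z)) / (x - (z * x + z ^ 2))) ^ 2
        + 0 * ((y - (-y - 0 * (z * x + z ^ 2) - z)) / (x - (z * x + z ^ 2)))
        - (1 + 2 * z) - x - (z * x + z ^ 2) + (1 + 2 * z) / 3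
      = -((x + (1 + 2 * z) / 3) ^ 3 + (-5 - z) / 9) / (3 * z * (x + (1 + 2 * z) / 3) ^ 2) ∧
    -(((y - (-y - 0 * (z * x + z ^ 2) - z)) / (x - (z * x + z ^ 2)))
          * (((y - (-y - 0 * (z * x + z ^ 2) - z)) / (x - (z * x + z ^ 2))) ^ 2
            + 0 * ((y - (-y - 0 * (z * x + z ^ 2) - z)) / (x - (z * x + z ^ 2)))
            - (1 + 2 * z) - x - (z * x + z ^ 2) - x) + y)
        - 0 * (((y - (-y - 0 * (z * x + z ^ 2) - z)) / (x - (z * x + z ^ 2))) ^ 2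
            + 0 * ((y - (-y - 0 * (z * x + z ^ 2) - z)) / (x - (z * x + z ^ 2)))
            - (1 + 2 * z) - x - (z * x + z ^ 2)) - z + z / 2
      = -((y + z / 2) * ((x + (1 + 2 * z) / 3) ^ 3 - 2 * (-5 - z) / 9)) /
        (3 * (1 + 2 * z) * (x + (1 + 2 * z) / 3) ^ 3) := by
  obtain ⟨A, hA⟩ : ∃ A : F, A = x + (1 + 2 * z) / 3 := ⟨_, rfl⟩
  obtain ⟨B, hB⟩ : ∃ B : F, B = y + z / 2 := ⟨_, rfl⟩
  obtain ⟨m, hm⟩ : ∃ m : F, m = (y - (-y - 0 * (z * x + z ^ 2) - z)) / (x - (z * x + z ^ 2)) := ⟨_, rfl⟩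
  have hden : x - (z * x + z ^ 2) = (1 - z) * A := by
    rw [hA]
    linear_combination (-1 / 3 : F) * hz
  have hmA : m * ((1 - z) * A) = 2 * B := by
    rw [← hA] at hX
    rw [hm, hden, hB]
    field_simp
    ring
  rw [← hm]
  rw [← hA] at hX hE ⊢
  rw [← hB] at hE ⊢
  have hx : x = A - (1 + 2 * z) / 3 := by linear_combination -hA
  have hy : y = B - z / 2 := by linear_combination -hB
  have h3 : (1 - z) ^ 2 = -3 * z := by linear_combination hz
  -- the square of the slope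
  have hm2 : m ^ 2 * (3 * z * A ^ 2) = -(4 * (A ^ 3 + (-5 - z) / 36)) := by
    have e1 : (m * ((1 - z) * A)) ^ 2 = (2 * B) ^ 2 := by rw [hmA]
    linear_combination -e1 - 4 * hE + (m ^ 2 * A ^ 2) * h3
  have hX' : m ^ 2 + 0 * m - (1 + 2 * z) - x - (z * x + z ^ 2) = m ^ 2 - (1 + z) * A - (1 + 2 * z) / 3 := by
    rw [hx]
    linear_combination (-1 / 3 : F) * hz
  have hd1 : (3 * z * A ^ 2) ≠ 0 := mul_ne_zero (mul_ne_zero three_ne_zero hz0) (pow_ne_zero 2 hX)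
  have hd2 : (3 * (1 + 2 * z) * A ^ 3) ≠ 0 := mul_ne_zero (mul_ne_zero three_ne_zero hl0) (pow_ne_zero 3 hX)
  have hd3 : (1 - z) * A ≠ 0 := mul_ne_zero hz1 hX
  rw [hX']
  refine ⟨?_, ?_⟩
  · rw [eq_div_iff hd1]
    linear_combination hm2 - 3 * A ^ 3 * hz
  · rw [eq_div_iff hd2, hx, hy]
    linear_combination (-3 * A ^ 3 * m ^ 3 + 3 * (2 + z) * A ^ 4 * m + 6 * A ^ 3 * B) * hz
      - (m * (1 - z) * A) * hm2
      + (4 * (A ^ 3 + (-5 - z) / 36) + 3 * (2 + z) * z * A ^ 3) * hmA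

private theorem cfa_z_one (h : IsE W z) : 1 - z ≠ 0 := by
  intro h0
  have h1 := h.hz
  have h2 : z = 1 := by linear_combination -h0
  rw [h2] at h1
  norm_num at h1


theorem mu_some (h : IsE W z) {x y : F} (hn : W.Nonsingular x y) (hX : x + (1 + 2 * z) / 3 ≠ 0) :
    ∃ (x' y' : F) (hn' : W.Nonsingular x' y'), mu h (.some x y hn) = .some x' y' hn' ∧
      x' + (1 + 2 * z) / 3 =
        -((x + (1 + 2 * z) / 3) ^ 3 + (-5 - z) / 9) / (3 * z * (x + (1 + 2 * z) / 3) ^ 2) ∧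
      y' + z / 2 = -((y + z / 2) * ((x + (1 + 2 * z) / 3) ^ 3 - 2 * (-5 - z) / 9)) /
        (3 * (1 + 2 * z) * (x + (1 + 2 * z) / 3) ^ 3) := by
  have hz := h.hz
  have ha1 : W.a₁ = 0 := by rw [h.eq]
  have ha2 : W.a₂ = 1 + 2 * z := by rw [h.eq]
  have ha3 : W.a₃ = z := by rw [h.eq]
  have hz1 := cfa_z_one h
  have hz0 := cfa_z_ne h
  have hl0 := cfa_l_ne h
  have hE := cfa_eqn h hn
  obtain ⟨hn2, hom⟩ := omP_some h x y hn
  have hne : x ≠ z * x + z ^ 2 := by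
    intro h0
    have h1 : (1 - z) * (x + (1 + 2 * z) / 3) = 0 := by
      linear_combination h0 + (1 / 3 : F) * hz
    exact hX ((mul_eq_zero.1 h1).resolve_left hz1)
  have hmu : mu h (.some x y hn) = Affine.Point.some x y hn + -Affine.Point.some (z * x + z ^ 2) y hn2 := by
    rw [mu_apply, hom, sub_eq_add_neg]
  rw [Affine.Point.neg_some, Affine.Point.add_of_X_ne hne] at hmu
  refine ⟨_, _, _, hmu, ?_, ?_⟩
  · rw [Affine.slope_of_X_ne hne, Affine.addX, Affine.negY, ha1, ha2, ha3]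
    exact (cfa_calc hz hz1 hz0 hl0 hX hE).1
  · rw [Affine.slope_of_X_ne hne, Affine.addY, Affine.negAddY, Affine.addX, Affine.negY, Affine.negY, ha1, ha2, ha3]
    exact (cfa_calc hz hz1 hz0 hl0 hX hE).2

theorem cfn_cube (h : IsE W z) (e : F) (he : 36 * e ^ 2 = -5 - z) (P : W.Point) {x y : F}
    (hn : W.Nonsingular x y) (hP : mu h P = .some x y hn) :
    cfn z e P ^ 3 = y + z / 2 - e := by
  have hz := h.hz
  have hl := cfa_l h
  have hl0 := cfa_l_ne h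
  cases P with
  | zero =>
    exfalso
    have h1 : mu h (Affine.Point.zero : W.Point) = 0 := map_zero (mu h)
    rw [h1] at hP
    exact Affine.Point.some_ne_zero hn hP.symm
  | some X Y hXY =>
    by_cases hX : X + (1 + 2 * z) / 3 = 0
    · exfalso
      have h1 : omP h (.some X Y hXY) = .some X Y hXY :=
        (omP_fixed h hXY).2 (by linear_combination 3 * hX)
      rw [mu_apply, h1, sub_self] at hP
      exact Affine.Point.some_ne_zero hn hP.symm
    · obtain ⟨x', y', hn', hmu, -, hy'⟩ := mu_some h hXY hX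
      rw [hmu] at hP
      injection hP with hx1 hy1
      have hE := cfa_eqn h hXY
      rw [← hy1, hy']
      show (((Y + z / 2) + (1 + 2 * z) * e) / ((1 + 2 * z) * (X + (1 + 2 * z) / 3))) ^ 3 = _
      generalize X + (1 + 2 * z) / 3 = A at *
      generalize Y + z / 2 = B at *
      have hc : (-5 - z) = 36 * e ^ 2 := he.symm
      rw [hc] at hE ⊢
      generalize 1 + 2 * z = l at *
      have hA3 : A ^ 3 = B ^ 2 - e ^ 2 := by linear_combination -hE
      have e1 : ((B + l * e) / (l * A)) ^ 3 = -(B + l * e) ^ 3 / (3 * l * A ^ 3) := by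
        rw [div_pow, div_eq_div_iff (pow_ne_zero 3 (mul_ne_zero hl0 hX))
          (mul_ne_zero (mul_ne_zero three_ne_zero hl0) (pow_ne_zero 3 hX))]
        linear_combination (B + l * e) ^ 3 * A ^ 3 * l * hl
      rw [e1, eq_sub_iff_add_eq, ← sub_eq_zero]
      have hd : (3 * l * A ^ 3) ≠ 0 := mul_ne_zero (mul_ne_zero three_ne_zero hl0) (pow_ne_zero 3 hX)
      field_simp
      linear_combination (27 * l * e + 9 * B) * hA3 + (-27 * B * e ^ 2 - 9 * l * e ^ 3) * hl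

end Pool.Agent.Lib.MP_1a91b9_ntT3.S9
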