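import Pool.Agent.Lib.MP_1a91b9_ntT3.S9.Cfa

/-!
# JOB CFB: the function `cfn` and the translation by the kernel

`X = x + (1 + 2 z) / 3`, `Y = y + z / 2`, `Y² = X³ + e²`, `l = 1 + 2 z`, `l² = -3`. Let `mu P ≠ 0`, so
`P = (X, Y)`, `X ≠ 0` (`mu_zero`, `omP_fixed`: `mu P = 0` iff `P = 0` or `X = 0`), `T = (0, e)`,
`Y ≠ ± e`. `P + T`: slope `m = (Y - e) / X`, `X(P + T) = m² - X = - 2 e (Y - e) / X²`
(`X³ = (Y - e) (Y + e)`), `Y(P + T) = - (m X(P + T) + e) = e (Y - 3 e) / (Y + e)`. Hence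
`cfn (P + T) = - ((1 + l) / 2) (Y + l e) / (l X) = z² cfn P`, as
`(Y - 3 e) + l (Y + e) = (1 + l) (Y + l e)`. For `R` in the kernel: `R = 0`, `R = T` or
`R = - T`; for `- T` use the case of `T` for `P - T` (`mu (P - T) = mu P ≠ 0`):
`cfn P = z² cfn (P - T)`, `cfn (P - T) = z cfn P`.
-/

set_option autoImplicit false

namespace Pool.Agent.Lib.MP_1a91b9_ntT3.S9

open WeierstrassCurve Pool.Agent.Lib.MP_1a91b9_ntT.S9
open scoped Classical

variable {F : Type*} [Field F] [CharZero F] {W : Affine F} {z : F}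

private theorem CFB_l_ne (h : IsE W z) : (1 + 2 * z : F) ≠ 0 := by
  intro hl
  have h3 : (3 : F) = 0 := by linear_combination 4 * h.hz - (1 + 2 * z) * hl
  norm_num at h3

private theorem CFB_cases (h : IsE W z) (P : W.Point) (hP : mu h P ≠ 0) :
    ∃ (x y : F) (hn : W.Nonsingular x y), P = .some x y hn ∧ x + (1 + 2 * z) / 3 ≠ 0 := by
  cases P with
  | zero =>
    exfalso
    exact hP (map_zero (mu h))
  | some x y hn =>
    refine ⟨x, y, hn, rfl, fun hX => hP ?_⟩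
    have h1 : 3 * x + (1 + 2 * z) = 0 := by linear_combination 3 * hX
    rw [mu_apply, (omP_fixed h hn).2 h1, sub_self]

private theorem CFB_add (h : IsE W z) (e : F) (he : 36 * e ^ 2 = -5 - z) {x y : F}
    (hn : W.Nonsingular x y) (hX : x + (1 + 2 * z) / 3 ≠ 0) :
    ∃ (x' y' : F) (hn' : W.Nonsingular x' y'),
      (.some x y hn : W.Point) + tq h e he = .some x' y' hn' ∧
      x' + (1 + 2 * z) / 3 =
        ((y + z / 2 - e) / (x + (1 + 2 * z) / 3)) ^ 2 - (x + (1 + 2 * z) / 3) ∧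
      y' + z / 2 = -((y + z / 2 - e) / (x + (1 + 2 * z) / 3) *
        (((y + z / 2 - e) / (x + (1 + 2 * z) / 3)) ^ 2 - 2 * (x + (1 + 2 * z) / 3)) +
          (y + z / 2)) := by
  have ha1 : W.a₁ = 0 := by rw [h.eq]
  have ha2 : W.a₂ = 1 + 2 * z := by rw [h.eq]
  have ha3 : W.a₃ = z := by rw [h.eq]
  have hx : x ≠ -(1 + 2 * z) / 3 := by
    intro hx
    apply hX
    rw [hx]
    ring
  have hm : (y - (e - z / 2)) / (x - -(1 + 2 * z) / 3) =
      (y + z / 2 - e) / (x + (1 + 2 * z) / 3) := by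
    congr 1 <;> ring
  refine ⟨_, _, _, Affine.Point.add_of_X_ne hx, ?_, ?_⟩
  · rw [Affine.slope_of_X_ne hx, Affine.addX, ha1, ha2, hm]
    ring
  · rw [Affine.slope_of_X_ne hx, Affine.addY, Affine.negAddY, Affine.negY, Affine.addX, ha1, ha2,
      ha3, hm]
    ring

private theorem CFB_alg (z e X Y m : F) (hz : z ^ 2 + z + 1 = 0) (he0 : e ≠ 0)
    (hl : (1 + 2 * z : F) ≠ 0) (hX : X ≠ 0) (hY : Y ^ 2 = X ^ 3 + e ^ 2) (hm : m * X = Y - e) :
    (-(m * (m ^ 2 - 2 * X) + Y) + (1 + 2 * z) * e) / ((1 + 2 * z) * (m ^ 2 - X)) =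
      z ^ 2 * ((Y + (1 + 2 * z) * e) / ((1 + 2 * z) * X)) := by
  have hD : Y - e ≠ 0 := by
    intro hD
    have h1 : X ^ 3 = 0 := by linear_combination (Y + e) * hD - hY
    exact hX (pow_eq_zero_iff (by norm_num) |>.1 h1)
  have hB : (m ^ 2 - X) * X ^ 2 = -2 * e * (Y - e) := by
    linear_combination (m * X + (Y - e)) * hm + hY
  have hA : (-(m * (m ^ 2 - 2 * X) + Y) + (1 + 2 * z) * e) * X ^ 3 =
      -2 * z ^ 2 * e * (Y + (1 + 2 * z) * e) * (Y - e) := by
    linear_combination (-(m ^ 2 * X ^ 2 + m * X * (Y - e) + (Y - e) ^ 2) + 2 * X ^ 3) * hm +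
      (-(2 * (Y - e) - Y + (1 + 2 * z) * e)) * hY +
      (e * (2 * Y + (4 * z - 2) * e) * (Y - e)) * hz
  have hB0 : m ^ 2 - X ≠ 0 := by
    intro h0
    rw [h0, zero_mul] at hB
    have h2 : (2 : F) ≠ 0 := two_ne_zero
    have h3 : 2 * e * (Y - e) = 0 := by linear_combination hB
    exact (mul_ne_zero (mul_ne_zero h2 he0) hD) h3
  have key : (-(m * (m ^ 2 - 2 * X) + Y) + (1 + 2 * z) * e) * X =
      z ^ 2 * (Y + (1 + 2 * z) * e) * (m ^ 2 - X) := by
    refine mul_right_cancel₀ (pow_ne_zero 2 hX) ?_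
    linear_combination hA - z ^ 2 * (Y + (1 + 2 * z) * e) * hB
  rw [← mul_div_assoc, div_eq_div_iff (mul_ne_zero hl hB0) (mul_ne_zero hl hX)]
  linear_combination (1 + 2 * z) * key

private theorem CFB_curve (h : IsE W z) (e : F) (he : 36 * e ^ 2 = -5 - z) {x y : F}
    (hn : W.Nonsingular x y) :
    (y + z / 2) ^ 2 = (x + (1 + 2 * z) / 3) ^ 3 + e ^ 2 := by
  have h1 := (h.nons x y).1 hn
  linear_combination h1 - (1 / 36 : F) * he + (1 / 4 : F) * 0 * h.hz +
    (1 / 4 - 4 / 3 * x - 4 / 27 * (1 + 2 * z)) * h.hz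

theorem cfn_add_tq (h : IsE W z) (e : F) (he : 36 * e ^ 2 = -5 - z) (P : W.Point)
    (hP : mu h P ≠ 0) : cfn z e (P + tq h e he) = z ^ 2 * cfn z e P := by
  obtain ⟨x, y, hn, rfl, hX⟩ := CFB_cases h P hP
  obtain ⟨x', y', hn', e1, e2, e3⟩ := CFB_add h e he hn hX
  rw [e1]
  change ((y' + z / 2) + (1 + 2 * z) * e) / ((1 + 2 * z) * (x' + (1 + 2 * z) / 3)) =
    z ^ 2 * (((y + z / 2) + (1 + 2 * z) * e) / ((1 + 2 * z) * (x + (1 + 2 * z) / 3)))
  rw [e2, e3]
  exact CFB_alg z e _ _ _ h.hz (h.e_ne he) (CFB_l_ne h) hX (CFB_curve h e he hn)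
    (div_mul_cancel₀ _ hX)

theorem cfn_add (h : IsE W z) (e : F) (he : 36 * e ^ 2 = -5 - z) (P R : W.Point)
    (hP : mu h P ≠ 0) (hR : mu h R = 0) : cfn z e (P + R) = ch h e he R * cfn z e P := by
  have hz3 : z ^ 3 = 1 := by linear_combination (z - 1) * h.hz
  rcases mu_ker_all h e he R hR with rfl | rfl | rfl
  · rw [add_zero, ch_zero, one_mul]
  · rw [cfn_add_tq h e he P hP]
    have h1 : ch h e he (tq h e he) = z ^ 2 := by
      rw [ch, if_neg (tq_ne h e he), if_pos rfl]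
    rw [h1]
  · have hP' : mu h (P + -tq h e he) ≠ 0 := by
      rw [map_add, map_neg, mu_tq, neg_zero, add_zero]
      exact hP
    have h2 := cfn_add_tq h e he (P + -tq h e he) hP'
    rw [neg_add_cancel_right] at h2
    have h1 : ch h e he (-tq h e he) = z := by
      have hne : -tq h e he ≠ 0 := neg_ne_zero.2 (tq_ne h e he)
      have hne2 : -tq h e he ≠ tq h e he := by
        intro h5
        have h6 := tq_add_self h e he
        rw [h5] at h6
        have h7 : tq h e he = 0 := by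
          have h8 : tq h e he + tq h e he = tq h e he + 0 := by rw [h6, add_zero]
          exact add_left_cancel h8
        exact tq_ne h e he h7
      rw [ch, if_neg hne, if_neg hne2]
    rw [h1, h2]
    linear_combination (-cfn z e (P + -tq h e he)) * hz3

end Pool.Agent.Lib.MP_1a91b9_ntT3.S9
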