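import Pool.Agent.Lib.MP_1a91b9_ntT3.S9.Cfa

/-!
# JOB NT: base change

`EC om` over `k`; for an extension `F` of `k` the curve `(EC om)_F` is `IsE` for the image of `om`.
Everything is compatible with `Affine.Point.map f` (`Affine.Point.map_some`): case split on the
point, `omP_some`. -/

set_option autoImplicit false

namespace Pool.Agent.Lib.MP_1a91b9_ntT3.S9

open WeierstrassCurve Pool.Agent.Lib.MP_1a91b9_ntT.S9
open scoped Classical

variable {k : Type*} [Field k] {om : k}

theorem isE_bc (hom : om ^ 2 + om + 1 = 0) (F : Type*) [Field F] [Algebra k F] :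
    IsE (Affine.baseChange (S5.EC om) F) (algebraMap k F om) := by
  constructor
  · have h2 : algebraMap k F (1 + 2 * om) = 1 + 2 * algebraMap k F om := by
      rw [map_add, map_mul, map_one, map_ofNat]
    have h3 : algebraMap k F (-1) = -1 := by rw [map_neg, map_one]
    change (WeierstrassCurve.map (S5.EC om) (algebraMap k F)) = _
    ext
    · exact map_zero _
    · exact h2
    · rfl
    · exact h3
    · exact map_zero _
  · rw [← map_pow, ← map_add, ← map_one (algebraMap k F), ← map_add, hom, map_zero]

theorem omP_map (hom : om ^ 2 + om + 1 = 0) {F F' : Type*} [Field F] [Field F'] [Algebra k F]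
    [Algebra k F'] (f : F →ₐ[k] F') (P : Pts (S5.EC om) F) :
    Affine.Point.map f (omP (isE_bc hom F) P) =
      omP (isE_bc hom F') (Affine.Point.map f P) := by
  have hf : f (algebraMap k F om) = algebraMap k F' om := f.commutes om
  cases P with
  | zero =>
    change Affine.Point.map f (omP (isE_bc hom F) 0) = omP (isE_bc hom F') (Affine.Point.map f 0)
    rw [map_zero, map_zero, map_zero]
  | some x y hn =>
    obtain ⟨h1, e1⟩ := omP_some (isE_bc hom F) x y hn
    rw [e1, Affine.Point.map_some, Affine.Point.map_some]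
    obtain ⟨h2, e2⟩ := omP_some (isE_bc hom F') (f x) (f y)
      ((Affine.baseChange_nonsingular (S5.EC om) f.injective x y).2 hn)
    rw [e2]
    congr 1
    rw [map_add, map_mul, map_pow, hf]

theorem mu_map (hom : om ^ 2 + om + 1 = 0) {F F' : Type*} [Field F] [Field F'] [CharZero F]
    [CharZero F'] [Algebra k F] [Algebra k F'] (f : F →ₐ[k] F') (P : Pts (S5.EC om) F) :
    Affine.Point.map f (mu (isE_bc hom F) P) = mu (isE_bc hom F') (Affine.Point.map f P) := by
  rw [mu_apply, mu_apply, map_sub, omP_map hom]

theorem tq_map (hom : om ^ 2 + om + 1 = 0) {F F' : Type*} [Field F] [Field F'] [CharZero F]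
    [CharZero F'] [Algebra k F] [Algebra k F'] (f : F →ₐ[k] F') (e : F)
    (he : 36 * e ^ 2 = -5 - algebraMap k F om)
    (he' : 36 * f e ^ 2 = -5 - algebraMap k F' om) :
    Affine.Point.map (W' := S5.EC om) f (tq (isE_bc hom F) e he) =
      tq (isE_bc hom F') (f e) he' := by
  have hf : f (algebraMap k F om) = algebraMap k F' om := f.commutes om
  rw [tq, tq, Affine.Point.map_some]
  congr 1
  · rw [map_div₀, map_neg, map_add, map_mul, hf, map_one, map_ofNat, map_ofNat]
  · rw [map_sub, map_div₀, hf, map_ofNat]

theorem cfn_map {F F' : Type*} [Field F] [Field F'] [Algebra k F] [Algebra k F'] (f : F →ₐ[k] F')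
    (e : F) (P : Pts (S5.EC om) F) :
    cfn (algebraMap k F' om) (f e) (Affine.Point.map f P) =
      f (cfn (algebraMap k F om) e P) := by
  have hf : f (algebraMap k F om) = algebraMap k F' om := f.commutes om
  cases P with
  | zero =>
    change cfn (algebraMap k F' om) (f e) (0 : Pts (S5.EC om) F') = f 0
    rw [map_zero]
    rfl
  | some x y hn =>
    rw [Affine.Point.map_some]
    change ((f y + algebraMap k F' om / 2) + (1 + 2 * algebraMap k F' om) * f e) /
      ((1 + 2 * algebraMap k F' om) * (f x + (1 + 2 * algebraMap k F' om) / 3)) =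
      f (((y + algebraMap k F om / 2) + (1 + 2 * algebraMap k F om) * e) /
        ((1 + 2 * algebraMap k F om) * (x + (1 + 2 * algebraMap k F om) / 3)))
    simp only [map_div₀, map_add, map_mul, map_one, map_ofNat, hf]

theorem ch_map (hom : om ^ 2 + om + 1 = 0) {F F' : Type*} [Field F] [Field F'] [CharZero F]
    [CharZero F'] [Algebra k F] [Algebra k F'] (f : F →ₐ[k] F') (e : F)
    (he : 36 * e ^ 2 = -5 - algebraMap k F om)
    (he' : 36 * f e ^ 2 = -5 - algebraMap k F' om) (P : Pts (S5.EC om) F) :
    ch (isE_bc hom F') (f e) he' (Affine.Point.map f P) = f (ch (isE_bc hom F) e he P) := by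
  have hf : f (algebraMap k F om) = algebraMap k F' om := f.commutes om
  have hinj : Function.Injective (Affine.Point.map (W' := S5.EC om) f) :=
    Affine.Point.map_injective f
  have htq := tq_map hom f e he he'
  rw [ch, ch]
  by_cases h0 : P = 0
  · rw [if_pos h0, if_pos (by rw [h0, map_zero]), map_one]
  · have h0' : Affine.Point.map (W' := S5.EC om) f P ≠ 0 := by
      intro h1
      exact h0 (hinj (h1.trans (map_zero _).symm))
    rw [if_neg h0, if_neg h0']
    by_cases h1 : P = tq (isE_bc hom F) e he
    · rw [if_pos h1, if_pos (by rw [h1, htq]), map_pow, hf]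
    · rw [if_neg h1, if_neg (fun h2 => h1 (hinj (h2.trans htq.symm))), hf]

end Pool.Agent.Lib.MP_1a91b9_ntT3.S9
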