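import Pool.Agent.Lib.MP_1a91b9_ntT.S9.MB
import Pool.Agent.Lib.MP_1a91b9_ntT3.S9.Kum
import Pool.Agent.Lib.MP_1a91b9_ntT3.S9.Nt

/-!
# The Kummer generator of a cocycle with values in the kernel of `1 - ω`

See `exists_kummer` in `Pool/Agent/Lib/MP_1a91b9_ntT/S9/MA.lean`: the same proof. `e ∈ A`. For
`σ ∈ Gal(kbar/A)` put `χ σ = ch (c (σ.restrictScalars k))`, an element `1`, `om` or `om²` (`ch_cases`)
of `k`, hence of `A` (choose the element of `A`). Multiplicative: `coc`, `ch_add`, and `ch_map` for the
automorphism `σ` with `σ e = e`: `ch (σ (c τ)) = σ (ch (c τ)) = ch (c τ)`. Trivial on an open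
subgroup (`exists_open`). `kummer_gen` over `A` gives `b`; `b³` is fixed by `Gal(kbar/A)`
(`ch_cube`), so it is in `A`.
-/

set_option autoImplicit false

namespace Pool.Agent.Lib.MP_1a91b9_ntT3.S9

open WeierstrassCurve Pool.Agent.Lib.MP_1a91b9_ntT.S9
open scoped Classical

private theorem ks_congr {F : Type*} [Field F] [CharZero F] {W : Affine F} {z : F} (h : IsE W z)
    {e e' : F} (hee : e = e') (he : 36 * e ^ 2 = -5 - z) (he' : 36 * e' ^ 2 = -5 - z)
    (P : W.Point) : ch h e he P = ch h e' he' P := by
  subst hee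
  rfl

private theorem ks_mem {k : Type*} [Field k] [CharZero k] {om : k} (hom : om ^ 2 + om + 1 = 0)
    (e : AlgebraicClosure k) (he : 36 * e ^ 2 = -5 - algebraMap k (AlgebraicClosure k) om)
    (A : IntermediateField k (AlgebraicClosure k)) (P : Pts (S5.EC om) (AlgebraicClosure k)) :
    ch (isE_bc hom (AlgebraicClosure k)) e he P ∈ A := by
  rcases ch_cases (isE_bc hom (AlgebraicClosure k)) e he P with h | h | h
  · rw [h]
    exact A.one_mem
  · rw [h]
    exact A.algebraMap_mem om
  · rw [h]
    exact pow_mem (A.algebraMap_mem om) 2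

theorem exists_kummer3 {k : Type*} [Field k] [CharZero k] {om : k} (hom : om ^ 2 + om + 1 = 0)
    (e : AlgebraicClosure k) (he : 36 * e ^ 2 = -5 - algebraMap k (AlgebraicClosure k) om)
    (c : Gal k → Pts (S5.EC om) (AlgebraicClosure k)) (hc : c ∈ coc (S5.EC om))
    (hmu : ∀ σ, mu (isE_bc hom (AlgebraicClosure k)) (c σ) = 0)
    (A : IntermediateField k (AlgebraicClosure k)) (hA : e ∈ A) :
    ∃ (b : AlgebraicClosure k) (α : A), b ≠ 0 ∧ (α : AlgebraicClosure k) = b ^ 3 ∧
      ∀ σ : Gal k, (∀ x : A, σ x = x) →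
        σ b = ch (isE_bc hom (AlgebraicClosure k)) e he (c σ) * b := by
  obtain ⟨M0, hM0, hM⟩ := exists_open (S5.EC om) c hc
  obtain ⟨s, hs⟩ := hM0.fg_top
  have hss : ∀ σ : Gal k, (∀ x ∈ s, σ (x : AlgebraicClosure k) = x) → ∀ x ∈ M0, σ x = x := by
    intro σ hσ x hx
    have h1 : (⟨x, hx⟩ : M0) ∈ Submodule.span k (s : Set M0) := by
      rw [hs]
      trivial
    have h2 : ∀ y ∈ Submodule.span k (s : Set M0), σ (y : AlgebraicClosure k) = y := by
      intro y hy
      induction hy using Submodule.span_induction with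
      | mem y hy => exact hσ y hy
      | zero => simp
      | add y z _ _ hy hz => simp [hy, hz]
      | smul r y _ hy => simp [Algebra.smul_def, hy]
    exact h2 _ h1
  let S0 : Set (AlgebraicClosure k) := Subtype.val '' (s : Set M0)
  have hfin : S0.Finite := Set.Finite.image _ s.finite_toSet
  have : Finite S0 := hfin
  have : FiniteDimensional A (IntermediateField.adjoin A S0) :=
    IntermediateField.finiteDimensional_adjoin fun x _ =>
      (Algebra.IsIntegral.isIntegral (R := k) x).tower_top
  set hE := isE_bc hom (AlgebraicClosure k) with hhE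
  -- the action of the automorphisms over `A` on the values of the character
  have hval : ∀ (σ : AlgebraicClosure k ≃ₐ[A] AlgebraicClosure k)
      (P : Pts (S5.EC om) (AlgebraicClosure k)),
      ch hE e he (Affine.Point.map ((σ.restrictScalars k : Gal k) : AlgebraicClosure k →ₐ[k] _) P)
        = ch hE e he P := by
    intro σ P
    have h1 : σ e = e := σ.commutes ⟨e, hA⟩
    have he' : 36 * (((σ.restrictScalars k : Gal k) :
        AlgebraicClosure k →ₐ[k] AlgebraicClosure k) e) ^ 2 =
        -5 - algebraMap k (AlgebraicClosure k) om := by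
      change 36 * (σ e) ^ 2 = _
      rw [h1]
      exact he
    have h2 := ch_map (F := AlgebraicClosure k) (F' := AlgebraicClosure k) hom
      ((σ.restrictScalars k : Gal k) : AlgebraicClosure k →ₐ[k] AlgebraicClosure k) e he he' P
    have h3 : ch hE (((σ.restrictScalars k : Gal k) :
        AlgebraicClosure k →ₐ[k] AlgebraicClosure k) e) he'
        (Affine.Point.map ((σ.restrictScalars k : Gal k) : AlgebraicClosure k →ₐ[k] _) P) =
        ch hE e he
        (Affine.Point.map ((σ.restrictScalars k : Gal k) : AlgebraicClosure k →ₐ[k] _) P) :=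
      ks_congr hE h1 he' he _
    rw [← h3, h2]
    exact σ.commutes ⟨ch hE e he P, ks_mem hom e he A P⟩
  have hker : ∀ (σ : AlgebraicClosure k ≃ₐ[A] AlgebraicClosure k)
      (P : Pts (S5.EC om) (AlgebraicClosure k)), mu hE P = 0 → mu hE
      (Affine.Point.map ((σ.restrictScalars k : Gal k) : AlgebraicClosure k →ₐ[k] _) P) = 0 := by
    intro σ P hP
    rw [hhE, ← mu_map hom, ← hhE, hP, _root_.map_zero]
  obtain ⟨b, hb0, hb⟩ := kummer_gen (k := A) (Ω := AlgebraicClosure k)
    (fun σ => ⟨ch hE e he (c (σ.restrictScalars k)), ks_mem hom e he A _⟩) (by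
      intro σ h0
      have h1 : ch hE e he (c (σ.restrictScalars k)) = 0 := congrArg Subtype.val h0
      have h2 := ch_cube hE e he (c (σ.restrictScalars k))
      rw [h1] at h2
      norm_num at h2) (by
      intro σ τ
      have h1 : c ((σ * τ).restrictScalars k) = c (σ.restrictScalars k) +
          Affine.Point.map ((σ.restrictScalars k : Gal k) : AlgebraicClosure k →ₐ[k] _)
            (c (τ.restrictScalars k)) :=
        hc.2 (σ.restrictScalars k) (τ.restrictScalars k)
      apply Subtype.ext
      change ch hE e he (c ((σ * τ).restrictScalars k)) =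
        ch hE e he (c (σ.restrictScalars k)) * ch hE e he (c (τ.restrictScalars k))
      rw [h1, ch_add hE e he _ _ (hmu _) (hker σ _ (hmu _)), hval]) (IntermediateField.adjoin A S0)
      (by
      intro σ hσ
      have h1 : c (σ.restrictScalars k) = 0 := by
        refine hM _ (hss _ ?_)
        intro x hx
        exact hσ x (IntermediateField.subset_adjoin A S0 ⟨x, hx, rfl⟩)
      apply Subtype.ext
      change ch hE e he (c (σ.restrictScalars k)) = 1
      rw [h1, ch_zero])
  have hbot : b ^ 3 ∈ (⊥ : IntermediateField A (AlgebraicClosure k)) := by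
    rw [InfiniteGalois.mem_bot_iff_fixed]
    intro f
    rw [_root_.map_pow, hb f, mul_pow]
    change ch hE e he (c (f.restrictScalars k)) ^ 3 * b ^ 3 = b ^ 3
    rw [ch_cube, one_mul]
  obtain ⟨α, hα⟩ := IntermediateField.mem_bot.1 hbot
  refine ⟨b, α, hb0, hα, ?_⟩
  intro σ hσ
  have h3 : ∀ x : A, σ.toRingEquiv (algebraMap A (AlgebraicClosure k) x) =
      algebraMap A (AlgebraicClosure k) x := hσ
  exact hb (AlgEquiv.ofRingEquiv h3)

end Pool.Agent.Lib.MP_1a91b9_ntT3.S9
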