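import Pool.Agent.Lib.MP_1a91b9_ntT3.S5.ImageA
import Pool.Agent.Lib.MP_1a91b9_nt.Residue

/-!
# JOB LT1, LT2: the Selmer condition at a place above three

LT1 (`image_gen`): the proof of `image_three` (`S5/ImageA.lean`) uses only the valuation
`V = v.valuation N`, the values of `3`, `2`, `om`, `D = - 5 - om`, and a ring homomorphism to a
field containing a square root `s` of `D`: copy it.
LT2 (`loc_three`): `v = below N w`, `V = Valued.v` on `N_v`: `image_gen` for `φ : N_v → M_w` gives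
`κ = φ (y + om / 2) - s / 6 = u'³ (φ a' + φ b' s)`, `V a' = 1`, `V b' < 1`; `κ ≠ 0`, `u' ≠ 0` as
`α ≠ 0`. So `α = (β u')³ (φ a' + φ b' s)`, `β u' ≠ 0`. `M` is dense in `M_w`: choose `u ∈ M` such that
`t = β u' / u` satisfies `v(t³ - 1) < exp (- ram)` (e.g. `v(u - β u') < v(β u') exp (- ram)`; then
`v(u) = v(β u')`, `v(t - 1) < exp (- ram)`, `v(t) = 1`, `t³ - 1 = (t - 1) (t² + t + 1)`).
`α / u³ = a + b s` with `a, b ∈ N` (`hQ.repr`); in `M_w` (`hφ1`):
`(a + b s) - (φ a' + φ b' s) = (t³ - 1) (φ a' + φ b' s)` has value `< exp (- ram)`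
(`v(φ a' + φ b' s) ≤ 1`, `v(s) ≤ 1`). For `X Y ∈ N_v`: `v(φ X + φ Y s) = max (v(φ X), v(φ Y s))`: if
`X`, `Y` are not both zero the values are different, since `v(φ X)² = (V(X)²)^ram`,
`v(φ Y s)² = (V(Y)² V(D))^ram`, `V(D) = exp (-1)` is not a square and `ram ≠ 0`. So
`v(φ (a - a')) < exp (- ram)`, `V(a - a')^ram < exp (-1)^ram`, `V(a - a') < exp (-1)`, `V a = 1`; and
`v(φ (b - b') s)² = (V(b - b')² exp (-1))^ram < exp (-2)^ram`, `V(b - b')² < exp (-1)`,
`V(b - b') < 1`, `V b < 1`. (`Valued.v (algebraMap N _ a) = v.valuation N a` is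
`MP_1a91b9_nt.valued_algebraMap`.)
-/

set_option autoImplicit false

namespace Pool.Agent.Lib.MP_1a91b9_ntT3.S9

open IsDedekindDomain NumberField WithZero Module S5
open Pool.Agent.Lib.MP_1a91b9_ntT.S5 (below ram Quad)

/-- JOB LT1. -/
theorem image_gen {N M : Type*} [Field N] [CharZero N] [Field M] [CharZero M] (φ : N →+* M)
    (V : Valuation N ℤᵐ⁰) {om : N} {s : M} (hom : om ^ 2 + om + 1 = 0)
    (hs : s ^ 2 = φ (-5 - om)) (hs0 : s ≠ 0) (hD : V (-5 - om) = exp (-1 : ℤ))
    (h3' : V 3 = exp (-2 : ℤ)) (h2' : V 2 = 1) (hom' : V om = 1)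
    (hl : V (1 + 2 * om) = exp (-1 : ℤ)) (x y : N)
    (hxy : y ^ 2 + om * y = x ^ 3 + (1 + 2 * om) * x ^ 2 - x) :
    ∃ (u : M) (a b : N), φ (y + om / 2) - s / 6 = u ^ 3 * (φ a + φ b * s) ∧ V a = 1 ∧
      V b < 1 := by
  have hs2 : s ^ 2 = φ (-5 - om) := hs
  have h6 : V 6 = exp (-2 : ℤ) := by
    rw [show (6 : N) = 2 * 3 by norm_num, map_mul, h2', h3', one_mul]
  have homh : V (om / 2) = 1 := by
    rw [map_div₀, hom', h2', div_one]
  have hl1 : V (1 + 2 * om) ≤ 1 := by
    rw [hl, ← exp_zero, exp_le_exp]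
    norm_num
  rcases le_or_gt (V x) 1 with hx | hx
  · have hy : V y ≤ 1 := by
      by_contra hc
      push Not at hc
      have h1 : V (om * y) < V (y ^ 2) := by
        rw [map_mul, hom', one_mul, map_pow, pow_two]
        exact lt_mul_of_one_lt_left (lt_trans zero_lt_one hc) hc
      have h2 : V (y ^ 2 + om * y) = V (y ^ 2) := Valuation.map_add_eq_of_lt_left V h1
      have h4 : V (x ^ 3 + (1 + 2 * om) * x ^ 2 - x) ≤ 1 := by
        refine Valuation.map_sub_le (v := V) (Valuation.map_add_le (v := V) ?_ ?_) hx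
        · rw [map_pow]
          exact pow_le_one₀ zero_le hx
        · rw [map_mul, map_pow]
          exact mul_le_one' hl1 (pow_le_one₀ zero_le hx)
      rw [← hxy, h2, map_pow] at h4
      exact absurd h4 (not_le.2 (one_lt_pow₀ hc two_ne_zero))
    have hY : V (y + om / 2) ≤ 1 := Valuation.map_add_le (v := V) hy homh.le
    refine ⟨s⁻¹, -(-5 - om) ^ 2 / 6, (-5 - om) * (y + om / 2), ?_, ?_, ?_⟩
    · rw [map_div₀, map_neg, map_pow, map_mul φ, ← hs2, map_ofNat]
      field_simp
      ring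
    · rw [map_div₀, Valuation.map_neg, map_pow, hD, h6, ← exp_nsmul]
      rw [show (2 : ℕ) • (-1 : ℤ) = -2 by norm_num]
      exact div_self exp_ne_zero
    · rw [map_mul, hD]
      calc exp (-1 : ℤ) * V (y + om / 2) ≤ exp (-1 : ℤ) * 1 := mul_le_mul' le_rfl hY
        _ < 1 := by
          rw [mul_one, ← exp_zero, exp_lt_exp]
          norm_num
  · have hx0' : V x ≠ 0 := (lt_trans zero_lt_one hx).ne'
    have hx0 : x ≠ 0 := by
      rintro rfl
      simp at hx0'
    have hx3 : V (x ^ 3 + (1 + 2 * om) * x ^ 2 - x) = V x ^ 3 := by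
      have h23 : V x ^ 2 < V x ^ 3 := pow_lt_pow_right₀ hx (by norm_num)
      have h13 : V x < V x ^ 3 := by
        calc V x = V x ^ 1 := (pow_one _).symm
          _ < V x ^ 3 := pow_lt_pow_right₀ hx (by norm_num)
      have h1 : V ((1 + 2 * om) * x ^ 2) < V (x ^ 3) := by
        rw [map_mul, map_pow, map_pow]
        calc V (1 + 2 * om) * V x ^ 2 ≤ 1 * V x ^ 2 := mul_le_mul' hl1 le_rfl
          _ = V x ^ 2 := one_mul _
          _ < V x ^ 3 := h23
      have h2 : V (x ^ 3 + (1 + 2 * om) * x ^ 2) = V (x ^ 3) :=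
        Valuation.map_add_eq_of_lt_left V h1
      rw [Valuation.map_sub_eq_of_lt_left V (by rw [h2, map_pow]; exact h13), h2, map_pow]
    have hy1 : 1 < V y := by
      by_contra hc
      push Not at hc
      have h1 : V (y ^ 2 + om * y) ≤ 1 := by
        refine Valuation.map_add_le (v := V) ?_ ?_
        · rw [map_pow]
          exact pow_le_one₀ zero_le hc
        · rw [map_mul, hom', one_mul]
          exact hc
      rw [hxy, hx3] at h1
      exact absurd h1 (not_le.2 (one_lt_pow₀ hx (by norm_num)))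
    have hy0 : y ≠ 0 := by
      rintro rfl
      simp at hy1
    have hyx : V y ^ 2 = V x ^ 3 := by
      have h1 : V (om * y) < V (y ^ 2) := by
        rw [map_mul, hom', one_mul, map_pow, pow_two]
        exact lt_mul_of_one_lt_left (lt_trans zero_lt_one hy1) hy1
      have h2 : V (y ^ 2 + om * y) = V (y ^ 2) := Valuation.map_add_eq_of_lt_left V h1
      rw [hxy, hx3, map_pow] at h2
      exact h2.symm
    obtain ⟨m, hm1, hm2⟩ := Pool.Agent.Lib.MP_1a91b9_ntT.S5.exists_of_sq_eq_cube hx0' hyx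
    have hm : 1 ≤ m := by
      rw [hm1, ← exp_zero, exp_lt_exp] at hx
      omega
    have hYv : V (y + om / 2) = exp (3 * m) := by
      rw [Valuation.map_add_eq_of_lt_left V (by rw [homh]; exact hy1), hm2]
    have he : V ((x / y) ^ 3) = exp (-(3 * m)) := by
      rw [map_pow, map_div₀, hm1, hm2, ← exp_sub, ← exp_nsmul]
      congr 1
      rw [nsmul_eq_mul]
      push_cast
      ring
    have hX0 : φ x ≠ 0 := (map_ne_zero _).mpr hx0
    have hY0 : φ y ≠ 0 := (map_ne_zero _).mpr hy0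
    refine ⟨φ (y / x), (x / y) ^ 3 * (y + om / 2), -((x / y) ^ 3 / 6), ?_, ?_, ?_⟩
    · rw [map_neg, map_mul φ, map_div₀ φ ((x / y) ^ 3) 6,
        map_pow, map_div₀ φ x y, map_div₀ φ y x,
        map_ofNat φ 6]
      field_simp
      ring
    · rw [map_mul, he, hYv, ← exp_add, neg_add_cancel, exp_zero]
    · rw [Valuation.map_neg, map_div₀, he, h6, ← exp_sub, ← exp_zero, exp_lt_exp]
      omega

variable {N M : Type*} [Field N] [NumberField N] [Field M] [NumberField M] [Algebra N M]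
  {om : N} {s : M} {σ : M ≃ₐ[N] M}

private theorem LT2_cases (a : ℤᵐ⁰) : a = 0 ∨ ∃ n : ℤ, a = exp n := by
  rcases eq_or_ne a 0 with h | h
  · exact Or.inl h
  · exact Or.inr ⟨log a, (exp_log h).symm⟩

private theorem LT2_parity {a b : ℤᵐ⁰} (h : a ^ 2 = b ^ 2 * exp (-1 : ℤ)) : a = 0 ∧ b = 0 := by
  rcases LT2_cases b with rfl | ⟨n, rfl⟩
  · rw [zero_pow two_ne_zero, zero_mul] at h
    exact ⟨(pow_eq_zero_iff two_ne_zero).1 h, rfl⟩
  · exfalso
    rcases LT2_cases a with rfl | ⟨k, rfl⟩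
    · rw [zero_pow two_ne_zero, ← exp_nsmul, ← exp_add] at h
      exact exp_ne_zero h.symm
    · rw [← exp_nsmul, ← exp_nsmul, ← exp_add, exp_inj] at h
      simp only [nsmul_eq_mul] at h
      push_cast at h
      omega

private theorem LT2_core {L L' : Type*} [Field L] [Field L'] (V : Valuation L ℤᵐ⁰)
    (V' : Valuation L' ℤᵐ⁰) (φ : L →+* L') (e : ℕ) (he : e ≠ 0) (hφ : ∀ x, V' (φ x) = V x ^ e)
    (D : L) (s : L') (hs : s ^ 2 = φ D) (hD : V D = exp (-1 : ℤ)) (A B : L)
    (h : V' (φ A + φ B * s) < exp (-1 : ℤ) ^ e) : V A < exp (-1 : ℤ) ∧ V B < 1 := by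
  have hb : V' (φ B * s) ^ 2 = (V B ^ 2 * exp (-1 : ℤ)) ^ e := by
    rw [← map_pow V', mul_pow, hs, ← map_pow φ, ← map_mul φ, hφ, map_mul, map_pow, hD]
  have ha : V' (φ A) ^ 2 = (V A ^ 2) ^ e := by
    rw [hφ, ← pow_mul, ← pow_mul, mul_comm]
  by_cases hab : V' (φ A) = V' (φ B * s)
  · rw [hab, hb] at ha
    have h1 := Pool.Agent.Lib.MP_1a91b9_ntT.S5.pow_left_inj' he ha
    obtain ⟨h2, h3⟩ := LT2_parity h1.symm
    rw [h2, h3]
    exact ⟨exp_pos, zero_lt_one⟩
  · rw [Valuation.map_add_of_distinct_val V' hab, max_lt_iff] at h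
    obtain ⟨h1, h2⟩ := h
    constructor
    · rw [hφ] at h1
      exact lt_of_pow_lt_pow_left₀ e zero_le h1
    · have h3 : V' (φ B * s) ^ 2 < (exp (-1 : ℤ) ^ e) ^ 2 := pow_lt_pow_left₀ h2 zero_le two_ne_zero
      rw [hb, ← pow_mul, mul_comm e 2, pow_mul] at h3
      have h4 := lt_of_pow_lt_pow_left₀ e zero_le h3
      by_contra hc
      push Not at hc
      have h5 : exp (-1 : ℤ) ^ 2 < V B ^ 2 * exp (-1 : ℤ) := by
        calc exp (-1 : ℤ) ^ 2 < exp (-1 : ℤ) := by
              rw [← exp_nsmul, exp_lt_exp]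
              norm_num
          _ = 1 * exp (-1 : ℤ) := (one_mul _).symm
          _ ≤ V B ^ 2 * exp (-1 : ℤ) := mul_le_mul' (one_le_pow₀ hc) le_rfl
      exact absurd h4 (not_lt.2 h5.le)

private theorem LT2_dense {M : Type*} [Field M] [NumberField M] (w : HeightOneSpectrum (𝓞 M))
    (γ : w.adicCompletion M) (hγ : γ ≠ 0) (n : ℤ) :
    ∃ u : M, Valued.v ((algebraMap M (w.adicCompletion M) u) ^ 3 - γ ^ 3) ≤
      Valued.v γ ^ 3 * exp n := by
  obtain ⟨c0, hc0⟩ := HeightOneSpectrum.valuedAdicCompletion_surjective M w (exp n)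
  set c : w.adicCompletion M := γ ^ 3 * c0 with hcdef
  have hc : Valued.v c = Valued.v γ ^ 3 * (exp n : ℤᵐ⁰) := by
    rw [hcdef, map_mul, map_pow, hc0]
  have hcne : (Valued.v c : ℤᵐ⁰) ≠ 0 := by
    rw [hc]
    exact mul_ne_zero (pow_ne_zero 3 ((Valuation.ne_zero_iff _).2 hγ)) exp_ne_zero
  have hO : IsOpen {y : w.adicCompletion M |
      Valued.v (y ^ 3 - γ ^ 3) ≤ (Valued.v c : WithZero (Multiplicative ℤ))} := by
    have h1 : IsOpen {x : w.adicCompletion M | Valued.v.restrict x ≤ Valued.v.restrict c} := by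
      apply Valued.isOpen_closedBall
      rw [Ne, Valuation.restrict_eq_zero_iff]
      exact hcne
    have h2 : Continuous fun y : w.adicCompletion M => y ^ 3 - γ ^ 3 := by fun_prop
    have h3 := h1.preimage h2
    convert h3 using 1
    ext y
    simp only [Set.mem_ofPred_eq, Set.mem_preimage, Valuation.restrict_le_iff]
  have hm : γ ∈ {y : w.adicCompletion M |
      Valued.v (y ^ 3 - γ ^ 3) ≤ (Valued.v c : WithZero (Multiplicative ℤ))} := by
    rw [Set.mem_ofPred_eq, sub_self, map_zero]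
    exact zero_le
  obtain ⟨a, ha⟩ := (HeightOneSpectrum.denseRange_algebraMap M w).exists_mem_open hO ⟨_, hm⟩
  refine ⟨a, ?_⟩
  rw [Set.mem_ofPred_eq, hc] at ha
  exact ha

/-- JOB LT2. -/
theorem loc_three (hom : om ^ 2 + om + 1 = 0) (hQ : Quad N M (-5 - om) s σ)
    (w : HeightOneSpectrum (𝓞 M)) (h3 : (below N w).valuation N 3 < 1)
    (hl : (below N w).valuation N (1 + 2 * om) = exp (-1 : ℤ))
    (φ : (below N w).adicCompletion N →+* w.adicCompletion M)
    (hφ1 : ∀ x : N, φ (algebraMap N _ x) = algebraMap M _ (algebraMap N M x))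
    (hφ : ∀ x, Valued.v (φ x) = (Valued.v x) ^ ram N w)
    (x y : (below N w).adicCompletion N)
    (hxy : y ^ 2 + algebraMap N _ om * y = x ^ 3 + (1 + 2 * algebraMap N _ om) * x ^ 2 - x)
    (β : w.adicCompletion M) (α : M) (hα0 : α ≠ 0)
    (hα : algebraMap M _ α = β ^ 3 * (φ (y + algebraMap N _ om / 2) - algebraMap M _ (s / 6))) :
    ∃ (u : M) (a b : N), α = u ^ 3 * (algebraMap N M a + algebraMap N M b * s) ∧
      (below N w).valuation N a = 1 ∧ (below N w).valuation N b < 1 := by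
  have hcN : CharZero ((below N w).adicCompletion N) :=
    charZero_of_injective_algebraMap (algebraMap N ((below N w).adicCompletion N)).injective
  have hcM : CharZero (w.adicCompletion M) :=
    charZero_of_injective_algebraMap (algebraMap M (w.adicCompletion M)).injective
  set V : Valuation ((below N w).adicCompletion N) ℤᵐ⁰ := Valued.v with hV
  set V' : Valuation (w.adicCompletion M) ℤᵐ⁰ := Valued.v with hV'
  have hVa : ∀ a : N, V (algebraMap N ((below N w).adicCompletion N) a) = (below N w).valuation N a := fun a =>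
    Pool.Agent.Lib.MP_1a91b9_nt.valued_algebraMap (below N w) a
  have hs6 : algebraMap M (w.adicCompletion M) (s / 6) = algebraMap M (w.adicCompletion M) s / 6 := by
    rw [map_div₀, map_ofNat]
  rw [hs6] at hα
  set s' : w.adicCompletion M := algebraMap M (w.adicCompletion M) s with hs'
  have hom' : (algebraMap N ((below N w).adicCompletion N) om) ^ 2 +
      algebraMap N ((below N w).adicCompletion N) om + 1 = 0 := by
    rw [← map_pow, ← map_add, ← map_one (algebraMap N ((below N w).adicCompletion N)), ← map_add,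
      hom, map_zero]
  have hDe : algebraMap N ((below N w).adicCompletion N) (-5 - om) =
      -5 - algebraMap N ((below N w).adicCompletion N) om := by
    rw [map_sub, map_neg, map_ofNat]
  have hs2 : s' ^ 2 = φ (-5 - algebraMap N ((below N w).adicCompletion N) om) := by
    rw [← hDe, hφ1, hs', ← map_pow, hQ.sq]
  have hs0 : s' ≠ 0 := (map_ne_zero _).2 hQ.ne
  obtain ⟨e3, e2, eo⟩ := val_three hom (below N w) hl
  have hD := val_D hom (below N w) h3 hl
  have gD : V (-5 - algebraMap N ((below N w).adicCompletion N) om) = exp (-1 : ℤ) := by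
    rw [← hDe, hVa, hD]
  have g3 : V 3 = exp (-2 : ℤ) := by
    rw [← map_ofNat (algebraMap N ((below N w).adicCompletion N)) 3, hVa, e3]
  have g2 : V 2 = 1 := by
    rw [← map_ofNat (algebraMap N ((below N w).adicCompletion N)) 2, hVa, e2]
  have go : V (algebraMap N ((below N w).adicCompletion N) om) = 1 := by rw [hVa, eo]
  have gl : V (1 + 2 * algebraMap N ((below N w).adicCompletion N) om) = exp (-1 : ℤ) := by
    rw [← hl, ← hVa]
    congr 1
    rw [map_add, map_mul, map_one, map_ofNat]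
  obtain ⟨u', a', b', hκ, ha', hb'⟩ := image_gen φ V hom' hs2 hs0 gD g3 g2 go gl x y hxy
  have he : ram N w ≠ 0 := (Pool.Agent.Lib.MP_1a91b9_ntT.S5.ram_pos N w).ne'
  have hφ' : ∀ z, V' (φ z) = V z ^ ram N w := fun z => hφ z
  -- the element
  rw [hκ, ← mul_assoc, ← mul_pow] at hα
  set γ : w.adicCompletion M := β * u' with hγdef
  have hαne : algebraMap M (w.adicCompletion M) α ≠ 0 := (map_ne_zero _).2 hα0
  have hγ : γ ≠ 0 := by
    intro h0
    rw [h0, zero_pow three_ne_zero, zero_mul] at hα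
    exact hαne hα
  obtain ⟨u, hu⟩ := LT2_dense w γ hγ (-(ram N w : ℤ) - 1)
  set U : w.adicCompletion M := algebraMap M (w.adicCompletion M) u with hU
  have hγ3 : V' γ ^ 3 ≠ 0 := pow_ne_zero 3 ((Valuation.ne_zero_iff _).2 hγ)
  have hlt1 : V' γ ^ 3 * exp (-(ram N w : ℤ) - 1) < V' γ ^ 3 * 1 := by
    refine mul_lt_mul_of_pos_left ?_ (zero_lt_iff.2 hγ3)
    rw [← exp_zero, exp_lt_exp]
    omega
  have hUγ : V' (U ^ 3) = V' γ ^ 3 := by
    have h1 : V' (U ^ 3 - γ ^ 3) < V' (γ ^ 3) := by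
      rw [map_pow V' γ 3]
      exact lt_of_le_of_lt hu (by rw [mul_one] at hlt1; exact hlt1)
    have h2 : U ^ 3 = γ ^ 3 + (U ^ 3 - γ ^ 3) := by ring
    rw [h2, Valuation.map_add_eq_of_lt_left V' h1, map_pow]
  have hU0 : U ≠ 0 := by
    rintro h0
    rw [h0, zero_pow three_ne_zero, map_zero] at hUγ
    exact hγ3 hUγ.symm
  have hu0 : u ≠ 0 := by
    rintro rfl
    exact hU0 (map_zero _)
  obtain ⟨a, b, hab⟩ := hQ.repr (α / u ^ 3)
  have hδ : V' (φ a' + φ b' * s') ≤ 1 := by
    have hs1 : V' s' ≤ 1 := by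
      have h1 : V' s' ^ 2 ≤ 1 := by
        rw [← map_pow, hs2, hφ', gD]
        refine pow_le_one₀ zero_le ?_
        rw [← exp_zero, exp_le_exp]
        norm_num
      by_contra hc
      push Not at hc
      exact absurd h1 (not_le.2 (one_lt_pow₀ hc two_ne_zero))
    refine Valuation.map_add_le (v := V') ?_ ?_
    · rw [hφ', ha', one_pow]
    · rw [map_mul, hφ']
      exact mul_le_one' (pow_le_one₀ zero_le hb'.le) hs1
  have hdiff : V' (φ (algebraMap N ((below N w).adicCompletion N) a - a') +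
      φ (algebraMap N ((below N w).adicCompletion N) b - b') * s') < exp (-1 : ℤ) ^ ram N w := by
    have e1 : φ (algebraMap N ((below N w).adicCompletion N) a - a') +
        φ (algebraMap N ((below N w).adicCompletion N) b - b') * s' =
        (γ ^ 3 - U ^ 3) / U ^ 3 * (φ a' + φ b' * s') := by
      have e2 : algebraMap M (w.adicCompletion M) (α / u ^ 3) =
          φ (algebraMap N ((below N w).adicCompletion N) a) +
            φ (algebraMap N ((below N w).adicCompletion N) b) * s' := by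
        rw [hab, map_add, map_mul, hφ1, hφ1]
      rw [map_div₀, map_pow, hα] at e2
      rw [map_sub φ, map_sub φ, div_mul_eq_mul_div, eq_div_iff (pow_ne_zero 3 hU0)]
      rw [div_eq_iff (pow_ne_zero 3 hU0)] at e2
      linear_combination -e2
    rw [e1, map_mul]
    refine lt_of_le_of_lt (mul_le_mul' le_rfl hδ) ?_
    rw [mul_one, map_div₀, hUγ, div_lt_iff₀ (zero_lt_iff.2 hγ3), ← neg_sub, Valuation.map_neg]
    refine lt_of_le_of_lt hu ?_
    rw [mul_comm (exp (-1 : ℤ) ^ ram N w)]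
    refine mul_lt_mul_of_pos_left ?_ (zero_lt_iff.2 hγ3)
    rw [← exp_nsmul, exp_lt_exp, nsmul_eq_mul]
    linarith
  obtain ⟨hA, hB⟩ := LT2_core V V' φ (ram N w) he hφ' _ s' hs2 gD _ _ hdiff
  refine ⟨u, a, b, ?_, ?_, ?_⟩
  · rw [← hab, mul_div_cancel₀ _ (pow_ne_zero 3 hu0)]
  · rw [← hVa]
    have h1 : V (algebraMap N ((below N w).adicCompletion N) a - a') < V a' := by
      rw [ha']
      refine hA.trans ?_
      rw [← exp_zero, exp_lt_exp]
      norm_num
    have h2 : algebraMap N ((below N w).adicCompletion N) a =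
        a' + (algebraMap N ((below N w).adicCompletion N) a - a') := by ring
    rw [h2, Valuation.map_add_eq_of_lt_left V h1, ha']
  · rw [← hVa]
    have h2 : algebraMap N ((below N w).adicCompletion N) b =
        b' + (algebraMap N ((below N w).adicCompletion N) b - b') := by ring
    rw [h2]
    exact Valuation.map_add_lt V hb' hB

end Pool.Agent.Lib.MP_1a91b9_ntT3.S9
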