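import Pool.Agent.Lib.MP_1a91b9_ntT3.S9.Lv
import Pool.Agent.Lib.MP_1a91b9_ntT3.S9.Lt

/-!
# JOB LF: the Selmer condition from the local conditions

`Sel`: `ne_zero`, `norm` given; `val` by `loc_val`; `three`: for a place `v` of `N` with `v(3) < 1` take
a place `w` of `M` above `v` (see `S5/Places.lean`, `S5/Gen.lean` of the first tower; e.g.
`exists_above` or similar), `below N w = v`, and `loc_three`.
-/

set_option autoImplicit false

namespace Pool.Agent.Lib.MP_1a91b9_ntT3.S9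

open IsDedekindDomain NumberField WithZero Module S5
open Pool.Agent.Lib.MP_1a91b9_ntT.S5 (below ram Quad)

universe u

theorem sel_of_local3 {N M : Type u} [Field N] [NumberField N] [Field M] [NumberField M]
    [Algebra N M] {om : N} {s : M} {σ : M ≃ₐ[N] M} (hG : Good N om)
    (hQ : Quad N M (-5 - om) s σ) (α : M) (h0 : α ≠ 0)
    (hn : ∃ g : N, α * σ α = algebraMap N M (g ^ 3))
    (hl : ∀ w : HeightOneSpectrum (𝓞 M), ∃ φ : (below N w).adicCompletion N →+*
      w.adicCompletion M, (∀ x : N, φ (algebraMap N _ x) = algebraMap M _ (algebraMap N M x)) ∧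
      (∀ x, Valued.v (φ x) = (Valued.v x) ^ ram N w) ∧
      ∃ (x y : (below N w).adicCompletion N) (β : w.adicCompletion M),
        y ^ 2 + algebraMap N _ om * y = x ^ 3 + (1 + 2 * algebraMap N _ om) * x ^ 2 - x ∧
        φ (y + algebraMap N _ om / 2) - algebraMap M _ (s / 6) ≠ 0 ∧
        algebraMap M _ α = β ^ 3 * (φ (y + algebraMap N _ om / 2) - algebraMap M _ (s / 6))) :
    Sel N s σ α := by
  refine ⟨h0, hn, ?_, ?_⟩
  · intro w
    obtain ⟨φ, hφ1, hφ, x, y, β, hxy, hne, hα⟩ := hl w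
    exact loc_val hG.hom hG.unr hG.odd hQ w φ hφ1 hφ x y hxy hne β α h0 hα
  · intro v hv
    obtain ⟨w, rfl⟩ := Pool.Agent.Lib.MP_1a91b9_ntT.S5.exists_above N M v
    obtain ⟨φ, hφ1, hφ, x, y, β, hxy, _, hα⟩ := hl w
    exact loc_three hG.hom hQ w hv (hG.unr _ hv) φ hφ1 hφ x y hxy β α h0 hα

end Pool.Agent.Lib.MP_1a91b9_ntT3.S9
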