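import Pool.Agent.Lib.MP_1a91b9_ntT3.S9.Tr
import Pool.Agent.Lib.MP_1a91b9_ntT3.S9.Cfb

/-!
# The local computation

See `local_main` in `Pool/Agent/Lib/MP_1a91b9_ntT/S9/LB.lean`: the same proof. `k ⊆ L ⊆ L'`,
`k ⊆ A ⊆ L'`, `A` embedded in `kbar` by `ι`, `e ∈ A`, `36 e² = - 5 - om`, `b³ = ι α` and
`σ b = ch (c σ) b` for the `σ` fixing `A`. Embedding `j : kbar → L'bar` with `j (ι a) = a`.
`transfer3`: `P`, `Q`, `mu P = Q`. `exists_shift3` with `T = tq e` over `L'`: `R`; `P' = P + R`,
`Q' = Q + mu R`: `mu P' = Q' ≠ 0`, `Q' ≠ tq e`, `j (c τ) = σ P' - P'`. `Q' = (x, y)`,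
`f = cfn om (j (ι e)) P'`: `f³ = y + om / 2 - e` (`cfn_cube`), not zero: otherwise `Y = e`,
`X³ = Y² - e² = 0`, and `Q' = tq e`. For `σ ∈ Gal L'` choose `τ` with `j (τ x) = σ (j x)`
(`exists_comp`); `τ` fixes `ι A`; `σ f = cfn (σ P') = cfn (P' + j (c τ)) = ch (j (c τ)) f =
j (ch (c τ)) f` (`cfn_map`, `cfn_add`, `ch_map`) and `σ (j b) = j (τ b) = j (ch (c τ)) j b`. So `j b / f`
is fixed, `= β ∈ L'` (`fixed_elem`), and `β³ (y + om / 2 - e) = α`.
-/

set_option autoImplicit false

namespace Pool.Agent.Lib.MP_1a91b9_ntT3.S9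

open WeierstrassCurve Pool.Agent.Lib.MP_1a91b9_ntT.S9
open scoped Classical

private theorem lm_exists_j {k L' A : Type*} [Field k] [Field L'] [Algebra k L']
    [Field A] [Algebra k A] [Algebra A L'] [IsScalarTower k A L'] (ι : A →ₐ[k] AlgebraicClosure k) :
    ∃ j : AlgebraicClosure k →ₐ[k] AlgebraicClosure L',
      ∀ a : A, j (ι a) = algebraMap L' (AlgebraicClosure L') (algebraMap A L' a) := by
  let _ : Algebra A (AlgebraicClosure k) := ι.toRingHom.toAlgebra
  have : IsScalarTower k A (AlgebraicClosure k) :=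
    IsScalarTower.of_algebraMap_eq fun x => (ι.commutes x).symm
  have : Algebra.IsAlgebraic A (AlgebraicClosure k) :=
    Algebra.IsAlgebraic.tower_top (K := k) A
  let j₀ : AlgebraicClosure k →ₐ[A] AlgebraicClosure L' := IsAlgClosed.lift
  refine ⟨j₀.restrictScalars k, fun a => ?_⟩
  have h1 : j₀ (algebraMap A (AlgebraicClosure k) a) = algebraMap A (AlgebraicClosure L') a :=
    j₀.commutes a
  exact h1

/-- the point of the curve over `F` with `Y = e` is `tq` -/
private theorem lm_tq {F : Type*} [Field F] [CharZero F] {W : Affine F} {z : F} (h : IsE W z)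
    (e : F) (he : 36 * e ^ 2 = -5 - z) {x y : F} (hn : W.Nonsingular x y)
    (hy : y + z / 2 - e = 0) : Affine.Point.some x y hn = tq h e he := by
  have hxy := (h.nons x y).1 hn
  have hz := h.hz
  have hY : y = e - z / 2 := by linear_combination hy
  have hX3 : (x + (1 + 2 * z) / 3) ^ 3 = 0 := by
    rw [hY] at hxy
    linear_combination (-1 : F) * hxy + (1 / 36 : F) * he +
      (4 / 3 * x - 1 / 4 + 4 / 27 + 8 / 27 * z) * hz
  have hX : x = -(1 + 2 * z) / 3 := by
    have h1 : x + (1 + 2 * z) / 3 = 0 := by simpa using hX3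
    linear_combination h1
  unfold tq
  congr 1

theorem local_main3 {k L L' A : Type*} [Field k] [CharZero k] {om : k} (hom : om ^ 2 + om + 1 = 0)
    [Field L] [CharZero L] [Algebra k L]
    [Field L'] [CharZero L'] [Algebra k L'] [Algebra L L'] [IsScalarTower k L L']
    [Field A] [Algebra k A] [Algebra A L'] [IsScalarTower k A L']
    (c : Gal k → Pts (S5.EC om) (AlgebraicClosure k)) (hc : c ∈ trivOver (S5.EC om) L)
    (hmu : ∀ σ, mu (isE_bc hom (AlgebraicClosure k)) (c σ) = 0) (e : A)
    (he : 36 * e ^ 2 = -5 - algebraMap k A om) (ι : A →ₐ[k] AlgebraicClosure k)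
    (he' : 36 * ι e ^ 2 = -5 - algebraMap k (AlgebraicClosure k) om)
    (b : AlgebraicClosure k) (hb0 : b ≠ 0) (α : A) (hα : ι α = b ^ 3)
    (hb : ∀ σ : Gal k, (∀ x : A, σ (ι x) = ι x) →
      σ b = ch (isE_bc hom (AlgebraicClosure k)) (ι e) he' (c σ) * b) :
    ∃ (x y : L) (β : L'),
      y ^ 2 + algebraMap k L om * y =
        x ^ 3 + (1 + 2 * algebraMap k L om) * x ^ 2 - x ∧
      algebraMap L L' (y + algebraMap k L om / 2) - algebraMap A L' e ≠ 0 ∧
      algebraMap A L' α =
        β ^ 3 * (algebraMap L L' (y + algebraMap k L om / 2) - algebraMap A L' e) := by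
  obtain ⟨j, hj⟩ := lm_exists_j (L' := L') ι
  obtain ⟨P, Q, hPQ, hP⟩ := transfer3 (L := L) hom c hc hmu j
  have heL : 36 * algebraMap A L' e ^ 2 = -5 - algebraMap k L' om := by
    have h1 := congrArg (algebraMap A L') he
    rw [map_mul, map_pow, map_sub, map_neg, map_ofNat, map_ofNat,
      ← IsScalarTower.algebraMap_apply k A L'] at h1
    exact h1
  obtain ⟨R, hR0, hRT⟩ := exists_shift3 (L' := L') hom Q
    (tq (isE_bc hom L') (algebraMap A L' e) heL)
  set U := up (S5.EC om) L' (AlgebraicClosure L') with hU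
  set V := up (S5.EC om) L L' with hV
  set P' := P + U (V R) with hP'
  have hmV : V (mu (isE_bc hom L) R) = mu (isE_bc hom L') (V R) :=
    mu_map hom (IsScalarTower.toAlgHom k L L') R
  have hmU : U (mu (isE_bc hom L') (V R)) = mu (isE_bc hom (AlgebraicClosure L')) (U (V R)) :=
    mu_map hom (IsScalarTower.toAlgHom k L' (AlgebraicClosure L')) (V R)
  have hPP : mu (isE_bc hom (AlgebraicClosure L')) P' = U (V (Q + mu (isE_bc hom L) R)) := by
    rw [hP', map_add, map_add V, map_add U, hmV, hmU, ← hPQ]
  -- coordinates of `Q'`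
  obtain ⟨Q', hQ'⟩ : ∃ Q', Q' = Q + mu (isE_bc hom L) R := ⟨_, rfl⟩
  rw [← hQ'] at hPP hR0 hRT
  cases Q' with
  | zero => exact absurd rfl hR0
  | some x y h =>
    have hne : mu (isE_bc hom (AlgebraicClosure L')) P' ≠ 0 := by
      rw [hPP]
      intro h0
      exact Affine.Point.some_ne_zero _ h0
    obtain ⟨hn1, hVQ⟩ : ∃ hn1, V (Affine.Point.some x y h) = Affine.Point.some (algebraMap L L' x)
        (algebraMap L L' y) hn1 := ⟨_, rfl⟩
    obtain ⟨hn2, hUV⟩ : ∃ hn2, U (V (Affine.Point.some x y h)) = Affine.Point.some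
        (algebraMap L' (AlgebraicClosure L') (algebraMap L L' x))
        (algebraMap L' (AlgebraicClosure L') (algebraMap L L' y)) hn2 := ⟨_, rfl⟩
    have hje : 36 * j (ι e) ^ 2 = -5 - algebraMap k (AlgebraicClosure L') om := by
      have h1 := congrArg j he'
      rw [map_mul, map_pow, map_sub, map_neg, map_ofNat, map_ofNat, j.commutes] at h1
      exact h1
    set f := cfn (algebraMap k (AlgebraicClosure L') om) (j (ι e)) P' with hf
    have hcube : f ^ 3 = algebraMap L' (AlgebraicClosure L') (algebraMap L L' y) +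
        algebraMap k (AlgebraicClosure L') om / 2 - j (ι e) :=
      cfn_cube (isE_bc hom (AlgebraicClosure L')) (j (ι e)) hje P' hn2 (hPP.trans hUV)
    have hYL : algebraMap L L' (y + algebraMap k L om / 2) =
        algebraMap L L' y + algebraMap k L' om / 2 := by
      rw [map_add, map_div₀, map_ofNat, ← IsScalarTower.algebraMap_apply k L L']
    have hcube' : f ^ 3 = algebraMap L' (AlgebraicClosure L')
        (algebraMap L L' (y + algebraMap k L om / 2) - algebraMap A L' e) := by
      rw [hcube, hYL, map_sub, map_add, map_div₀, map_ofNat,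
        ← IsScalarTower.algebraMap_apply k L' (AlgebraicClosure L'), hj]
    have hYne : algebraMap L L' (y + algebraMap k L om / 2) - algebraMap A L' e ≠ 0 := by
      intro h0
      apply hRT
      rw [hVQ]
      apply lm_tq
      rw [hYL] at h0
      exact h0
    have hf0 : f ≠ 0 := by
      intro h0
      rw [h0, zero_pow three_ne_zero] at hcube'
      exact hYne ((map_eq_zero _).1 hcube'.symm)
    -- the Galois action
    have hfix : ∀ σ : Gal L', σ (j b / f) = j b / f := by
      intro σ
      obtain ⟨τ, hτ⟩ := exists_comp j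
        ((((σ : AlgebraicClosure L' →ₐ[L'] AlgebraicClosure L')).restrictScalars k).comp j)
      have hτ' : ∀ z, j (τ z) = σ (j z) := fun z => (hτ z).symm
      have hτι : ∀ z : A, τ (ι z) = ι z := by
        intro z
        apply j.injective
        show j (τ (ι z)) = j (ι z)
        rw [hτ', hj, σ.commutes]
      have hcτ := hP σ τ hτ'
      set S := Affine.Point.map (W' := S5.EC om)
        ((σ : AlgebraicClosure L' →ₐ[L'] AlgebraicClosure L').restrictScalars k) with hS
      have hSP' : S P' = P' + Affine.Point.map j (c τ) := by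
        have hSU : S (U (V R)) = U (V R) := by
          rw [hS, hU]
          show Affine.Point.map _ (Affine.Point.map _ _) = _
          rw [Affine.Point.map_map]
          have hcomp : ((σ : AlgebraicClosure L' →ₐ[L'] AlgebraicClosure L').restrictScalars k).comp
              (IsScalarTower.toAlgHom k L' (AlgebraicClosure L')) =
              IsScalarTower.toAlgHom k L' (AlgebraicClosure L') :=
            AlgHom.ext fun z => σ.commutes z
          rw [hcomp]
        rw [hP', map_add, hSU, hcτ]
        abel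
      have hTT : mu (isE_bc hom (AlgebraicClosure L'))
          (Affine.Point.map (W' := S5.EC om) j (c τ)) = 0 := by
        rw [← mu_map hom j (c τ), hmu, map_zero]
      have hch : ch (isE_bc hom (AlgebraicClosure L')) (j (ι e)) hje
          (Affine.Point.map (W' := S5.EC om) j (c τ)) =
          j (ch (isE_bc hom (AlgebraicClosure k)) (ι e) he' (c τ)) :=
        ch_map hom j (ι e) he' hje (c τ)
      set χ := ch (isE_bc hom (AlgebraicClosure k)) (ι e) he' (c τ) with hχ
      have hχ0 : j χ ≠ 0 := by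
        intro h0
        have h1 := ch_cube (isE_bc hom (AlgebraicClosure k)) (ι e) he' (c τ)
        rw [← hχ] at h1
        have h2 := congrArg j h1
        rw [map_pow, h0, zero_pow three_ne_zero, map_one] at h2
        exact zero_ne_one h2
      have hs : σ f = j χ * f := by
        have h1 := cfn_map (om := om)
          ((σ : AlgebraicClosure L' →ₐ[L'] AlgebraicClosure L').restrictScalars k) (j (ι e)) P'
        have h3 : ((σ : AlgebraicClosure L' →ₐ[L'] AlgebraicClosure L').restrictScalars k)
            (j (ι e)) = j (ι e) := by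
          show σ (j (ι e)) = j (ι e)
          rw [← hτ', hτι]
        rw [h3] at h1
        have h4 := cfn_add (isE_bc hom (AlgebraicClosure L')) (j (ι e)) hje P'
          (Affine.Point.map (W' := S5.EC om) j (c τ)) hne hTT
        rw [hch] at h4
        rw [← hf] at h4 h1
        rw [← h4, ← hSP']
        exact h1.symm
      have hb' : σ (j b) = j χ * j b := by
        rw [← hτ', hb τ hτι, map_mul]
      rw [map_div₀, hs, hb', mul_div_mul_left _ _ hχ0]
    obtain ⟨β, hβ⟩ := fixed_elem _ hfix
    refine ⟨x, y, β, ?_, hYne, ?_⟩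
    · exact ((isE_bc hom L).nons x y).1 h
    · apply (algebraMap L' (AlgebraicClosure L')).injective
      have h7 : j b ^ 3 = algebraMap L' (AlgebraicClosure L') (algebraMap A L' α) := by
        rw [← map_pow, ← hα, hj]
      rw [map_mul, map_pow, hβ, ← hcube', div_pow, div_mul_cancel₀ _ (pow_ne_zero 3 hf0), h7]

end Pool.Agent.Lib.MP_1a91b9_ntT3.S9
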