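import Pool.Agent.Lib.MP_1a91b9_ntT3.S5.ImageB
import Pool.Agent.Lib.MP_1a91b9_nt.Residue

/-!
# JOB LV: the valuation of a local point

`v = below N w`, `φ : N_v → M_w` with `v(φ x) = v(x)^ram`, `Y = y + om / 2`, `X = x + (1 + 2 om) / 3`
in `N_v`, `Y² = X³ + D / 36` (`eq_XY`), `D = - 5 - om`, `s² = D`; `κ = φ Y - s / 6`,
`κ' = φ Y + s / 6`, `κ κ' = (φ X)³` in `M_w`. `X ≠ 0`: otherwise `D = (6 Y)²` in `N_v`; if
`v(D) ≠ 1` its value is not a square, contradiction; if `v(D) = 1` then `κ ≠ 0` (hypothesis `hne`)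
gives `κ' = 0`, `κ = - s / 3` which has value `1`, and we are done. Now `v(κ) v(κ') = v(φ X)³`: by
`Cb.of_prod` it suffices that `v(κ) = v(κ')` or `v(κ) = 1` or `v(κ') = 1`. If `v(D) = 1` and
`v(3) = 1`: `κ' - κ = s / 3` has value 1, see `image_val` in `S5/ImageB.lean`. Otherwise the value of `D`
at `v` is not a square (`hodd`; if `v(3) < 1`: `val_D`): `v(φ Y) ≠ v(s / 6)` because the squares are
`v(Y)^(2 ram)` and `(v(D) / v(36))^ram` (`ram ≠ 0`), and `v(D) / v(6)²` is not a square; so
`v(κ) = max = v(κ')`. Finally `α = β³ κ` and `Cb`: `Cb.pow_three`, `Cb.mul`.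
`Valued.v (algebraMap M _ α) = w.valuation M α` is `MP_1a91b9_nt.valued_algebraMap`
(`Pool/Agent/Lib/MP_1a91b9_nt/Residue.lean`).
-/

set_option autoImplicit false

namespace Pool.Agent.Lib.MP_1a91b9_ntT3.S9

open IsDedekindDomain NumberField WithZero Module S5
open Pool.Agent.Lib.MP_1a91b9_ntT.S5 (below ram Quad)

variable {N M : Type*} [Field N] [NumberField N] [Field M] [NumberField M] [Algebra N M]
  {om : N} {s : M} {σ : M ≃ₐ[N] M}

private theorem LV_core {L L' : Type*} [Field L] [CharZero L] [Field L'] [CharZero L']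
    (V : Valuation L ℤᵐ⁰) (V' : Valuation L' ℤᵐ⁰) (φ : L →+* L') (e : ℕ) (he : e ≠ 0)
    (hφ : ∀ x, V' (φ x) = V x ^ e) (X Y D : L) (s : L') (hs : s ^ 2 = φ D)
    (hXY : Y ^ 2 = X ^ 3 + D / 36) (hne : φ Y - s / 6 ≠ 0)
    (hcase : (V D = 1 ∧ V 3 = 1) ∨ ¬ IsSquare (V D)) : Cb (V' (φ Y - s / 6)) := by
  have h36 : φ 36 = 36 := map_ofNat φ 36
  have hprod : (φ Y - s / 6) * (φ Y + s / 6) = φ X ^ 3 := by
    have h1 : φ Y ^ 2 = φ X ^ 3 + s ^ 2 / 36 := by
      rw [hs, ← map_pow, ← map_pow, ← h36, ← map_div₀, ← map_add, hXY]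
    linear_combination h1
  have hvp : V' (φ Y - s / 6) * V' (φ Y + s / 6) = V' (φ X) ^ 3 := by
    rw [← map_mul, hprod, map_pow]
  rcases hcase with ⟨hD, h3⟩ | hD
  · have hs1 : V' s = 1 := by
      refine Pool.Agent.Lib.MP_1a91b9_ntT.S5.pow_left_inj' two_ne_zero ?_
      rw [← map_pow, hs, hφ, hD, one_pow, one_pow]
    have h3w : V' 3 = 1 := by
      have h := hφ 3
      rw [map_ofNat, h3, one_pow] at h
      exact h
    have hd : V' (s / 3) = 1 := by rw [map_div₀, hs1, h3w, div_one]
    have hdiff : V' ((φ Y + s / 6) - (φ Y - s / 6)) = 1 := by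
      have e1 : (φ Y + s / 6) - (φ Y - s / 6) = s / 3 := by ring
      rw [e1, hd]
    by_cases hX : X = 0
    · rw [hX, map_zero, zero_pow three_ne_zero] at hprod
      have h0 : φ Y + s / 6 = 0 := (mul_eq_zero.1 hprod).resolve_left hne
      have e2 : φ Y - s / 6 = -(s / 3) := by linear_combination h0
      rw [e2, Valuation.map_neg, hd]
      exact Cb.one
    · have hc : V' (φ X) ≠ 0 := (Valuation.ne_zero_iff _).2 ((map_ne_zero _).2 hX)
      refine Cb.of_prod hc hvp ?_
      rcases lt_trichotomy (V' (φ Y - s / 6)) (V' (φ Y + s / 6)) with h | h | h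
      · right; right
        rw [← hdiff]
        exact (Valuation.map_sub_eq_of_lt_left _ h).symm
      · exact Or.inl h
      · right; left
        rw [← hdiff]
        exact (Valuation.map_sub_eq_of_lt_right _ h).symm
  · have h36' : (36 : L) ≠ 0 := by norm_num
    have hX : X ≠ 0 := by
      rintro rfl
      apply hD
      refine ⟨V (6 * Y), ?_⟩
      rw [← map_mul]
      congr 1
      linear_combination (-36) * hXY
    have hc : V' (φ X) ≠ 0 := (Valuation.ne_zero_iff _).2 ((map_ne_zero _).2 hX)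
    refine Cb.of_prod hc hvp (Or.inl ?_)
    have hne2 : V' (φ Y) ≠ V' (s / 6) := by
      intro h
      apply hD
      have h1 : V' (φ (36 * Y ^ 2)) = V' (φ D) := by
        rw [← hs, map_mul φ, h36, map_pow φ, map_mul V', map_pow V', h, ← map_pow V', ← map_mul V']
        congr 1
        ring
      rw [hφ, hφ] at h1
      have h2 : V (36 * Y ^ 2) = V D := Pool.Agent.Lib.MP_1a91b9_ntT.S5.pow_left_inj' he h1
      refine ⟨V (6 * Y), ?_⟩
      rw [← map_mul, ← h2]
      congr 1
      ring
    rcases lt_or_gt_of_ne hne2 with h | h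
    · rw [Valuation.map_sub_eq_of_lt_right _ h, Valuation.map_add_eq_of_lt_right _ h]
    · rw [Valuation.map_sub_eq_of_lt_left _ h, Valuation.map_add_eq_of_lt_left _ h]

theorem loc_val (hom : om ^ 2 + om + 1 = 0)
    (hu : ∀ v : HeightOneSpectrum (𝓞 N), v.valuation N 3 < 1 →
      v.valuation N (1 + 2 * om) = exp (-1 : ℤ))
    (hodd : ∀ v : HeightOneSpectrum (𝓞 N), v.valuation N (-5 - om) ≠ 1 →
      ¬ IsSquare (v.valuation N (-5 - om)))
    (hQ : Quad N M (-5 - om) s σ) (w : HeightOneSpectrum (𝓞 M))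
    (φ : (below N w).adicCompletion N →+* w.adicCompletion M)
    (hφ1 : ∀ x : N, φ (algebraMap N _ x) = algebraMap M _ (algebraMap N M x))
    (hφ : ∀ x, Valued.v (φ x) = (Valued.v x) ^ ram N w)
    (x y : (below N w).adicCompletion N)
    (hxy : y ^ 2 + algebraMap N _ om * y = x ^ 3 + (1 + 2 * algebraMap N _ om) * x ^ 2 - x)
    (hne : φ (y + algebraMap N _ om / 2) - algebraMap M _ (s / 6) ≠ 0)
    (β : w.adicCompletion M) (α : M) (hα0 : α ≠ 0)
    (hα : algebraMap M _ α = β ^ 3 * (φ (y + algebraMap N _ om / 2) - algebraMap M _ (s / 6))) :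
    Cb (w.valuation M α) := by
  have hcN : CharZero ((below N w).adicCompletion N) :=
    charZero_of_injective_algebraMap (algebraMap N ((below N w).adicCompletion N)).injective
  have hcM : CharZero (w.adicCompletion M) :=
    charZero_of_injective_algebraMap (algebraMap M (w.adicCompletion M)).injective
  have hs6 : algebraMap M (w.adicCompletion M) (s / 6) = algebraMap M (w.adicCompletion M) s / 6 := by
    rw [map_div₀, map_ofNat]
  rw [hs6] at hne hα
  have hom' : (algebraMap N ((below N w).adicCompletion N) om) ^ 2 +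
      algebraMap N ((below N w).adicCompletion N) om + 1 = 0 := by
    rw [← map_pow, ← map_add, ← map_one (algebraMap N ((below N w).adicCompletion N)), ← map_add,
      hom, map_zero]
  have hXY := (eq_XY hom' x y).1 hxy
  have hDe : algebraMap N ((below N w).adicCompletion N) (-5 - om) =
      -5 - algebraMap N ((below N w).adicCompletion N) om := by
    rw [map_sub, map_neg, map_ofNat]
  have hs2 : (algebraMap M (w.adicCompletion M) s) ^ 2 =
      φ (-5 - algebraMap N ((below N w).adicCompletion N) om) := by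
    rw [← hDe, hφ1, ← map_pow, hQ.sq]
  have hcase : (Valued.v (-5 - algebraMap N ((below N w).adicCompletion N) om) = 1 ∧
      Valued.v (3 : (below N w).adicCompletion N) = 1) ∨
      ¬ IsSquare (Valued.v (-5 - algebraMap N ((below N w).adicCompletion N) om)) := by
    have e3 : (3 : (below N w).adicCompletion N) =
        algebraMap N ((below N w).adicCompletion N) 3 := (map_ofNat _ 3).symm
    rw [← hDe, e3, Pool.Agent.Lib.MP_1a91b9_nt.valued_algebraMap,
      Pool.Agent.Lib.MP_1a91b9_nt.valued_algebraMap]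
    by_cases hD : (below N w).valuation N (-5 - om) = 1
    · left
      refine ⟨hD, ?_⟩
      have hle : (below N w).valuation N 3 ≤ 1 := by
        have h : (below N w).valuation N (algebraMap (𝓞 N) N (3 : 𝓞 N)) ≤ 1 :=
          (below N w).valuation_le_one (3 : 𝓞 N)
        have e : algebraMap (𝓞 N) N (3 : 𝓞 N) = 3 := map_ofNat (algebraMap (𝓞 N) N) 3
        rwa [e] at h
      rcases hle.eq_or_lt with h | h
      · exact h
      · exfalso
        have h1 := val_D hom _ h (hu _ h)
        rw [hD, ← exp_zero, exp_inj] at h1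
        omega
    · exact Or.inr (hodd _ hD)
  have hcore := LV_core (Valued.v : Valuation ((below N w).adicCompletion N) ℤᵐ⁰)
    (Valued.v : Valuation (w.adicCompletion M) ℤᵐ⁰) φ (ram N w)
    (Pool.Agent.Lib.MP_1a91b9_ntT.S5.ram_pos N w).ne' hφ _ _ _ _ hs2 hXY hne hcase
  rw [← Pool.Agent.Lib.MP_1a91b9_nt.valued_algebraMap w α, hα, map_mul, map_pow]
  have hβ : β ≠ 0 := by
    rintro rfl
    rw [zero_pow three_ne_zero, zero_mul] at hα
    exact hα0 ((map_eq_zero _).1 hα)
  exact (Cb.pow_three ((Valuation.ne_zero_iff _).2 hβ)).mul hcore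

end Pool.Agent.Lib.MP_1a91b9_ntT3.S9
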