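import Pool.Agent.Lib.MP_1a91b9_ntT.S9.MA
import Pool.Agent.Lib.MP_1a91b9_ntT3.S9.Nt

/-!
# JOB NM: the group theory of a cocycle with values in the kernel `{0, T, -T}` of `1 - ω`

`σ T = T` if `σ e = e` and `σ T = - T` if `σ e = - e` (`tq_map`, `tq_neg`); every `σ` has
`σ e = ± e` (`(σ e)² = e²`). Write `a_σ` for `actP (EC om) σ`.
`cob_of_fix`: `c σ = 0` for the `σ` fixing `e`. If all `σ` fix `e`, `R = 0`. Otherwise let
`g₀ e = - e`, `R = c g₀`. For `g` with `g e = - e`: `g = g₀ τ`, `τ e = e`, so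
`c g = c g₀ + a_{g₀} (c τ) = R`, and `a_g R - R = - R - R = R` (`a_g` is `- 1` on the kernel,
`R + R = - R`). For `g` with `g e = e`: `c g = 0 = a_g R - R`.
`norm_fixed`: `g₀ e = - e`. For `τ` with `τ e = e`, `τ' = g₀⁻¹ τ g₀` also fixes `e` and
`c τ' = c (g₀⁻¹) + a_{g₀⁻¹} (c τ) + a_{g₀⁻¹} (a_τ (c g₀)) = - c τ` (as `c (g₀⁻¹) + a_{g₀⁻¹} (c g₀) =
c 1 = 0`, `a_τ` is the identity on the kernel), so `τ (g₀ b) = g₀ (τ' b) = g₀ (ch (c τ') b) =
ch (c τ)⁻¹ g₀ b` (`ch` values `1`, `om`, `om²` are fixed by `g₀`; `ch_add` for `c τ + (- c τ) = 0`), and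
`τ (b g₀ b) = b g₀ b`. `c (g₀ g₀) = c g₀ + a_{g₀} (c g₀) = 0`, so `g₀ (g₀ b) = b` and `g₀` fixes
`b g₀ b`. Any `g` is `τ` or `g₀ τ` with `τ e = e`.
-/

set_option autoImplicit false

namespace Pool.Agent.Lib.MP_1a91b9_ntT3.S9

open WeierstrassCurve Pool.Agent.Lib.MP_1a91b9_ntT.S9
open scoped Classical

section nm

private theorem nm_act_one {k : Type*} [Field k] (W : WeierstrassCurve k)
    (x : Pts W (AlgebraicClosure k)) : actP W 1 x = x := by
  cases x <;> rfl

private theorem nm_act_mul {k : Type*} [Field k] (W : WeierstrassCurve k) (g h : Gal k)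
    (x : Pts W (AlgebraicClosure k)) : actP W (g * h) x = actP W g (actP W h x) := by
  cases x <;> rfl

variable {k : Type*} [Field k] [CharZero k] {om : k} (hom : om ^ 2 + om + 1 = 0)
  (e : AlgebraicClosure k) (he : 36 * e ^ 2 = -5 - algebraMap k (AlgebraicClosure k) om)

include he in
private theorem nm_pm (σ : Gal k) : σ e = e ∨ σ e = -e := by
  have h1 : (36 : AlgebraicClosure k) * (σ e) ^ 2 = -5 - algebraMap k (AlgebraicClosure k) om := by
    have h2 := congrArg σ he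
    simp only [_root_.map_mul, _root_.map_pow, _root_.map_sub, _root_.map_neg,
      _root_.map_ofNat, AlgEquiv.commutes] at h2
    exact h2
  have h2 : (σ e) ^ 2 = e ^ 2 := by
    have h3 : (36 : AlgebraicClosure k) ≠ 0 := by norm_num
    apply mul_left_cancel₀ h3
    rw [h1, he]
  exact sq_eq_sq_iff_eq_or_eq_neg.1 h2

include he in
private theorem nm_he (σ : Gal k) :
    36 * ((σ : AlgebraicClosure k →ₐ[k] AlgebraicClosure k) e) ^ 2 =
      -5 - algebraMap k (AlgebraicClosure k) om := by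
  have h2 := congrArg σ he
  simp only [_root_.map_mul, _root_.map_pow, _root_.map_sub, _root_.map_neg,
    _root_.map_ofNat, AlgEquiv.commutes] at h2
  exact h2

private theorem nm_tq_fix (σ : Gal k) (h : σ e = e) :
    actP (S5.EC om) σ (tq (isE_bc hom (AlgebraicClosure k)) e he) =
      tq (isE_bc hom (AlgebraicClosure k)) e he := by
  have h1 := tq_map hom (σ : AlgebraicClosure k →ₐ[k] AlgebraicClosure k) e he (nm_he e he σ)
  unfold actP
  refine h1.trans ((tq_inj _ _ _ _ _).2 ?_)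
  exact h

private theorem nm_tq_neg (σ : Gal k) (h : σ e = -e) :
    actP (S5.EC om) σ (tq (isE_bc hom (AlgebraicClosure k)) e he) =
      -tq (isE_bc hom (AlgebraicClosure k)) e he := by
  have h1 := tq_map hom (σ : AlgebraicClosure k →ₐ[k] AlgebraicClosure k) e he (nm_he e he σ)
  unfold actP
  exact h1.trans (tq_neg _ e _ he (nm_he e he σ) h).symm

include he in
private theorem nm_ker_fix (σ : Gal k) (h : σ e = e) (P : Pts (S5.EC om) (AlgebraicClosure k))
    (hP : mu (isE_bc hom (AlgebraicClosure k)) P = 0) : actP (S5.EC om) σ P = P := by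
  rcases mu_ker_all (isE_bc hom (AlgebraicClosure k)) e he P hP with h1 | h1 | h1
  · rw [h1, _root_.map_zero]
  · rw [h1, nm_tq_fix hom e he σ h]
  · rw [h1, _root_.map_neg, nm_tq_fix hom e he σ h]

include he in
private theorem nm_ker_neg (σ : Gal k) (h : σ e = -e) (P : Pts (S5.EC om) (AlgebraicClosure k))
    (hP : mu (isE_bc hom (AlgebraicClosure k)) P = 0) : actP (S5.EC om) σ P = -P := by
  rcases mu_ker_all (isE_bc hom (AlgebraicClosure k)) e he P hP with h1 | h1 | h1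
  · rw [h1, _root_.map_zero, neg_zero]
  · rw [h1, nm_tq_neg hom e he σ h]
  · rw [h1, _root_.map_neg, nm_tq_neg hom e he σ h]

include he in
private theorem nm_ker_three (P : Pts (S5.EC om) (AlgebraicClosure k))
    (hP : mu (isE_bc hom (AlgebraicClosure k)) P = 0) : P + P = -P := by
  rcases mu_ker_all (isE_bc hom (AlgebraicClosure k)) e he P hP with h1 | h1 | h1
  · rw [h1, add_zero, neg_zero]
  · rw [h1]
    exact tq_add_self _ e he
  · rw [h1, ← neg_add, tq_add_self]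

private theorem nm_inv (g₀ : Gal k) (hg : g₀ e = -e) : g₀⁻¹ e = -e := by
  have h1 : g₀⁻¹ (g₀ e) = e := by
    change (g₀⁻¹ * g₀) e = e
    rw [inv_mul_cancel]
    rfl
  rw [hg, _root_.map_neg] at h1
  rw [← h1, neg_neg]
  rw [h1]

private theorem nm_quot (g₀ g : Gal k) (hg₀ : g₀ e = -e) (hg : g e = -e) : (g₀⁻¹ * g) e = e := by
  change g₀⁻¹ (g e) = e
  rw [hg, _root_.map_neg, nm_inv e g₀ hg₀, neg_neg]

private theorem nm_ch_fixed (σ : Gal k) (P : Pts (S5.EC om) (AlgebraicClosure k)) :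
    σ (ch (isE_bc hom (AlgebraicClosure k)) e he P) =
      ch (isE_bc hom (AlgebraicClosure k)) e he P := by
  rcases ch_cases (isE_bc hom (AlgebraicClosure k)) e he P with h | h | h
  · rw [h, _root_.map_one]
  · rw [h, AlgEquiv.commutes]
  · rw [h, _root_.map_pow, AlgEquiv.commutes]

end nm

theorem cob_of_fix {k : Type*} [Field k] [CharZero k] {om : k} (hom : om ^ 2 + om + 1 = 0)
    (e : AlgebraicClosure k) (he : 36 * e ^ 2 = -5 - algebraMap k (AlgebraicClosure k) om)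
    (c : Gal k → Pts (S5.EC om) (AlgebraicClosure k)) (hc : c ∈ coc (S5.EC om))
    (hmu : ∀ σ, mu (isE_bc hom (AlgebraicClosure k)) (c σ) = 0)
    (hfix : ∀ σ : Gal k, σ e = e → c σ = 0) : c ∈ cob (S5.EC om) := by
  have hc2 : ∀ σ τ : Gal k, c (σ * τ) = c σ + actP (S5.EC om) σ (c τ) := hc.2
  by_cases hall : ∀ σ : Gal k, σ e = e
  · refine ⟨0, fun σ => ?_⟩
    rw [hfix σ (hall σ), _root_.map_zero, sub_zero]
  push Not at hall
  obtain ⟨g₀, hg₀⟩ := hall
  have hg₀' : g₀ e = -e := (nm_pm e he g₀).resolve_left hg₀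
  refine ⟨c g₀, fun g => ?_⟩
  change c g = actP (S5.EC om) g (c g₀) - c g₀
  rcases nm_pm e he g with hg | hg
  · rw [hfix g hg, nm_ker_fix hom e he g hg _ (hmu g₀), sub_self]
  · have h1 : c g = c g₀ := by
      have h2 : g = g₀ * (g₀⁻¹ * g) := by group
      rw [h2, hc2, hfix _ (nm_quot e g₀ g hg₀' hg), _root_.map_zero, add_zero]
    rw [nm_ker_neg hom e he g hg _ (hmu g₀), h1]
    have h3 := nm_ker_three hom e he (c g₀) (hmu g₀)
    have h4 : -c g₀ - c g₀ = -(c g₀ + c g₀) := by abel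
    rw [h4, h3, neg_neg]

theorem norm_fixed {k : Type*} [Field k] [CharZero k] {om : k} (hom : om ^ 2 + om + 1 = 0)
    (e : AlgebraicClosure k) (he : 36 * e ^ 2 = -5 - algebraMap k (AlgebraicClosure k) om)
    (c : Gal k → Pts (S5.EC om) (AlgebraicClosure k)) (hc : c ∈ coc (S5.EC om))
    (hmu : ∀ σ, mu (isE_bc hom (AlgebraicClosure k)) (c σ) = 0) (b : AlgebraicClosure k)
    (hb : ∀ σ : Gal k, σ e = e → σ b = ch (isE_bc hom (AlgebraicClosure k)) e he (c σ) * b)
    (g₀ : Gal k) (hg : g₀ e = -e) (g : Gal k) : g (b * g₀ b) = b * g₀ b := by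
  have hc2 : ∀ σ τ : Gal k, c (σ * τ) = c σ + actP (S5.EC om) σ (c τ) := hc.2
  have hc1 : c 1 = 0 := by
    have h1 := hc2 1 1
    rw [mul_one, nm_act_one] at h1
    simpa using h1
  have hinv := nm_inv e g₀ hg
  -- elements fixing `e`
  have hfix : ∀ τ : Gal k, τ e = e → τ (b * g₀ b) = b * g₀ b := by
    intro τ hτ
    have hτ' : (g₀⁻¹ * (τ * g₀)) e = e := by
      change g₀⁻¹ (τ (g₀ e)) = e
      rw [hg, _root_.map_neg, hτ, _root_.map_neg, hinv, neg_neg]
    have h1 : c (g₀⁻¹ * (τ * g₀)) = -c τ := by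
      rw [hc2, hc2, _root_.map_add, nm_ker_fix hom e he τ hτ _ (hmu g₀),
        nm_ker_neg hom e he g₀⁻¹ hinv _ (hmu τ)]
      have h2 : c g₀⁻¹ + actP (S5.EC om) g₀⁻¹ (c g₀) = 0 := by
        rw [← hc2, inv_mul_cancel, hc1]
      calc c g₀⁻¹ + (-c τ + actP (S5.EC om) g₀⁻¹ (c g₀))
          = (c g₀⁻¹ + actP (S5.EC om) g₀⁻¹ (c g₀)) + -c τ := by abel
        _ = -c τ := by rw [h2, zero_add]
    have h3 : τ (g₀ b) = ch (isE_bc hom (AlgebraicClosure k)) e he (-c τ) * g₀ b := by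
      have h4 : τ (g₀ b) = g₀ ((g₀⁻¹ * (τ * g₀)) b) := by
        change τ (g₀ b) = (g₀ * (g₀⁻¹ * (τ * g₀))) b
        rw [mul_inv_cancel_left]
        rfl
      rw [h4, hb _ hτ', h1, _root_.map_mul, nm_ch_fixed hom e he]
    have h5 : ch (isE_bc hom (AlgebraicClosure k)) e he (c τ) *
        ch (isE_bc hom (AlgebraicClosure k)) e he (-c τ) = 1 := by
      rw [← ch_add _ e he _ _ (hmu τ) (by rw [_root_.map_neg, hmu τ, neg_zero]), add_neg_cancel,
        ch_zero]
    rw [_root_.map_mul, hb τ hτ, h3]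
    linear_combination (b * g₀ b) * h5
  have hgg : (g₀ * g₀) e = e := by
    change g₀ (g₀ e) = e
    rw [hg, _root_.map_neg, hg, neg_neg]
  have hcg : c (g₀ * g₀) = 0 := by
    rw [hc2, nm_ker_neg hom e he g₀ hg _ (hmu g₀), add_neg_cancel]
  have hg0 : g₀ (b * g₀ b) = b * g₀ b := by
    have h1 : g₀ (g₀ b) = b := by
      have h2 := hb (g₀ * g₀) hgg
      rw [hcg, ch_zero, one_mul] at h2
      exact h2
    rw [_root_.map_mul, h1, mul_comm]
  rcases nm_pm e he g with h | h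
  · exact hfix g h
  · have h1 : g = g₀ * (g₀⁻¹ * g) := by group
    rw [h1]
    change g₀ ((g₀⁻¹ * g) (b * g₀ b)) = _
    rw [hfix _ (nm_quot e g₀ g hg h), hg0]

end Pool.Agent.Lib.MP_1a91b9_ntT3.S9
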