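import Pool.Agent.Lib.MP_1a91b9_ntT.S9.LA
import Pool.Agent.Lib.MP_1a91b9_ntT3.S9.Ks
import Pool.Agent.Lib.MP_1a91b9_ntT3.S9.Nm
import Pool.Agent.Lib.MP_1a91b9_ntT3.S9.Lm
import Pool.Agent.Lib.MP_1a91b9_ntT3.S9.Lf

/-!
# JOB MC: a cocycle of the Tate-Shafarevich group with values in the kernel of `1 - ω`

See `local_all`, `two_cocycle` in `Pool/Agent/Lib/MP_1a91b9_ntT/S9/MC.lean`. `e` a root of
`36 e² = - 5 - om` in `Nbar`, `s = 6 e`, `s² = - 5 - om`; `A = N(e)` (`IntermediateField.adjoin N {e}`),
of degree 2 (`not_sq`), a number field; `σA` the automorphism of `A` with `σA s = - s`, `Quad N A (- 5 - om)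
s σA` (see `exists_quad` and the files `ExistA`, `ExistB` of `T3/S5`, `S5/QuadBasic.lean`; `σA` the restriction
of a `g₀ ∈ Gal N` with `g₀ e = - e`, which exists by `ma_tr`-like argument: `minpoly = X² - (- 5 - om) / 36`,
or `IntermediateField.exists_algEquiv_...`). `exists_kummer3`: `b`, `α`. `norm_fixed` and `fixed_elem`:
`b * g₀ b = n ∈ N`, so `α * σA α = n³`. `local_main3` at every place `w` of `A` (as in `local_all`;
`exists_compMap`; `e` is `s / 6`). `sel_of_local3`, `hG.sel`: `α = r³`, so `b = ζ r`, `ζ³ = 1`,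
`ζ ∈ {1, om, om²}` is in `N`, `σ b = b` for the `σ` fixing `A`, `ch (c σ) = 1`, `c σ = 0`
(`ch_eq_one`). `cob_of_fix`.
-/

set_option autoImplicit false

namespace Pool.Agent.Lib.MP_1a91b9_ntT3.S9

open WeierstrassCurve NumberField IsDedekindDomain S5 Module
open Pool.Agent.Lib.MP_1a91b9_ntT.S9
open Pool.Agent.Lib.MP_1a91b9_ntT.S5 (below ram Quad)
open scoped Classical

universe u

/-- JOB MC1. -/
theorem local_all3 {N : Type u} [Field N] [NumberField N] {om : N} (hom : om ^ 2 + om + 1 = 0)
    (c : Gal N → Pts (EC om) (AlgebraicClosure N)) (hc : c ∈ shaCoc (EC om))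
    (hmu : ∀ σ, mu (isE_bc hom (AlgebraicClosure N)) (c σ) = 0)
    (A : IntermediateField N (AlgebraicClosure N)) [NumberField A]
    (e : A) (he : 36 * e ^ 2 = -5 - algebraMap N A om)
    (he' : 36 * (e : AlgebraicClosure N) ^ 2 = -5 - algebraMap N (AlgebraicClosure N) om)
    (b : AlgebraicClosure N) (hb0 : b ≠ 0) (α : A) (hα : (α : AlgebraicClosure N) = b ^ 3)
    (hb : ∀ σ : Gal N, (∀ x : A, σ x = x) →
      σ b = ch (isE_bc hom (AlgebraicClosure N)) (e : AlgebraicClosure N) he' (c σ) * b)
    (w : HeightOneSpectrum (𝓞 A)) :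
    ∃ φ : (below N w).adicCompletion N →+*
      w.adicCompletion A, (∀ x : N, φ (algebraMap N _ x) = algebraMap A _ (algebraMap N A x)) ∧
      (∀ x, Valued.v (φ x) = (Valued.v x) ^ ram N w) ∧
      ∃ (x y : (below N w).adicCompletion N) (β : w.adicCompletion A),
        y ^ 2 + algebraMap N _ om * y = x ^ 3 + (1 + 2 * algebraMap N _ om) * x ^ 2 - x ∧
        φ (y + algebraMap N _ om / 2) - algebraMap A _ e ≠ 0 ∧
        algebraMap A _ α = β ^ 3 * (φ (y + algebraMap N _ om / 2) - algebraMap A _ e) := by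
  obtain ⟨φ, h1, hv⟩ := exists_compMap N w
  refine ⟨φ, h1, hv, ?_⟩
  have : CharZero ((below N w).adicCompletion N) :=
    charZero_of_injective_algebraMap (algebraMap N ((below N w).adicCompletion N)).injective
  have : CharZero (w.adicCompletion A) :=
    charZero_of_injective_algebraMap (algebraMap A (w.adicCompletion A)).injective
  let _ : Algebra ((below N w).adicCompletion N) (w.adicCompletion A) := φ.toAlgebra
  let _ : Algebra N (w.adicCompletion A) :=
    ((algebraMap A (w.adicCompletion A)).comp (algebraMap N A)).toAlgebra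
  have : IsScalarTower N ((below N w).adicCompletion N) (w.adicCompletion A) :=
    IsScalarTower.of_algebraMap_eq fun x => (h1 x).symm
  have : IsScalarTower N A (w.adicCompletion A) :=
    IsScalarTower.of_algebraMap_eq fun x => rfl
  have hcv : c ∈ trivOver (EC om) ((below N w).adicCompletion N) := by
    have h : c ∈ ⨅ v : HeightOneSpectrum (𝓞 N), trivOver (EC om) (v.adicCompletion N) := hc.1.2
    exact AddSubgroup.mem_iInf.1 h (below N w)
  exact local_main3 hom c hcv hmu e he A.val he' b hb0 α hα hb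

open IntermediateField in
private theorem mc2_min {N M' : Type*} [Field N] [Field M'] [Algebra N M'] {d : N}
    (hn : ∀ x : N, x ^ 2 ≠ d) {s' : M'} (hs : s' ^ 2 = algebraMap N M' d) :
    IsIntegral N s' ∧ finrank N (N⟮s'⟯) = 2 := by
  have hirr : Irreducible (Polynomial.X ^ 2 - Polynomial.C d) :=
    X_pow_sub_C_irreducible_of_prime Nat.prime_two hn
  have hmon : (Polynomial.X ^ 2 - Polynomial.C d).Monic :=
    Polynomial.monic_X_pow_sub_C _ (by norm_num)
  have hroot : Polynomial.aeval s' (Polynomial.X ^ 2 - Polynomial.C d) = 0 := by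
    simp [hs]
  have hint : IsIntegral N s' := ⟨_, hmon, by rwa [Polynomial.aeval_def] at hroot⟩
  refine ⟨hint, ?_⟩
  rw [IntermediateField.adjoin.finrank hint, ← minpoly.eq_of_irreducible_of_monic hirr hroot hmon,
    Polynomial.natDegree_X_pow_sub_C]

/-- JOB MC2. -/
theorem exists_setup {N : Type u} [Field N] [NumberField N] {om : N} (hG : Good N om) :
    ∃ (A : IntermediateField N (AlgebraicClosure N)) (_ : NumberField A) (e : A) (s : A)
      (σA : A ≃ₐ[N] A) (g₀ : Gal N), s = 6 * e ∧ 36 * e ^ 2 = -5 - algebraMap N A om ∧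
      36 * (e : AlgebraicClosure N) ^ 2 = -5 - algebraMap N (AlgebraicClosure N) om ∧
      Quad N A (-5 - om) s σA ∧ g₀ (e : AlgebraicClosure N) = -(e : AlgebraicClosure N) ∧
      (∀ x : A, g₀ (x : AlgebraicClosure N) = ((σA x : A) : AlgebraicClosure N)) ∧
      ∀ σ : Gal N, σ (e : AlgebraicClosure N) = e → ∀ x : A, σ x = x := by
  have hn : ∀ x : N, x ^ 2 ≠ -5 - om := fun x => not_sq N hG.hom hG.unr x
  have hn' : ∀ x : N, x ^ 2 ≠ (-5 - om) / 36 := by
    intro x hx
    apply hn (6 * x)
    rw [mul_pow, hx]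
    ring
  obtain ⟨e0, he0⟩ := IsAlgClosed.exists_pow_nat_eq
    (algebraMap N (AlgebraicClosure N) ((-5 - om) / 36)) (n := 2) (by norm_num)
  obtain ⟨hint, hdeg⟩ := mc2_min hn' he0
  have hfd : FiniteDimensional N (IntermediateField.adjoin N {e0}) :=
    Module.finite_of_finrank_pos (by rw [hdeg]; norm_num)
  have hNF : NumberField (IntermediateField.adjoin N {e0}) :=
    { to_charZero := charZero_of_injective_algebraMap
        (algebraMap N (IntermediateField.adjoin N {e0})).injective
      to_finiteDimensional := FiniteDimensional.trans ℚ N _ }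
  have hgen : ((IntermediateField.AdjoinSimple.gen N e0 : IntermediateField.adjoin N {e0}) :
      AlgebraicClosure N) = e0 := IntermediateField.AdjoinSimple.coe_gen N e0
  have hsqE : (IntermediateField.AdjoinSimple.gen N e0) ^ 2 =
      algebraMap N (IntermediateField.adjoin N {e0}) ((-5 - om) / 36) := by
    apply (algebraMap (IntermediateField.adjoin N {e0}) (AlgebraicClosure N)).injective
    rw [map_pow, ← IsScalarTower.algebraMap_apply]
    exact (congrArg (· ^ 2) hgen).trans he0
  have h36 : 36 * (IntermediateField.AdjoinSimple.gen N e0) ^ 2 =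
      -5 - algebraMap N (IntermediateField.adjoin N {e0}) om := by
    rw [hsqE, map_div₀, map_sub, map_neg, map_ofNat, map_ofNat]
    ring
  have h36' : 36 * (e0 : AlgebraicClosure N) ^ 2 =
      -5 - algebraMap N (AlgebraicClosure N) om := by
    rw [he0, map_div₀, map_sub, map_neg, map_ofNat, map_ofNat]
    ring
  have hs : (6 * IntermediateField.AdjoinSimple.gen N e0) ^ 2 =
      algebraMap N (IntermediateField.adjoin N {e0}) (-5 - om) := by
    rw [map_sub, map_neg, map_ofNat, ← h36]
    ring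
  obtain ⟨σA, hq⟩ := Pool.Agent.Lib.MP_1a91b9_ntT.S5.exists_quad (-5 - om) (6 * IntermediateField.AdjoinSimple.gen N e0) hs hdeg
    (by
      intro x hx
      apply hn x
      apply (algebraMap N (IntermediateField.adjoin N {e0})).injective
      rw [map_pow, hx, hs])
  have hconj : σA (IntermediateField.AdjoinSimple.gen N e0) =
      -(IntermediateField.AdjoinSimple.gen N e0) := by
    have h := hq.conj
    rw [map_mul, map_ofNat] at h
    have h6 : (6 : IntermediateField.adjoin N {e0}) ≠ 0 := by norm_num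
    apply mul_left_cancel₀ h6
    rw [h]
    ring
  have hres : ∀ x : IntermediateField.adjoin N {e0},
      (σA.liftNormal (AlgebraicClosure N)) (x : AlgebraicClosure N) =
        ((σA x : IntermediateField.adjoin N {e0}) : AlgebraicClosure N) :=
    fun x => AlgEquiv.liftNormal_commutes σA (AlgebraicClosure N) x
  refine ⟨IntermediateField.adjoin N {e0}, hNF, IntermediateField.AdjoinSimple.gen N e0,
    6 * IntermediateField.AdjoinSimple.gen N e0, σA, σA.liftNormal (AlgebraicClosure N), rfl, h36,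
    ?_, hq, ?_, hres, ?_⟩
  · rw [hgen]; exact h36'
  · rw [hres, hconj]
    rfl
  · intro σ hσ x
    obtain ⟨a, b, hab⟩ := hq.repr x
    have hx : (x : AlgebraicClosure N) = algebraMap N (AlgebraicClosure N) a +
        algebraMap N (AlgebraicClosure N) b * (6 *
          ((IntermediateField.AdjoinSimple.gen N e0 : IntermediateField.adjoin N {e0}) :
            AlgebraicClosure N)) := by
      rw [hab]
      rfl
    rw [hx, map_add, map_mul, map_mul, map_ofNat, hσ, AlgEquiv.commutes, AlgEquiv.commutes]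

/-- JOB MC3. -/
theorem mu_cocycle {N : Type u} [Field N] [NumberField N] {om : N} (hG : Good N om)
    (c : Gal N → Pts (EC om) (AlgebraicClosure N)) (hc : c ∈ shaCoc (EC om))
    (hmu : ∀ σ, mu (isE_bc hG.hom (AlgebraicClosure N)) (c σ) = 0) : c ∈ cob (EC om) := by
  obtain ⟨A, hnf, e, s, σA, g₀, hs, he, he', hQ, hg₀, hg₀A, hfix⟩ := exists_setup hG
  have hcc : c ∈ coc (EC om) := hc.1.1
  obtain ⟨b, α, hb0, hα, hb⟩ := exists_kummer3 hG.hom (e : AlgebraicClosure N) he' c hcc hmu A e.2
  have hn0 := norm_fixed hG.hom (e : AlgebraicClosure N) he' c hcc hmu b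
    (fun σ hσ => hb σ (hfix σ hσ)) g₀ hg₀
  obtain ⟨n, hn⟩ := fixed_elem (b * g₀ b) (fun g => hn0 g)
  have hα0 : α ≠ 0 := by
    rintro rfl
    have h1 : (0 : AlgebraicClosure N) = b ^ 3 := hα
    exact hb0 ((pow_eq_zero_iff three_ne_zero).1 h1.symm)
  have hnorm : ∃ g : N, α * σA α = algebraMap N A (g ^ 3) := by
    refine ⟨n, Subtype.ext ?_⟩
    have h1 : ((α * σA α : A) : AlgebraicClosure N) = (α : AlgebraicClosure N) *
        ((σA α : A) : AlgebraicClosure N) := rfl
    have h2 : ((algebraMap N A (n ^ 3) : A) : AlgebraicClosure N) =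
        algebraMap N (AlgebraicClosure N) (n ^ 3) := rfl
    rw [h1, h2, ← hg₀A, hα, map_pow, map_pow, hn, mul_pow]
  have hse : s / 6 = e := by
    rw [hs]
    exact mul_div_cancel_left₀ e (by norm_num)
  have hSel : Sel N s σA α := sel_of_local3 hG hQ α hα0 hnorm (fun w => by
    obtain ⟨φ, h1, h2, x, y, β, h3, h4, h5⟩ :=
      local_all3 hG.hom c hc hmu A e he he' b hb0 α hα hb w
    refine ⟨φ, h1, h2, x, y, β, h3, ?_, ?_⟩
    · rw [hse]
      exact h4
    · rw [hse]
      exact h5)
  obtain ⟨r, hr⟩ := hG.sel A s σA hQ α hSel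
  have hbr : b ^ 3 = (r : AlgebraicClosure N) ^ 3 := by
    rw [← hα, hr]
    rfl
  have hω : (algebraMap N (AlgebraicClosure N) om) ^ 2 + algebraMap N (AlgebraicClosure N) om + 1 =
      0 := by
    rw [← map_pow, ← map_one (algebraMap N (AlgebraicClosure N)), ← map_add, ← map_add, hG.hom,
      map_zero]
  have hfac : (b - r) * ((b - algebraMap N (AlgebraicClosure N) om * r) *
      (b - (algebraMap N (AlgebraicClosure N) om) ^ 2 * r)) = 0 := by
    linear_combination hbr + (b - r) * ((algebraMap N (AlgebraicClosure N) om - 1) * (r : AlgebraicClosure N) ^ 2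
      - b * r) * hω
  refine cob_of_fix hG.hom (e : AlgebraicClosure N) he' c hcc hmu (fun σ hσ => ?_)
  have hA := hfix σ hσ
  have h1 := hb σ hA
  have h2 : σ b = b := by
    rcases mul_eq_zero.1 hfac with h | h
    · rw [sub_eq_zero.1 h]
      exact hA r
    · rcases mul_eq_zero.1 h with h | h
      · rw [sub_eq_zero.1 h, map_mul, hA r, AlgEquiv.commutes]
      · rw [sub_eq_zero.1 h, map_mul, hA r, map_pow, AlgEquiv.commutes]
  rw [h2] at h1
  have h3 : ch (isE_bc hG.hom (AlgebraicClosure N)) (e : AlgebraicClosure N) he' (c σ) = 1 :=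
    (mul_eq_right₀ hb0).1 h1.symm
  exact ch_eq_one _ _ _ _ h3

end Pool.Agent.Lib.MP_1a91b9_ntT3.S9
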