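import Pool.Agent.Lib.MP_1a91b9_ntT3.S9.Om

/-!
# JOB MU: the endomorphism `1 - ω`

`om_sum`: with `X = x + (1 + 2 z) / 3` the points `P`, `ω P`, `ω² P` have the same `y`: if `X ≠ 0`
the three `x`-coordinates `x`, `z x + z²`, `z² x + z³ + z²` are distinct and the points are the
intersections with the horizontal line (`P + ω P = - ω² P`: slope `0`, `add_of_X_ne`); if `X = 0`,
`ω P = P` and `P + P = - P` (the tangent at `P` is horizontal: slope
`(3 x² + 2 (1 + 2 z) x - 1) / (2 y + z) = 0` as `3 x² + 2 (1 + 2 z) x - 1 = 3 X²`).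
`mu_mu`: `(1 - ω)² = 1 - 2 ω + ω² = - 3 ω` by `om_sum`.
-/

set_option autoImplicit false

namespace Pool.Agent.Lib.MP_1a91b9_ntT3.S9

open WeierstrassCurve Pool.Agent.Lib.MP_1a91b9_ntT.S9
open scoped Classical

variable {F : Type*} [Field F] [CharZero F] {W : Affine F} {z : F}

private theorem mu_congr {x x' y y' : F} (hx : x = x') (hy : y = y') (h1 : W.Nonsingular x y)
    (h2 : W.Nonsingular x' y') : Affine.Point.some x y h1 = Affine.Point.some x' y' h2 := by
  subst hx
  subst hy
  rfl

private theorem mu_two_y (h : IsE W z) {x y : F} (hn : W.Nonsingular x y)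
    (hx : 3 * x + (1 + 2 * z) = 0) : 2 * y + z ≠ 0 := by
  intro h0
  have he := (h.nons x y).1 hn
  have h5 : z + 5 = 0 := by
    linear_combination (-(1 / 3 : F)) * (27 * (2 * y + z) * h0 - 4 * (3 * x + (1 + 2 * z)) ^ 2 * hx +
      (16 * (9 * x + (1 + 2 * z)) - 27) * h.hz - 108 * he)
  have h6 : (21 : F) = 0 := by
    linear_combination h.hz - (z - 4) * h5
  norm_num at h6

private theorem mu_fix (h : IsE W z) {x : F} (hx : 3 * x + (1 + 2 * z) = 0) :
    z * x + z ^ 2 = x := by
  linear_combination ((z - 1) / 3) * hx + (1 / 3 : F) * h.hz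

private theorem mu_fix' (h : IsE W z) {x : F} (hx : z * x + z ^ 2 = x) :
    3 * x + (1 + 2 * z) = 0 := by
  linear_combination (-z - 2) * hx + (x + z + 1) * h.hz

theorem om_sum (h : IsE W z) (P : W.Point) : P + omP h P + omP h (omP h P) = 0 := by
  rcases P with _ | ⟨x, y, hn⟩
  · change (0 : W.Point) + omP h 0 + omP h (omP h 0) = 0
    rw [map_zero, map_zero, add_zero, add_zero]
  · obtain ⟨hn1, h1⟩ := omP_some h x y hn
    obtain ⟨hn2, h2⟩ := omP_some h (z * x + z ^ 2) y hn1
    rw [h1, h2]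
    have ha1 : W.a₁ = 0 := by rw [h.eq]
    have ha2 : W.a₂ = 1 + 2 * z := by rw [h.eq]
    have ha3 : W.a₃ = z := by rw [h.eq]
    have ha4 : W.a₄ = -1 := by rw [h.eq]
    by_cases hx : 3 * x + (1 + 2 * z) = 0
    · have hxx := mu_fix h hx
      have hxx2 : z * (z * x + z ^ 2) + z ^ 2 = x := by rw [hxx, hxx]
      rw [mu_congr hxx rfl hn1 hn, mu_congr hxx2 rfl hn2 hn]
      have hy : y ≠ W.negY x y := by
        intro h3
        rw [Affine.negY, ha1, ha3] at h3
        exact mu_two_y h hn hx (by linear_combination h3)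
      have hsl : W.slope x x y y = 0 := by
        rw [Affine.slope_of_Y_ne rfl hy, ha1, ha2, ha4]
        have h4 : 3 * x ^ 2 + 2 * (1 + 2 * z) * x + -1 - 0 * y = 0 := by
          linear_combination (x + (1 + 2 * z) / 3) * hx - (4 / 3 : F) * h.hz
        rw [h4, zero_div]
      rw [Affine.Point.add_self_of_Y_ne hy]
      apply Affine.Point.add_of_Y_eq
      · rw [hsl, Affine.addX, ha1, ha2]
        linear_combination -hx
      · rw [hsl, Affine.addY, Affine.negAddY, Affine.negY, Affine.negY, ha1, ha3]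
        ring
    · have hxx : x ≠ z * x + z ^ 2 := fun h3 => hx (mu_fix' h h3.symm)
      have hsl : W.slope x (z * x + z ^ 2) y y = 0 := by
        rw [Affine.slope_of_X_ne hxx, sub_self, zero_div]
      rw [Affine.Point.add_of_X_ne hxx]
      apply Affine.Point.add_of_Y_eq
      · rw [hsl, Affine.addX, ha1, ha2]
        linear_combination (-x - z - 1) * h.hz
      · rw [hsl, Affine.addY, Affine.negAddY, Affine.negY, Affine.negY, ha1, ha3]
        ring

theorem omP_fixed (h : IsE W z) {x y : F} (hn : W.Nonsingular x y) :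
    omP h (.some x y hn) = .some x y hn ↔ 3 * x + (1 + 2 * z) = 0 := by
  obtain ⟨hn1, h1⟩ := omP_some h x y hn
  rw [h1]
  constructor
  · intro h2
    have h3 : z * x + z ^ 2 = x := by
      injection h2
    exact mu_fix' h h3
  · intro hx
    exact mu_congr (mu_fix h hx) rfl hn1 hn

/-- The endomorphism `1 - ω`. -/
noncomputable def mu (h : IsE W z) : W.Point →+ W.Point := AddMonoidHom.id _ - omP h

theorem mu_apply (h : IsE W z) (P : W.Point) : mu h P = P - omP h P := rfl

theorem mu_mu (h : IsE W z) (P : W.Point) : mu h (mu h P) = -(3 • omP h P) := by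
  rw [mu_apply, mu_apply, map_sub]
  have h1 := om_sum h P
  have h2 : P - omP h P - (omP h P - omP h (omP h P)) =
      (P + omP h P + omP h (omP h P)) - 3 • omP h P := by abel
  rw [h2, h1, zero_sub]

theorem mu_om (h : IsE W z) (P : W.Point) : mu h (omP h P) = omP h (mu h P) := by
  rw [mu_apply, mu_apply, map_sub]

theorem mu_zero (h : IsE W z) (P : W.Point) (hP : mu h P = 0) :
    P = 0 ∨ ∃ (x y : F) (hn : W.Nonsingular x y), P = .some x y hn ∧ 3 * x + (1 + 2 * z) = 0 := by
  rcases P with _ | ⟨x, y, hn⟩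
  · exact Or.inl rfl
  · refine Or.inr ⟨x, y, hn, rfl, ?_⟩
    rw [mu_apply, sub_eq_zero] at hP
    exact (omP_fixed h hn).1 hP.symm

/-- The point with `X = 0`, `Y = e`, where `36 e² = - 5 - z`. -/
noncomputable def tq (h : IsE W z) (e : F) (he : 36 * e ^ 2 = -5 - z) : W.Point :=
  Affine.Point.some (-(1 + 2 * z) / 3) (e - z / 2) ((h.nons _ _).2 (by
    linear_combination (1 / 36 : F) * he + (-1 / 4 - 8 / 27 * (1 + 2 * z)) * h.hz))

end Pool.Agent.Lib.MP_1a91b9_ntT3.S9
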