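import Pool.Agent.Lib.MP_1a91b9_nt.VcPoint
import Pool.Agent.Lib.MP_1a91b9_ntT.S9.KB
import Pool.Agent.Lib.MP_1a91b9_ntT3.S5.Defs
import Pool.Agent.Lib.MP_1a91b9_ntT3.S9.Defs

/-!
# The automorphism `ω` of the curve `y² + z y = x³ + (1 + 2 z) x² - x`, `z² + z + 1 = 0`

It is `(x, y) ↦ (z x + z², y)`; with `X = x + (1 + 2 z) / 3`, `Y = y + z / 2` the equation is
`Y² = X³ + (-5 - z) / 36` and the automorphism is `(X, Y) ↦ (z X, Y)`.
-/

set_option autoImplicit false

namespace Pool.Agent.Lib.MP_1a91b9_ntT3.S9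

open WeierstrassCurve Pool.Agent.Lib.MP_1a91b9_ntT.S9
open scoped Classical

/-- `W` is the curve `y² + z y = x³ + (1 + 2 z) x² - x`. -/
structure IsE {F : Type*} [Field F] (W : Affine F) (z : F) : Prop where
  eq : W = ⟨0, 1 + 2 * z, z, -1, 0⟩
  hz : z ^ 2 + z + 1 = 0

section
variable {F : Type*} [Field F] {W : Affine F} {z : F}

theorem IsE.eqn (h : IsE W z) (x y : F) :
    W.Equation x y ↔ y ^ 2 + z * y = x ^ 3 + (1 + 2 * z) * x ^ 2 - x := by
  rw [h.eq, Affine.equation_iff]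
  dsimp only
  constructor
  · intro e
    linear_combination e
  · intro e
    linear_combination e

theorem IsE.nons [CharZero F] (h : IsE W z) (x y : F) :
    W.Nonsingular x y ↔ y ^ 2 + z * y = x ^ 3 + (1 + 2 * z) * x ^ 2 - x := by
  rw [Affine.nonsingular_iff, h.eqn]
  constructor
  · exact fun e => e.1
  · intro e
    refine ⟨e, ?_⟩
    by_contra hc
    push Not at hc
    obtain ⟨h1, h2⟩ := hc
    rw [h.eq] at h1 h2
    dsimp only at h1 h2
    have hz := h.hz
    have hy : 2 * y + z = 0 := by linear_combination h2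
    have hx2 : (3 * x + (1 + 2 * z)) ^ 2 = 0 := by
      linear_combination (-3) * h1 + 4 * hz
    have hx : 3 * x + (1 + 2 * z) = 0 := pow_eq_zero_iff (two_ne_zero) |>.1 hx2
    have h5 : 3 * (5 + z) = 0 := by
      linear_combination 108 * e - 27 * (2 * y + z) * hy
        + (27 - 48 * (3 * x + (1 + 2 * z)) + 32 * (1 + 2 * z)) * hz
        + 4 * (3 * x + (1 + 2 * z)) ^ 2 * hx
    have h6 : 5 + z = 0 := (mul_eq_zero.1 h5).resolve_left three_ne_zero
    have h7 : (21 : F) = 0 := by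
      linear_combination hz - (z - 4) * h6
    norm_num at h7

theorem exists_omP (h : IsE W z) : ∃ f : W.Point →+ W.Point, ∀ (x y : F)
    (hn : W.Nonsingular x y), ∃ hn', f (.some x y hn) = .some (z * x + z ^ 2) y hn' := by
  have hz := h.hz
  have hz3 : z ^ 3 = 1 := by linear_combination (z - 1) * hz
  have hz0 : z ≠ 0 := by
    intro h0
    rw [h0] at hz
    simp at hz
  let C : VariableChange F := ⟨Units.mk0 (z ^ 2) (pow_ne_zero 2 hz0), z ^ 2, 0, 0⟩
  have hui : ((C.u⁻¹ : Fˣ) : F) = z := by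
    change ((Units.mk0 (z ^ 2) (pow_ne_zero 2 hz0))⁻¹ : Fˣ).val = z
    rw [Units.val_inv_eq_inv_val, Units.val_mk0]
    exact inv_eq_of_mul_eq_one_right (by linear_combination hz3)
  have hCW : C • W = W := by
    rw [h.eq]
    ext
    · rw [variableChange_a₁, hui]
      change z * (0 + 2 * 0) = 0
      ring
    · rw [variableChange_a₂, hui]
      change z ^ 2 * ((1 + 2 * z) - 0 * 0 + 3 * z ^ 2 - 0 ^ 2) = 1 + 2 * z
      linear_combination (2 + 3 * z) * hz3 + hz
    · rw [variableChange_a₃, hui]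
      change z ^ 3 * (z + z ^ 2 * 0 + 2 * 0) = z
      linear_combination z * hz3
    · rw [variableChange_a₄, hui]
      change z ^ 4 * (-1 - 0 * z + 2 * z ^ 2 * (1 + 2 * z) - (0 + z ^ 2 * 0) * 0 +
        3 * (z ^ 2) ^ 2 - 2 * 0 * 0) = -1
      have e1 : z ^ 4 = z := by linear_combination z * hz3
      rw [e1]
      linear_combination (4 * z + 3 * z ^ 2 + 2) * hz3 + 3 * hz
    · rw [variableChange_a₆, hui]
      change z ^ 6 * (0 + z ^ 2 * -1 + (z ^ 2) ^ 2 * (1 + 2 * z) + (z ^ 2) ^ 3 - 0 * z - 0 ^ 2 -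
        z ^ 2 * 0 * 0) = 0
      have e1 : z ^ 6 = 1 := by linear_combination (z ^ 3 + 1) * hz3
      rw [e1]
      linear_combination (z + 2 * z ^ 2 + z ^ 3 + 1) * hz3 + hz
  have key := Pool.Agent.Lib.MP_1a91b9_nt.exists_point_equiv W C
  rw [hCW] at key
  obtain ⟨e, he⟩ := key
  refine ⟨e.toAddMonoidHom, fun x y hn => ?_⟩
  obtain ⟨h', h1⟩ := he x y hn
  have e2 : ((C.u : F)) = z ^ 2 := rfl
  have ex : (C.u : F) ^ 2 * x + C.r = z * x + z ^ 2 := by
    rw [e2]
    change (z ^ 2) ^ 2 * x + z ^ 2 = _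
    linear_combination z * x * hz3
  have ey : (C.u : F) ^ 3 * y + (C.u : F) ^ 2 * C.s * x + C.t = y := by
    rw [e2]
    change (z ^ 2) ^ 3 * y + (z ^ 2) ^ 2 * 0 * x + 0 = _
    linear_combination (z ^ 3 + 1) * y * hz3
  have h2 : ∀ (x' y' : F) (h' : W.Nonsingular x' y'), x' = z * x + z ^ 2 → y' = y →
      e (.some x y hn) = .some x' y' h' → ∃ hn', e (.some x y hn) = .some (z * x + z ^ 2) y hn' := by
    intro x' y' hq hx' hy' h3
    subst hx'
    subst hy'
    exact ⟨hq, h3⟩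
  exact h2 _ _ h' ex ey h1

/-- The automorphism `(x, y) ↦ (z x + z², y)`. -/
noncomputable def omP (h : IsE W z) : W.Point →+ W.Point := (exists_omP h).choose

theorem omP_some (h : IsE W z) (x y : F) (hn : W.Nonsingular x y) :
    ∃ hn', omP h (.some x y hn) = .some (z * x + z ^ 2) y hn' :=
  (exists_omP h).choose_spec x y hn

end

end Pool.Agent.Lib.MP_1a91b9_ntT3.S9
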