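import Pool.Agent.Lib.MP_1a91b9_ntT3.S9.Nt

/-!
# JOB TR: transfer to a bigger field and a given embedding; shift by a point of order seven

`transfer3`: the same proof as `transfer` of `Pool/Agent/Lib/MP_1a91b9_ntT/S9/TA.lean`, with
multiplication by `2` replaced by `mu` (`mu_map` for the compatibility with `Affine.Point.map`).
`exists_shift3`: the point `R₀ = (0, 0)` satisfies `mu R₀ = - R₀`: `ω R₀ = (om², 0)`,
`- ω R₀ = (om², - om)`, `R₀ - ω R₀ = (0, - om) = - R₀` (slope `- om²`). `R₀ ≠ 0`, `R₀ ≠ - R₀`. The three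
points `Q`, `Q + mu R₀ = Q - R₀`, `Q + mu (- R₀) = Q + R₀` are distinct, so are their images
(`Affine.Point.map_injective`); one of them is neither `0` nor `T`. (See `exists_shift` in
`Pool/Agent/Lib/MP_1a91b9_ntT/S9/LB.lean`.)
-/

set_option autoImplicit false

namespace Pool.Agent.Lib.MP_1a91b9_ntT3.S9

open WeierstrassCurve Pool.Agent.Lib.MP_1a91b9_ntT.S9
open scoped Classical

private theorem tr_pt {F : Type*} [Field F] [CharZero F] {W : Affine F} {z : F} (h : IsE W z) :
    ∃ R : W.Point, mu h R = -R ∧ R ≠ 0 ∧ R ≠ -R := by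
  have hz := h.hz
  have hz0 : z ≠ 0 := by
    intro h0
    rw [h0] at hz
    simp at hz
  have hz3 : z ^ 3 = 1 := by linear_combination (z - 1) * hz
  have a1 : W.a₁ = 0 := by rw [h.eq]
  have a2 : W.a₂ = 1 + 2 * z := by rw [h.eq]
  have a3 : W.a₃ = z := by rw [h.eq]
  have a4 : W.a₄ = -1 := by rw [h.eq]
  have n0 : W.Nonsingular 0 0 := (h.nons 0 0).2 (by ring)
  have hneg : W.negY 0 0 = -z := by
    rw [Affine.negY, a1, a3]
    ring
  have hne : (0 : F) ≠ W.negY 0 0 := by
    rw [hneg]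
    exact fun e => hz0 (neg_eq_zero.1 e.symm)
  have hs : W.slope 0 0 0 0 = -z ^ 2 := by
    rw [Affine.slope_of_Y_ne rfl hne, hneg, a1, a2, a4, div_eq_iff (by
      rw [sub_neg_eq_add, zero_add]
      exact hz0)]
    linear_combination hz3
  have key : (Affine.Point.some 0 0 n0 : W.Point) + .some 0 0 n0 = .some _ _ _ :=
    Affine.Point.add_self_of_Y_ne hne
  have hX : W.addX 0 0 (W.slope 0 0 0 0) = z * 0 + z ^ 2 := by
    rw [hs, Affine.addX, a1, a2]
    linear_combination z * hz3 - hz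
  have hY : W.addY 0 0 0 (W.slope 0 0 0 0) = 0 := by
    rw [Affine.addY, Affine.negAddY, hX, hs, Affine.negY, a1, a3]
    linear_combination z * hz3
  refine ⟨.some 0 0 n0, ?_, Affine.Point.some_ne_zero _, ?_⟩
  · obtain ⟨hn', e⟩ := omP_some h 0 0 n0
    have e2 : (Affine.Point.some 0 0 n0 : W.Point) + .some 0 0 n0 =
        .some (z * 0 + z ^ 2) 0 hn' := by
      rw [key]
      congr 1
    rw [mu_apply, e, ← e2]
    abel
  · intro e
    rw [Affine.Point.neg_some] at e
    exact hne (Affine.Point.some.inj e).2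

theorem exists_shift3 {k L L' : Type*} [Field k] {om : k} (hom : om ^ 2 + om + 1 = 0) [Field L]
    [CharZero L] [Algebra k L] [Field L'] [Algebra k L'] [Algebra L L'] [IsScalarTower k L L']
    (Q : Pts (S5.EC om) L) (T : Pts (S5.EC om) L') :
    ∃ R : Pts (S5.EC om) L, up (S5.EC om) L L' (Q + mu (isE_bc hom L) R) ≠ 0 ∧
      up (S5.EC om) L L' (Q + mu (isE_bc hom L) R) ≠ T := by
  obtain ⟨R₀, h1, h2, h3⟩ := tr_pt (isE_bc hom L)
  have hinj : Function.Injective (up (S5.EC om) L L') := Affine.Point.map_injective _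
  have m1 : mu (isE_bc hom L) (-R₀) = R₀ := by rw [_root_.map_neg, h1, neg_neg]
  have m0 : mu (isE_bc hom L) 0 = 0 := _root_.map_zero _
  have hA : Q + mu (isE_bc hom L) 0 ≠ Q + mu (isE_bc hom L) R₀ := by
    intro h
    have h4 := add_left_cancel h
    rw [h1, m0] at h4
    exact h2 (neg_eq_zero.1 h4.symm)
  have hB : Q + mu (isE_bc hom L) 0 ≠ Q + mu (isE_bc hom L) (-R₀) := by
    intro h
    have h4 := add_left_cancel h
    rw [m1, m0] at h4
    exact h2 h4.symm
  have hC : Q + mu (isE_bc hom L) R₀ ≠ Q + mu (isE_bc hom L) (-R₀) := by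
    intro h
    have h4 := add_left_cancel h
    rw [m1, h1] at h4
    exact h3 h4.symm
  by_contra hcon
  push Not at hcon
  have c0 := hcon 0
  have c1 := hcon R₀
  have c2 := hcon (-R₀)
  by_cases e0 : up (S5.EC om) L L' (Q + mu (isE_bc hom L) 0) = 0
  · by_cases e1 : up (S5.EC om) L L' (Q + mu (isE_bc hom L) R₀) = 0
    · exact hA (hinj (e0.trans e1.symm))
    · by_cases e2 : up (S5.EC om) L L' (Q + mu (isE_bc hom L) (-R₀)) = 0
      · exact hB (hinj (e0.trans e2.symm))
      · exact hC (hinj ((c1 e1).trans (c2 e2).symm))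
  · by_cases e1 : up (S5.EC om) L L' (Q + mu (isE_bc hom L) R₀) = 0
    · by_cases e2 : up (S5.EC om) L L' (Q + mu (isE_bc hom L) (-R₀)) = 0
      · exact hC (hinj (e1.trans e2.symm))
      · exact hB (hinj ((c0 e0).trans (c2 e2).symm))
    · exact hA (hinj ((c0 e0).trans (c1 e1).symm))

theorem transfer3 {k L L' : Type*} [Field k] {om : k} (hom : om ^ 2 + om + 1 = 0) [CharZero k]
    [Field L] [CharZero L] [Algebra k L] [Field L'] [CharZero L'] [Algebra k L'] [Algebra L L']
    [IsScalarTower k L L']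
    (c : Gal k → Pts (S5.EC om) (AlgebraicClosure k)) (hc : c ∈ trivOver (S5.EC om) L)
    (hmu : ∀ σ, mu (isE_bc hom (AlgebraicClosure k)) (c σ) = 0)
    (ι : AlgebraicClosure k →ₐ[k] AlgebraicClosure L') :
    ∃ (P : Pts (S5.EC om) (AlgebraicClosure L')) (Q : Pts (S5.EC om) L),
      mu (isE_bc hom (AlgebraicClosure L')) P =
        up (S5.EC om) L' (AlgebraicClosure L') (up (S5.EC om) L L' Q) ∧
      ∀ (σ : Gal L') (τ : Gal k), (∀ x, ι (τ x) = σ (ι x)) →
        Affine.Point.map ι (c τ) =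
          Affine.Point.map ((σ : AlgebraicClosure L' →ₐ[L'] _).restrictScalars k) P - P := by
  let j : AlgebraicClosure L →ₐ[L] AlgebraicClosure L' := IsAlgClosed.lift
  let jk : AlgebraicClosure L →ₐ[k] AlgebraicClosure L' := j.restrictScalars k
  let i : AlgebraicClosure k →ₐ[k] AlgebraicClosure L := IsAlgClosed.lift
  obtain ⟨ρ, hρ⟩ := exists_comp (jk.comp i) ι
  let i' : AlgebraicClosure k →ₐ[k] AlgebraicClosure L := i.comp (ρ : _ →ₐ[k] _)
  have hι : ∀ x, ι x = jk (i' x) := hρ
  have hι' : jk.comp i' = ι := by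
    ext x
    exact (hι x).symm
  obtain ⟨P, hP⟩ := hc i'
  have key : ∀ σ' : Gal L, Affine.Point.map ((σ' : AlgebraicClosure L →ₐ[L] _).restrictScalars k)
      (mu (isE_bc hom (AlgebraicClosure L)) P) = mu (isE_bc hom (AlgebraicClosure L)) P := by
    intro σ'
    obtain ⟨τ, hτ⟩ := exists_comp i' (((σ' : AlgebraicClosure L →ₐ[L] _).restrictScalars k).comp i')
    have h1 := hP σ' τ (fun x => (hτ x).symm)
    have h3 : mu (isE_bc hom (AlgebraicClosure L)) (Affine.Point.map i' (c τ)) = 0 := by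
      rw [← mu_map hom, hmu, _root_.map_zero]
    rw [h1, _root_.map_sub, sub_eq_zero] at h3
    rw [mu_map hom]
    exact h3
  obtain ⟨Q, hQ⟩ := fixed_pt (S5.EC om) (mu (isE_bc hom (AlgebraicClosure L)) P) key
  refine ⟨Affine.Point.map jk P, Q, ?_, ?_⟩
  · rw [← mu_map hom, ← hQ]
    simp only [up]
    rw [Affine.Point.map_map, Affine.Point.map_map]
    congr 2
    ext x
    simp [jk]
    rw [← IsScalarTower.algebraMap_apply]
  · intro σ τ hστ
    obtain ⟨σ', hσ'⟩ := exists_comp j (((σ : AlgebraicClosure L' →ₐ[L'] _).restrictScalars L).comp j)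
    have h5 : ∀ x, i' (τ x) = σ' (i' x) := by
      intro x
      apply jk.injective
      change jk (i' (τ x)) = jk (σ' (i' x))
      rw [← hι, hστ, hι]
      exact hσ' (i' x)
    have h6 := hP σ' τ h5
    have h7 := congrArg (Affine.Point.map jk) h6
    rw [Affine.Point.map_map, hι', _root_.map_sub, Affine.Point.map_map] at h7
    rw [h7, Affine.Point.map_map]
    congr 3
    ext x
    exact (hσ' x).symm

end Pool.Agent.Lib.MP_1a91b9_ntT3.S9
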